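import Mathlib

/-!
Abstract operator algebra for 201-avoiding ascent sequences and the 312-machine.
-/

set_option autoImplicit false

namespace Pool.Agent.H207R3.Asc

section
variable {A : Type*} [Ring A] (x b M N α β ρ : A) (I : Ideal A)

structure Data : Prop where
  hx : ∀ y : A, x * y = y * x
  h1 : α * (1 - b) = 1
  h1' : (1 - b) * α = 1
  h2 : β * (1 - M) = 1
  h2' : (1 - M) * β = 1
  hMN : M * N = N * b
  hMb : M * b - b * M = x * x * N
  hM1 : M - x ∈ I
  hMα : M * α - x * N ∈ I
  hα5 : α * (1 + x * N * α) - N ∈ I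
  hρ : ρ * (1 - x * (β * α)) = 1
  hρ' : (1 - x * (β * α)) * ρ = 1

variable {x b M N α β ρ I}

lemma Data.comm1 (H : Data x b M N α β ρ I) : M * b * (b + M) = (b + M) * (M * b) := by
  have e : M * b * (b + M) - (b + M) * (M * b) = (M * b - b * M) * b - M * (M * b - b * M) := by
    noncomm_ring
  rw [← sub_eq_zero, e, H.hMb]
  have e2 : M * (x * x * N) = x * x * (M * N) := by
    rw [← mul_assoc, ← mul_assoc, ← mul_assoc, ← H.hx M, mul_assoc x M x, ← H.hx M, ← mul_assoc]
  rw [e2, H.hMN, mul_assoc (x * x) N b, sub_self]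

lemma Data.comm2 (H : Data x b M N α β ρ I) :
    (β * α) * (α + β) = (α + β) * (β * α) := by
  have c1 := H.comm1
  set X : A := (1 - M) * (1 - b) with hX
  set Y : A := (1 - b) + (1 - M) with hY
  have hXY : X * Y = Y * X := by
    have e : X * Y - Y * X = -(M * b * (b + M) - (b + M) * (M * b)) := by
      rw [hX, hY]; noncomm_ring
    rw [← sub_eq_zero, e, c1, sub_self, neg_zero]
  have e1 : (α * β) * X = 1 := by
    rw [hX, mul_assoc, ← mul_assoc β, H.h2, one_mul, H.h1]
  have e2 : X * (α * β) = 1 := by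
    rw [hX, mul_assoc, ← mul_assoc (1 - b), H.h1', one_mul, H.h2']
  have e3 : (α * β) * Y = Y * (α * β) := by
    calc (α * β) * Y = (α * β) * Y * (X * (α * β)) := by rw [e2, mul_one]
      _ = (α * β) * (Y * X) * (α * β) := by noncomm_ring
      _ = (α * β) * (X * Y) * (α * β) := by rw [hXY]
      _ = ((α * β) * X) * Y * (α * β) := by noncomm_ring
      _ = Y * (α * β) := by rw [e1, one_mul]
  have e4 : α + β = β * Y * α := by
    have : β * Y * α = β * ((1 - b) * α) + (β * (1 - M)) * α := by rw [hY]; noncomm_ring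
    rw [this, H.h1', H.h2]; noncomm_ring
  calc (β * α) * (α + β) = (β * α) * (β * Y * α) := by rw [e4]
    _ = β * ((α * β) * Y) * α := by noncomm_ring
    _ = β * (Y * (α * β)) * α := by rw [e3]
    _ = (β * Y * α) * (β * α) := by noncomm_ring
    _ = (α + β) * (β * α) := by rw [← e4]

/-- `β N = N α` -/
lemma Data.bN (H : Data x b M N α β ρ I) : β * N = N * α := by
  have e : (1 - M) * (N * α) = N := by
    have : (1 - M) * (N * α) = N * α - (M * N) * α := by noncomm_ring
    rw [this, H.hMN]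
    have : N * α - N * b * α = N * ((1 - b) * α) := by noncomm_ring
    rw [this, H.h1', mul_one]
  calc β * N = β * ((1 - M) * (N * α)) := by rw [e]
    _ = (β * (1 - M)) * (N * α) := by noncomm_ring
    _ = N * α := by rw [H.h2, one_mul]

/-- `(β - 1) α ≡ x N α` -/
lemma Data.g0 (H : Data x b M N α β ρ I) : (β - 1) * α - x * (N * α) ∈ I := by
  have e1 : β - 1 = β * M := by
    have := H.h2
    rw [mul_sub, mul_one] at this
    rw [sub_eq_iff_eq_add, add_comm, ← sub_eq_iff_eq_add]
    exact this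
  have e2 : (β - 1) * α - x * (N * α) = β * (M * α - x * N) := by
    rw [e1, mul_sub, ← H.bN, mul_assoc, ← mul_assoc β x N, ← H.hx β, mul_assoc]
  rw [e2]
  exact I.mul_mem_left _ H.hMα

/-- `P (1 + x N α) ≡ N α` -/
lemma Data.g1 (H : Data x b M N α β ρ I) : (β * α) * (1 + x * (N * α)) - N * α ∈ I := by
  have e : (β * α) * (1 + x * (N * α)) - N * α = β * (α * (1 + x * N * α) - N) := by
    rw [mul_sub, H.bN]; noncomm_ring
  rw [e]
  exact I.mul_mem_left _ H.hα5

/-- `ρ ≡ 1 + x N α` -/
lemma Data.g2 (H : Data x b M N α β ρ I) : ρ - (1 + x * (N * α)) ∈ I := by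
  have e : ρ - (1 + x * (N * α)) =
      ρ * (x * ((β * α) * (1 + x * (N * α)) - N * α)) := by
    have h := H.hρ
    have e1 : ρ * (x * ((β * α) * (1 + x * (N * α)) - N * α)) =
        ρ - (ρ * (1 - x * (β * α))) * (1 + x * (N * α)) := by
      noncomm_ring
    rw [e1, h, one_mul]
  rw [e]
  exact I.mul_mem_left _ (I.mul_mem_left _ H.g1)

/-- `V ≡ (1 - x) N α` -/
lemma Data.g3 (H : Data x b M N α β ρ I) :
    (1 - x) * (β * α) * ρ - (1 - x) * (N * α) ∈ I := by
  have e : (1 - x) * (β * α) * ρ - (1 - x) * (N * α) =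
      (1 - x) * (β * α) * (ρ - (1 + x * (N * α))) +
        (1 - x) * ((β * α) * (1 + x * (N * α)) - N * α) := by noncomm_ring
  rw [e]
  exact I.add_mem (I.mul_mem_left _ H.g2) (I.mul_mem_left _ H.g1)

/-- the curve relation on the vacuum -/
lemma Data.gamma (H : Data x b M N α β ρ I) :
    (1 - x * (β * α)) * ((1 - x) * (β * α - (α + β)) + (2 - x)) - (1 - x) ∈ I := by
  have hβ : (1 - x) * β - 1 ∈ I := by
    -- β ≡ 1 + β M ≡ 1 + x β
    have e1 : β - 1 = β * M := by
      have := H.h2
      rw [mul_sub, mul_one] at this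
      rw [sub_eq_iff_eq_add, add_comm, ← sub_eq_iff_eq_add]
      exact this
    have e : (1 - x) * β - 1 = β * (M - x) := by
      rw [mul_sub, ← e1, ← H.hx β]; noncomm_ring
    rw [e]
    exact I.mul_mem_left _ H.hM1
  have hxc : (1 - x * (β * α)) * (1 - x) = (1 - x) * (1 - x * (β * α)) := by
    have := H.hx (x * (β * α))
    rw [mul_sub, mul_one, sub_mul, one_mul, ← this]
    noncomm_ring
  -- decomposition
  have e : (1 - x * (β * α)) * ((1 - x) * (β * α - (α + β)) + (2 - x)) - (1 - x) =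
      (1 - x * (β * α)) * ((1 - x) * ((β - 1) * α - x * (N * α))) -
      (1 - x * (β * α)) * ((1 - x) * β - 1) +
      (1 - x) * (((1 - x * (β * α)) * (1 + x * (N * α))) - 1) := by
    have e1 : (1 - x * (β * α)) * ((1 - x) * (β * α - (α + β)) + (2 - x)) =
        (1 - x * (β * α)) * ((1 - x) * ((β - 1) * α)) - (1 - x * (β * α)) * ((1 - x) * β - 1) +
        (1 - x * (β * α)) * (1 - x) := by noncomm_ring
    have e2 : (1 - x) * (((1 - x * (β * α)) * (1 + x * (N * α))) - 1) =
        ((1 - x * (β * α)) * (1 - x)) * (1 + x * (N * α)) - (1 - x) := by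
      rw [hxc]; noncomm_ring
    rw [e1, e2]
    noncomm_ring
  rw [e]
  refine I.add_mem (I.sub_mem (I.mul_mem_left _ (I.mul_mem_left _ H.g0)) (I.mul_mem_left _ hβ))
    (I.mul_mem_left _ ?_)
  have e3 : (1 - x * (β * α)) * (1 + x * (N * α)) - 1 =
      -(x * ((β * α) * (1 + x * (N * α)) - N * α)) := by noncomm_ring
  rw [e3]
  exact I.neg_mem (I.mul_mem_left _ H.g1)

end

end Pool.Agent.H207R3.Asc
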