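import Pool.Agent.H207R3.AscAlg

/-!
The key relation and the vacuum recursion.
-/

set_option autoImplicit false

namespace Pool.Agent.H207R3.Asc

/-- commutative-ring computations -/
lemma comm_tV {R : Type*} [CommRing R] (x P ρ : R) (h : ρ * (1 - x * P) = 1) :
    (1 - x * P) * ((1 - x) * P * ρ) = (1 - x) * P := by
  linear_combination ((1 - x) * P) * h

lemma comm_E {R : Type*} [CommRing R] (x P Q ρ W : R) (h : ρ * (1 - x * P) = 1) :
    (((1 - x) * (P - Q) + x * P - x * ((1 - x) * P * ρ)) * ((1 - x) * P * ρ) + (1 - x) * P) * W =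
      ((1 - x) * P * ρ * ρ * W) * ((1 - x * P) * ((1 - x) * (P - Q) + (2 - x)) - (1 - x)) := by
  linear_combination ((1 - x) * P * W *
    (-1 + (1 - x) * ρ - ρ * ((1 - x) * (P - Q) + 2 - x))) * h

section
universe v
variable {A : Type v} [Ring A]

/-- pairwise commuting elements live in a commutative ring -/
lemma exists_commRing {s : Set A} (hc : ∀ y ∈ s, ∀ z ∈ s, y * z = z * y) :
    ∃ (S : Type v) (_ : CommRing S) (φ : S →+* A), Function.Injective φ ∧
      ∀ y ∈ s, ∃ y' : S, φ y' = y := by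
  have key : ∀ a b : Subring.closure s, a * b = b * a :=
    fun a b => @mul_comm _ (Subring.closureCommRingOfComm hc).toCommMonoid.toCommSemigroup.toCommMagma a b
  refine ⟨Subring.closure s, { (inferInstance : Ring (Subring.closure s)) with mul_comm := key },
    (Subring.closure s).subtype, Subtype.val_injective, fun y hy => ?_⟩
  exact ⟨⟨y, Subring.subset_closure hy⟩, rfl⟩

/-- transfer of a commutative identity -/
lemma transfer {x P Q ρ : A} (h12 : x * P = P * x) (h13 : x * Q = Q * x) (h14 : x * ρ = ρ * x)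
    (h23 : P * Q = Q * P) (h24 : P * ρ = ρ * P) (h34 : Q * ρ = ρ * Q) (s : ℕ)
    (h : ρ * (1 - x * P) = 1) :
    ((1 - x * P) * ((1 - x) * P * ρ) = (1 - x) * P) ∧
    (((1 - x) * P * ρ) * (1 - x * P) = (1 - x) * P) ∧
    ((((1 - x) * (P - Q) + x * P - x * ((1 - x) * P * ρ)) * ((1 - x) * P * ρ) + (1 - x) * P) *
        ((1 - x) * P * ρ) ^ s =
      ((1 - x) * P * ρ * ρ * ((1 - x) * P * ρ) ^ s) *
        ((1 - x * P) * ((1 - x) * (P - Q) + (2 - x)) - (1 - x))) := by
  have hc : ∀ y ∈ ({x, P, Q, ρ} : Set A), ∀ z ∈ ({x, P, Q, ρ} : Set A), y * z = z * y := by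
    intro y hy z hz
    simp only [Set.mem_insert_iff, Set.mem_singleton_iff] at hy hz
    rcases hy with rfl | rfl | rfl | rfl <;> rcases hz with rfl | rfl | rfl | rfl <;>
      first | rfl | assumption | (symm; assumption)
  obtain ⟨S, _, φ, hφ, hr⟩ := exists_commRing hc
  obtain ⟨x', rfl⟩ := hr x (by simp)
  obtain ⟨P', rfl⟩ := hr P (by simp)
  obtain ⟨Q', rfl⟩ := hr Q (by simp)
  obtain ⟨ρ', rfl⟩ := hr ρ (by simp)
  have h' : ρ' * (1 - x' * P') = 1 := hφ (by simpa using h)
  have e1 := congrArg φ (comm_tV x' P' ρ' h')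
  have e2 := congrArg φ (comm_E x' P' Q' ρ' (((1 - x') * P' * ρ') ^ s) h')
  have e3 : ((1 - x') * P' * ρ') * (1 - x' * P') = (1 - x') * P' := by
    rw [mul_comm]; exact comm_tV x' P' ρ' h'
  have e3' := congrArg φ e3
  simp only [map_mul, map_sub, map_one, map_add, map_pow, map_ofNat] at e1 e2 e3'
  exact ⟨e1, e3', e2⟩

variable {x b M N α β ρ : A} {I : Ideal A}

lemma Data.comm_ρ (H : Data x b M N α β ρ I) {y : A} (hy : (β * α) * y = y * (β * α)) :
    y * ρ = ρ * y := by
  have h1 : (1 - x * (β * α)) * y = y * (1 - x * (β * α)) := by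
    have : x * (β * α) * y = y * (x * (β * α)) := by
      rw [mul_assoc, hy, ← mul_assoc, H.hx y, mul_assoc]
    rw [sub_mul, mul_sub, one_mul, mul_one, this]
  calc y * ρ = (ρ * (1 - x * (β * α))) * y * ρ := by rw [H.hρ, one_mul]
    _ = ρ * ((1 - x * (β * α)) * y) * ρ := by noncomm_ring
    _ = ρ * (y * (1 - x * (β * α))) * ρ := by rw [h1]
    _ = ρ * y * ((1 - x * (β * α)) * ρ) := by noncomm_ring
    _ = ρ * y := by rw [H.hρ', mul_one]

lemma Data.tr (H : Data x b M N α β ρ I) (s : ℕ) :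
    ((1 - x * (β * α)) * ((1 - x) * (β * α) * ρ) = (1 - x) * (β * α)) ∧
    (((1 - x) * (β * α) * ρ) * (1 - x * (β * α)) = (1 - x) * (β * α)) ∧
    ((((1 - x) * (β * α - (α + β)) + x * (β * α) - x * ((1 - x) * (β * α) * ρ)) *
        ((1 - x) * (β * α) * ρ) + (1 - x) * (β * α)) *
        ((1 - x) * (β * α) * ρ) ^ s =
      ((1 - x) * (β * α) * ρ * ρ * ((1 - x) * (β * α) * ρ) ^ s) *
        ((1 - x * (β * α)) * ((1 - x) * (β * α - (α + β)) + (2 - x)) - (1 - x))) :=
  transfer (H.hx _) (H.hx _) (H.hx _) H.comm2 (H.comm_ρ rfl) (H.comm_ρ H.comm2) s H.hρ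

/-- the key relation -/
lemma Data.K (H : Data x b M N α β ρ I) (V : A) (hV : V = (1 - x) * (β * α) * ρ) (s : ℕ) :
    (1 - x - x * β) * (β * α - α) * V * V ^ s - (1 - x) * β * (β * α - α) * V ^ s -
      x * (V - β) * V * V ^ s ∈ I := by
  obtain ⟨t1, t2, t3⟩ := H.tr s
  rw [← hV] at t1 t2 t3
  have e1 : β * V - x * β * (β * α) * V - (1 - x) * β * (β * α) = 0 := by
    have : β * V - x * β * (β * α) * V - (1 - x) * β * (β * α) =
        β * ((1 - x * (β * α)) * V - (1 - x) * (β * α)) := by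
      rw [sub_mul, one_mul, H.hx β]; noncomm_ring
    rw [this, t1, sub_self, mul_zero]
  have e2 : (1 - x - x * β) * (β * α - α) * V * V ^ s - (1 - x) * β * (β * α - α) * V ^ s -
      x * (V - β) * V * V ^ s =
      (((1 - x) * (β * α - (α + β)) + x * (β * α) - x * V) * V + (1 - x) * (β * α)) * V ^ s +
      (β * V - x * β * (β * α) * V - (1 - x) * β * (β * α)) * V ^ s := by
    generalize V ^ s = W
    noncomm_ring
  rw [e2, e1, zero_mul, add_zero, t3]
  exact I.mul_mem_left _ H.gamma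

/-- the vacuum recursion -/
lemma Data.Is (H : Data x b M N α β ρ I) (V : A) (hV : V = (1 - x) * (β * α) * ρ) (s : ℕ) :
    (1 - x) * ((β * α - α) * V ^ s) - x * V ^ (s + 1) -
      x * ∑ j ∈ Finset.range s, β ^ (j + 1) * ((β * α - α) * V ^ (s - j)) ∈ I := by
  induction s with
  | zero =>
    simp only [pow_zero, mul_one, zero_add, pow_one, Finset.range_zero, Finset.sum_empty, mul_zero,
      sub_zero]
    have e : (1 - x) * (β * α - α) - x * V =
        (1 - x) * ((β - 1) * α - x * (N * α)) - x * (V - (1 - x) * (N * α)) := by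
      noncomm_ring
    rw [e]
    refine I.sub_mem (I.mul_mem_left _ H.g0) (I.mul_mem_left _ ?_)
    rw [hV]; exact H.g3
  | succ s ih =>
    have hK := H.K V hV s
    have e : (1 - x) * ((β * α - α) * V ^ (s + 1)) - x * V ^ (s + 1 + 1) -
      x * ∑ j ∈ Finset.range (s + 1), β ^ (j + 1) * ((β * α - α) * V ^ (s + 1 - j)) =
      β * ((1 - x) * ((β * α - α) * V ^ s) - x * V ^ (s + 1) -
        x * ∑ j ∈ Finset.range s, β ^ (j + 1) * ((β * α - α) * V ^ (s - j))) +
      ((1 - x - x * β) * (β * α - α) * V * V ^ s - (1 - x) * β * (β * α - α) * V ^ s -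
        x * (V - β) * V * V ^ s) := by
      rw [Finset.sum_range_succ']
      have e3 : ∑ k ∈ Finset.range s, β ^ (k + 1 + 1) * ((β * α - α) * V ^ (s + 1 - (k + 1))) =
          β * ∑ j ∈ Finset.range s, β ^ (j + 1) * ((β * α - α) * V ^ (s - j)) := by
        rw [Finset.mul_sum]
        refine Finset.sum_congr rfl fun k _ => ?_
        rw [Nat.add_sub_add_right, pow_succ' β (k + 1), mul_assoc]
      rw [e3]
      generalize ∑ j ∈ Finset.range s, β ^ (j + 1) * ((β * α - α) * V ^ (s - j)) = T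
      have e4 : ∀ y : A, β * (x * y) = x * (β * y) := by
        intro y; rw [← mul_assoc, ← H.hx β, mul_assoc]
      have e5 : β * ((1 - x) * ((β * α - α) * V ^ s) - x * V ^ (s + 1) - x * T) =
        β * ((β * α - α) * V ^ s) - x * (β * ((β * α - α) * V ^ s)) -
          x * (β * V ^ (s + 1)) - x * (β * T) := by
        rw [mul_sub, mul_sub, sub_mul, mul_sub, one_mul, e4, e4, e4]
      rw [e5]
      rw [pow_succ' V (s + 1), pow_succ' V s, zero_add, pow_one, Nat.sub_zero, pow_succ' V s]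
      generalize V ^ s = W
      noncomm_ring
    rw [e]
    exact I.add_mem (I.mul_mem_left _ ih) hK

end

end Pool.Agent.H207R3.Asc
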