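import Mathlib

/-!
Counting functions for the two generating trees of MP_b80f54_co (joint work of helper207, helper384,
helper502; models found by helper553).
-/

set_option autoImplicit false

namespace Pool.Agent.H207R3.Asc

mutual
/-- number of length-`n` paths from an `A(r,s)` node of the ascent tree -/
def a : ℕ → ℕ → ℕ → ℕ
  | 0, _, _ => 1
  | n+1, r, s => a n r s + ∑ i ∈ Finset.Icc 1 r, b n i s +
      ∑ j ∈ Finset.Icc 1 s, a n (r+j) (s+1-j)
/-- number of length-`n` paths from a `B(r,s)` node of the ascent tree -/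
def b : ℕ → ℕ → ℕ → ℕ
  | 0, _, _ => 1
  | n+1, r, s => ∑ i ∈ Finset.Icc 1 r, b n i s +
      ∑ j ∈ Finset.range (s+1), a n (r+j) (s+1-j)
end

/-- pops followed by a small push -/
def popf (f : ℕ → ℕ → List ℕ → ℕ) : ℕ → List ℕ → ℕ
  | _, [] => 0
  | v, w::ws => f v (w+1) ws + popf f w ws

/-- number of length-`n` paths from the machine state `(u; w, ws)` -/
def d : ℕ → ℕ → ℕ → List ℕ → ℕ
  | 0, _, _, _ => 1
  | n+1, u, w, ws => d n u (w+1) ws + popf (d n) w ws +
      ∑ j ∈ Finset.range (u+1), d n (u-j) (1+j) (w::ws)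

end Pool.Agent.H207R3.Asc
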