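import Pool.Agent.H207R3.AscAlg2
import Pool.Agent.H207R3.AscDefs

/-!
The vacuum functional and the ascent recursion.
-/

set_option autoImplicit false

namespace Pool.Agent.H207R3.Asc

open PowerSeries

section
universe v
variable {A : Type v} [Ring A]

structure Vac (x b : A) (I : Ideal A) (ev : A →+ PowerSeries ℤ) : Prop where
  hX : ∀ T, ev (x * T) = X * ev T
  hb : ∀ T, ev (b * T) = 0
  hI : ∀ T ∈ I, ev T = 0
  h1 : ev 1 = 1

variable {x b M N α β ρ : A} {I : Ideal A} {ev : A →+ PowerSeries ℤ}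

lemma Vac.hα (E : Vac x b I ev) (H : Data x b M N α β ρ I) (T : A) : ev (α * T) = ev T := by
  have e : α = 1 + b * α := by
    have := H.h1'
    rw [sub_mul, one_mul, sub_eq_iff_eq_add] at this
    exact this
  rw [e, add_mul, one_mul, map_add, mul_assoc, E.hb, add_zero]

lemma Vac.h1X (E : Vac x b I ev) (T : A) : ev ((1 - x) * T) = (1 - X) * ev T := by
  rw [sub_mul, one_mul, map_sub, E.hX, sub_mul, one_mul]

/-- the matrix elements -/
noncomputable def aa (ev : A →+ PowerSeries ℤ) (α β V : A) (r s : ℕ) : PowerSeries ℤ :=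
  ev (β ^ r * (α * V ^ s))

lemma Data.x_pow (H : Data x b M N α β ρ I) (r : ℕ) (T : A) :
    β ^ r * (x * T) = x * (β ^ r * T) := by
  rw [← mul_assoc, ← H.hx, mul_assoc]

lemma Vac.e2 (E : Vac x b I ev) (H : Data x b M N α β ρ I) (V : A)
    (hV : V = (1 - x) * (β * α) * ρ) (r s : ℕ) :
    ev (β ^ r * V ^ (s + 1)) = (1 - X) * aa ev α β V (r + 1) s + X * aa ev α β V (r + 1) (s + 1) := by
  obtain ⟨t1, -, -⟩ := H.tr 0
  rw [← hV] at t1
  have e : β ^ r * V ^ (s + 1) = (1 - x) * (β ^ (r + 1) * (α * V ^ s)) +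
      x * (β ^ (r + 1) * (α * V ^ (s + 1))) := by
    have hv : V = (1 - x) * (β * α) + x * (β * α) * V := by
      rw [← t1]; noncomm_ring
    have hx1 := H.x_pow r
    calc β ^ r * V ^ (s + 1) = β ^ r * (V * V ^ s) := by rw [pow_succ']
      _ = β ^ r * (((1 - x) * (β * α) + x * (β * α) * V) * V ^ s) := by rw [← hv]
      _ = β ^ r * (β * α * V ^ s) - β ^ r * (x * (β * α * V ^ s)) +
          β ^ r * (x * (β * α * (V * V ^ s))) := by
        generalize V ^ s = W
        noncomm_ring
      _ = β ^ r * (β * α * V ^ s) - x * (β ^ r * (β * α * V ^ s)) +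
          x * (β ^ r * (β * α * (V * V ^ s))) := by rw [hx1, hx1]
      _ = _ := by
        rw [pow_succ' V s, pow_succ β r]
        generalize V ^ s = W
        noncomm_ring
  rw [e, map_add, E.h1X, E.hX]
  rfl

lemma Vac.e3 (E : Vac x b I ev) (H : Data x b M N α β ρ I) (V : A)
    (hV : V = (1 - x) * (β * α) * ρ) (r s : ℕ) :
    (1 - X) * (aa ev α β V (r + 1) s - aa ev α β V r s) = X * ev (β ^ r * V ^ (s + 1)) +
      X * ∑ j ∈ Finset.range s, (aa ev α β V (r + j + 2) (s - j) - aa ev α β V (r + j + 1) (s - j)) := by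
  have h := H.Is V hV s
  have h2 := E.hI _ (I.mul_mem_left (β ^ r) h)
  have hG : ∀ k m : ℕ, β ^ k * ((β * α - α) * V ^ m) =
      β ^ (k + 1) * (α * V ^ m) - β ^ k * (α * V ^ m) := by
    intro k m
    rw [pow_succ]; noncomm_ring
  have e : β ^ r * ((1 - x) * ((β * α - α) * V ^ s) - x * V ^ (s + 1) -
      x * ∑ j ∈ Finset.range s, β ^ (j + 1) * ((β * α - α) * V ^ (s - j))) =
      (1 - x) * (β ^ (r + 1) * (α * V ^ s) - β ^ r * (α * V ^ s)) -
      x * (β ^ r * V ^ (s + 1)) -
      x * ∑ j ∈ Finset.range s, (β ^ (r + j + 2) * (α * V ^ (s - j)) -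
        β ^ (r + j + 1) * (α * V ^ (s - j))) := by
    have hs : ∑ j ∈ Finset.range s, (β ^ (r + j + 2) * (α * V ^ (s - j)) -
        β ^ (r + j + 1) * (α * V ^ (s - j))) =
        β ^ r * ∑ j ∈ Finset.range s, β ^ (j + 1) * ((β * α - α) * V ^ (s - j)) := by
      rw [Finset.mul_sum]
      refine Finset.sum_congr rfl fun j _ => ?_
      rw [← mul_assoc (β ^ r), ← pow_add, ← add_assoc, hG]
    rw [hs, ← hG]
    rw [mul_sub, mul_sub, H.x_pow, H.x_pow, sub_mul 1 x, one_mul, mul_sub, H.x_pow]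
    noncomm_ring
  rw [e, map_sub, map_sub, E.h1X, E.hX, E.hX, map_sub, map_sum] at h2
  simp only [map_sub] at h2
  have h3 := h2
  rw [sub_sub, sub_eq_zero] at h3
  exact h3

/-- the identity `L(r,s)` -/
lemma Vac.L (E : Vac x b I ev) (H : Data x b M N α β ρ I) (V : A)
    (hV : V = (1 - x) * (β * α) * ρ) (r s : ℕ) :
    (1 - X) * aa ev α β V r s = (1 - X) +
      X * ∑ i ∈ Finset.Icc 1 r, ((1 - X) * aa ev α β V i s + X * aa ev α β V i (s + 1)) +
      X * ∑ j ∈ Finset.range s, aa ev α β V (r + 1 + j) (s - j) := by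
  induction r with
  | zero =>
    simp only [Finset.Icc_eq_empty_of_lt (Nat.zero_lt_one), Finset.sum_empty, mul_zero, add_zero,
      zero_add]
    induction s with
    | zero =>
      have : aa ev α β V 0 0 = 1 := by
        unfold aa
        rw [pow_zero, one_mul, E.hα H, pow_zero, E.h1]
      simp [this]
    | succ s ih =>
      have h3 := E.e3 H V hV 0 s
      have h2 := E.e2 H V hV 0 s
      have h4 : ev (β ^ 0 * V ^ (s + 1)) = aa ev α β V 0 (s + 1) := by
        unfold aa
        rw [pow_zero, one_mul, one_mul, E.hα H]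
      rw [h4] at h2 h3
      rw [Finset.sum_range_succ']
      simp only [Nat.add_sub_add_right, Nat.sub_zero, add_zero]
      simp only [zero_add] at h3
      rw [Finset.sum_sub_distrib] at h3
      have e1 : ∑ j ∈ Finset.range s, aa ev α β V (1 + j) (s - j) =
          ∑ j ∈ Finset.range s, aa ev α β V (j + 1) (s - j) :=
        Finset.sum_congr rfl fun j _ => by rw [add_comm]
      have e2 : ∑ j ∈ Finset.range s, aa ev α β V (1 + (j + 1)) (s - j) =
          ∑ j ∈ Finset.range s, aa ev α β V (j + 2) (s - j) :=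
        Finset.sum_congr rfl fun j _ => by rw [show 1 + (j + 1) = j + 2 by omega]
      rw [e1] at ih
      rw [e2]
      simp only [zero_add] at h2
      linear_combination ih + h3 + h2
  | succ r ih =>
    rw [Finset.sum_Icc_succ_top (by omega)]
    have h3 := E.e3 H V hV r s
    have h2 := E.e2 H V hV r s
    rw [h2] at h3
    rw [Finset.sum_sub_distrib] at h3
    have e1 : ∑ j ∈ Finset.range s, aa ev α β V (r + 1 + 1 + j) (s - j) =
        ∑ j ∈ Finset.range s, aa ev α β V (r + j + 2) (s - j) :=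
      Finset.sum_congr rfl fun j _ => by rw [show r + 1 + 1 + j = r + j + 2 by omega]
    have e2 : ∑ j ∈ Finset.range s, aa ev α β V (r + 1 + j) (s - j) =
        ∑ j ∈ Finset.range s, aa ev α β V (r + j + 1) (s - j) :=
      Finset.sum_congr rfl fun j _ => by rw [show r + 1 + j = r + j + 1 by omega]
    rw [e2] at ih
    rw [e1]
    linear_combination ih + h3

end

/-- uniqueness for the ascent recursion -/
lemma ab_unique (F G : ℕ → ℕ → PowerSeries ℤ)
    (hF : ∀ r s, F r s = 1 + X * (F r s + ∑ i ∈ Finset.Icc 1 r, G i s +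
      ∑ j ∈ Finset.Icc 1 s, F (r+j) (s+1-j)))
    (hG : ∀ r s, G r s = 1 + X * (∑ i ∈ Finset.Icc 1 r, G i s +
      ∑ j ∈ Finset.range (s+1), F (r+j) (s+1-j))) (n : ℕ) :
    (∀ r s, coeff n (F r s) = (a n r s : ℤ)) ∧ (∀ r s, coeff n (G r s) = (b n r s : ℤ)) := by
  induction n with
  | zero =>
    refine ⟨fun r s => ?_, fun r s => ?_⟩
    · rw [hF]; simp [a]
    · rw [hG]; simp [b]
  | succ n ih =>
    obtain ⟨ih1, ih2⟩ := ih
    refine ⟨fun r s => ?_, fun r s => ?_⟩
    · rw [hF, map_add, coeff_succ_X_mul, map_add, map_add, map_sum, map_sum, ih1]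
      simp only [ih1, ih2, a, Nat.cast_add, Nat.cast_sum]
      rw [coeff_one, if_neg (by omega), zero_add]
    · rw [hG, map_add, coeff_succ_X_mul, map_add, map_sum, map_sum]
      simp only [ih1, ih2, b, Nat.cast_add, Nat.cast_sum]
      rw [coeff_one, if_neg (by omega), zero_add]

section
universe v
variable {A : Type v} [Ring A]
variable {x b M N α β ρ : A} {I : Ideal A} {ev : A →+ PowerSeries ℤ}

/-- geometric series -/
noncomputable def geo : PowerSeries ℤ := PowerSeries.mk 1

lemma geo_mul : (1 - X) * geo = 1 := by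
  rw [mul_comm]; exact PowerSeries.mk_one_mul_one_sub_eq_one ℤ

lemma Vac.coeff_a (E : Vac x b I ev) (H : Data x b M N α β ρ I) (V : A)
    (hV : V = (1 - x) * (β * α) * ρ) (n r s : ℕ) :
    coeff n (geo * aa ev α β V r s) = (a n r s : ℤ) := by
  set F : ℕ → ℕ → PowerSeries ℤ := fun r s => geo * aa ev α β V r s with hFdef
  set G : ℕ → ℕ → PowerSeries ℤ := fun r s => aa ev α β V r s + X * F r (s + 1) with hGdef
  have hA : ∀ r s, (1 - X) * F r s = aa ev α β V r s := by
    intro r s
    rw [hFdef]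
    simp only
    rw [← mul_assoc, geo_mul, one_mul]
  have hB : ∀ r s, (1 - X) * G r s = (1 - X) * aa ev α β V r s + X * aa ev α β V r (s + 1) := by
    intro r s
    rw [hGdef]
    simp only
    linear_combination X * hA r (s + 1)
  have hrec : ∀ r s, (1 - X) * F r s = 1 + X * ∑ i ∈ Finset.Icc 1 r, G i s +
      X * ∑ j ∈ Finset.Icc 1 s, F (r+j) (s+1-j) := by
    intro r s
    have hL := E.L H V hV r s
    have e1 : ∑ i ∈ Finset.Icc 1 r, ((1 - X) * aa ev α β V i s + X * aa ev α β V i (s + 1)) =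
        (1 - X) * ∑ i ∈ Finset.Icc 1 r, G i s := by
      rw [Finset.mul_sum]
      exact Finset.sum_congr rfl fun i _ => (hB i s).symm
    have e2 : ∑ j ∈ Finset.range s, aa ev α β V (r + 1 + j) (s - j) =
        (1 - X) * ∑ j ∈ Finset.Icc 1 s, F (r+j) (s+1-j) := by
      rw [Finset.mul_sum, Finset.range_eq_Ico, ← Finset.Ico_add_one_right_eq_Icc, Finset.sum_Ico_eq_sum_range,
        Finset.sum_Ico_eq_sum_range]
      simp only [Nat.add_sub_cancel, Nat.sub_zero, zero_add]
      refine Finset.sum_congr rfl fun j _ => ?_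
      rw [hA, show r + (1 + j) = r + 1 + j by omega, show s + 1 - (1 + j) = s - j by omega]
    rw [e1, e2, ← hA r s] at hL
    have h5 := congrArg (fun y => geo * y) hL
    beta_reduce at h5
    linear_combination h5 + ((1 - X) * F r s - 1 - X * ∑ i ∈ Finset.Icc 1 r, G i s -
      X * ∑ j ∈ Finset.Icc 1 s, F (r+j) (s+1-j)) * (-geo_mul)
  refine (ab_unique F G ?_ ?_ n).1 r s
  · intro r s
    linear_combination hrec r s
  · intro r s
    have h6 := hrec r s
    rw [hA] at h6
    have e3 : ∑ j ∈ Finset.range (s+1), F (r+j) (s+1-j) =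
        F r (s + 1) + ∑ j ∈ Finset.Icc 1 s, F (r+j) (s+1-j) := by
      rw [Finset.range_eq_Ico, ← Finset.Ico_add_one_right_eq_Icc,
        Finset.sum_eq_sum_Ico_succ_bot (by omega)]
      simp
    have e4 : G r s = aa ev α β V r s + X * F r (s + 1) := rfl
    rw [e3, e4]
    linear_combination h6

/-- conclusion on the ascent side -/
lemma Vac.final (E : Vac x b I ev) (H : Data x b M N α β ρ I) (n : ℕ) :
    coeff n (ev (N * α)) = (a n 0 1 : ℤ) := by
  have h := E.coeff_a H _ rfl n 0 1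
  rw [← h]
  congr 1
  unfold aa
  rw [pow_zero, one_mul, E.hα H, pow_one]
  have h3 := E.hI _ H.g3
  rw [map_sub, sub_eq_zero] at h3
  rw [h3, E.h1X, ← mul_assoc, mul_comm geo, geo_mul, one_mul]

end

end Pool.Agent.H207R3.Asc
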