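import Pool.Agent.H207R3.AscOps

/-!
The machine tree.
-/

set_option autoImplicit false

namespace Pool.Agent.H207R3.Asc

open PowerSeries Finset.HasAntidiagonal

/-- closed form of the machine counts, together with the pop sums -/
def PP : List ℕ → (ℕ → ℕ → ℕ → ℤ) × (ℕ → ℕ → ℤ)
  | [] => (fun _ n u => e n u, fun _ _ => 0)
  | w2 :: ws =>
    (fun w n u => e n u + (match n with
      | 0 => 0
      | n'+1 => ∑ p ∈ antidiagonal n', (Nop p.1 (fun k => (PP ws).1 (w2+1) p.2 (w+k)) u +
          e p.1 u * (PP ws).2 w2 p.2)),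
     fun v l => (PP ws).1 (w2+1) l v + (PP ws).2 w2 l)

lemma PP_nil_fst (w n u : ℕ) : (PP []).1 w n u = e n u := rfl
lemma PP_nil_snd (v l : ℕ) : (PP []).2 v l = 0 := rfl
lemma PP_cons_fst_zero (w2 : ℕ) (ws : List ℕ) (w u : ℕ) :
    (PP (w2 :: ws)).1 w 0 u = e 0 u := by
  change e 0 u + 0 = e 0 u
  rw [add_zero]
lemma PP_cons_fst_succ (w2 : ℕ) (ws : List ℕ) (w n u : ℕ) :
    (PP (w2 :: ws)).1 w (n+1) u = e (n+1) u +
      ∑ p ∈ antidiagonal n, (Nop p.1 (fun k => (PP ws).1 (w2+1) p.2 (w+k)) u +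
          e p.1 u * (PP ws).2 w2 p.2) := rfl
lemma PP_cons_snd (w2 : ℕ) (ws : List ℕ) (v l : ℕ) :
    (PP (w2 :: ws)).2 v l = (PP ws).1 (w2+1) l v + (PP ws).2 w2 l := rfl

/-- rank one operator -/
def Rk (f : Fn) : Op := LinearMap.smulRight (LinearMap.proj 0) f

lemma Rk_apply (f g : Fn) : Rk f g = g 0 • f := rfl

lemma Rk_δ (f : Fn) : Rk f δ = f := by
  rw [Rk_apply]; simp [δ]

lemma mul_Rk (S : Op) (f : Fn) : S * Rk f = Rk (S f) := by
  refine LinearMap.ext fun g => ?_
  rw [Module.End.mul_apply, Rk_apply, Rk_apply, map_smul]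

lemma Rk_add (f g : Fn) : Rk (f + g) = Rk f + Rk g := by
  refine LinearMap.ext fun h => ?_
  rw [LinearMap.add_apply, Rk_apply, Rk_apply, Rk_apply, smul_add]

lemma Rk_sub (f g : Fn) : Rk (f - g) = Rk f - Rk g := by
  refine LinearMap.ext fun h => ?_
  rw [LinearMap.sub_apply, Rk_apply, Rk_apply, Rk_apply, smul_sub]

lemma Rk_zero : Rk 0 = 0 := by
  refine LinearMap.ext fun h => ?_
  rw [Rk_apply, smul_zero]; rfl

/-- embedding of sequences of functions -/
noncomputable def emb (g : ℕ → Fn) : RR := PowerSeries.mk fun n => Rk (g n)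

lemma coeff_emb (g : ℕ → Fn) (n : ℕ) : coeff n (emb g) = Rk (g n) := by
  rw [emb, coeff_mk]

lemma emb_add (f g : ℕ → Fn) : emb (fun n => f n + g n) = emb f + emb g := by
  refine PowerSeries.ext fun n => ?_
  rw [map_add, coeff_emb, coeff_emb, coeff_emb, Rk_add]

lemma val_mul_emb (T : RR) (g : ℕ → Fn) (n : ℕ) :
    (coeff n (T * emb g)) δ = ∑ p ∈ antidiagonal n, coeff p.1 T (g p.2) := by
  rw [coeff_mul, LinearMap.sum_apply]
  refine Finset.sum_congr rfl fun p _ => ?_
  rw [coeff_emb, mul_Rk, Rk_δ]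

noncomputable def πS : RR := C (Rk δ)

lemma e_eq (n u : ℕ) : e n u = Nop n one' u := by
  rw [e, Nop_apply]; simp [one']

lemma emb_e : emb e = NS * (aS * πS) := by
  refine PowerSeries.ext fun n => ?_
  rw [coeff_emb, aS, πS, ← map_mul, coeff_mul_C, NS, coeff_mk, mul_Rk, mul_Rk, aop_δ]
  congr 1
  funext u
  exact e_eq n u

/-- functions obtained from the state -/
def gg (ws : List ℕ) (w2 w : ℕ) : ℕ → Fn := fun l k => (PP ws).1 (w2+1) l (w+k)

/-- pop functions -/
def pd (ws : List ℕ) (w : ℕ) : ℕ → Fn := fun l => (PP ws).2 w l • δ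

lemma emb_cons (w2 : ℕ) (ws : List ℕ) (w : ℕ) :
    emb ((PP (w2 :: ws)).1 w) = NS * (aS * πS) + xS * (NS * emb (gg ws w2 w)) +
      xS * (NS * (aS * emb (pd ws w2))) := by
  rw [← emb_e]
  refine PowerSeries.ext fun n => ?_
  rw [map_add, map_add, coeff_emb, coeff_emb, xS]
  cases n with
  | zero =>
    have : (PP (w2 :: ws)).1 w 0 = e 0 := funext fun u => PP_cons_fst_zero w2 ws w u
    rw [this]; simp
  | succ n =>
    rw [coeff_succ_X_mul, coeff_succ_X_mul]
    have e1 : coeff n (NS * emb (gg ws w2 w)) =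
        Rk (∑ p ∈ antidiagonal n, Nop p.1 (gg ws w2 w p.2)) := by
      rw [coeff_mul]
      have : ∀ s : Finset (ℕ × ℕ), Rk (∑ p ∈ s, Nop p.1 (gg ws w2 w p.2)) =
          ∑ p ∈ s, Rk (Nop p.1 (gg ws w2 w p.2)) := by
        intro s
        induction s using Finset.induction_on with
        | empty => simp [Rk_zero]
        | insert a s ha ih => rw [Finset.sum_insert ha, Finset.sum_insert ha, Rk_add, ih]
      rw [this]
      refine Finset.sum_congr rfl fun p _ => ?_
      rw [NS, coeff_mk, coeff_emb, mul_Rk]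
    have e2 : coeff n (NS * (aS * emb (pd ws w2))) =
        Rk (∑ p ∈ antidiagonal n, Nop p.1 (aop (pd ws w2 p.2))) := by
      rw [coeff_mul]
      have : ∀ s : Finset (ℕ × ℕ), Rk (∑ p ∈ s, Nop p.1 (aop (pd ws w2 p.2))) =
          ∑ p ∈ s, Rk (Nop p.1 (aop (pd ws w2 p.2))) := by
        intro s
        induction s using Finset.induction_on with
        | empty => simp [Rk_zero]
        | insert a s ha ih => rw [Finset.sum_insert ha, Finset.sum_insert ha, Rk_add, ih]
      rw [this]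
      refine Finset.sum_congr rfl fun p _ => ?_
      rw [NS, coeff_mk, aS, coeff_C_mul, coeff_emb, mul_Rk, mul_Rk]
    rw [e1, e2, ← Rk_add, ← Rk_add]
    congr 1
    funext u
    rw [PP_cons_fst_succ, Pi.add_apply, Pi.add_apply, Finset.sum_apply, Finset.sum_apply, add_assoc,
      ← Finset.sum_add_distrib]
    congr 1
    refine Finset.sum_congr rfl fun p _ => ?_
    congr 1
    rw [pd, map_smul, map_smul, aop_δ, Pi.smul_apply, ← e_eq, smul_eq_mul, mul_comm]

lemma bS_gg (ws : List ℕ) (w2 w : ℕ) :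
    bS * emb (gg ws w2 (w+1)) = emb (gg ws w2 w) - emb (fun l => (gg ws w2 w l 0) • δ) := by
  refine PowerSeries.ext fun n => ?_
  rw [map_sub, bS, coeff_C_mul, coeff_emb, coeff_emb, coeff_emb, mul_Rk, ← Rk_sub]
  congr 1
  funext u
  cases u with
  | zero => rw [bop_zero]; simp [δ]
  | succ u =>
    rw [bop_succ]
    simp only [gg, Pi.sub_apply, Pi.smul_apply, δ, smul_eq_mul]
    rw [if_neg (by omega), mul_zero, sub_zero, show w + 1 + u = w + (u + 1) by omega]

/-- the transfer identity -/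
lemma star (ws : List ℕ) (w : ℕ) :
    emb ((PP ws).1 w) = NS * πS + MS * emb ((PP ws).1 (w+1)) + xS * (NS * emb (pd ws w)) := by
  have hba : bS * aS = aS - 1 := by
    have := dataS.h1'
    rw [sub_mul, one_mul, sub_eq_iff_eq_add] at this
    exact eq_sub_of_add_eq (by rw [add_comm]; exact this.symm)
  have hMN := hMN'
  cases ws with
  | nil =>
    have e0 : emb ((PP []).1 w) = emb e := rfl
    have e1 : emb ((PP []).1 (w+1)) = emb e := rfl
    have e2 : emb (pd [] w) = 0 := by
      refine PowerSeries.ext fun n => ?_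
      rw [coeff_emb, pd, PP_nil_snd, zero_smul, Rk_zero, map_zero]
    rw [e0, e1, e2, emb_e]
    have e3 : MS * (NS * (aS * πS)) = NS * (aS * πS) - NS * πS := by
      calc MS * (NS * (aS * πS)) = (MS * NS) * (aS * πS) := by noncomm_ring
        _ = NS * (bS * aS) * πS := by rw [hMN]; noncomm_ring
        _ = _ := by rw [hba]; noncomm_ring
    rw [e3]; noncomm_ring
  | cons w2 ws =>
    rw [emb_cons, emb_cons]
    have e2 : emb (pd (w2 :: ws) w) = emb (fun l => (gg ws w2 w l 0) • δ) + emb (pd ws w2) := by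
      rw [← emb_add]
      congr 1
      funext l
      rw [pd, PP_cons_snd, add_smul, pd, gg, add_zero]
    rw [e2]
    have hb := bS_gg ws w2 w
    set G' := emb (gg ws w2 (w+1))
    set G := emb (gg ws w2 w)
    set G0 := emb (fun l => (gg ws w2 w l 0) • δ)
    set q := emb (pd ws w2)
    have hxM : ∀ y : RR, MS * (xS * y) = xS * (MS * y) := by
      intro y; rw [← mul_assoc, ← xcomm MS, mul_assoc]
    have e3 : ∀ y : RR, MS * (NS * (aS * y)) = NS * (aS * y) - NS * y := by
      intro y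
      calc MS * (NS * (aS * y)) = (MS * NS) * (aS * y) := by noncomm_ring
        _ = NS * (bS * aS) * y := by rw [hMN]; noncomm_ring
        _ = _ := by rw [hba]; noncomm_ring
    have e4 : MS * (NS * G') = NS * G - NS * G0 := by
      rw [← mul_assoc, hMN, mul_assoc, hb, mul_sub]
    rw [mul_add, mul_add, hxM, hxM, e3, e3, e4]
    noncomm_ring

lemma e_zero (u : ℕ) : e 0 u = 1 := by
  rw [e]; simp [c_zero]

lemma PP_zero (ws : List ℕ) (w u : ℕ) : (PP ws).1 w 0 u = 1 := by
  cases ws with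
  | nil => rw [PP_nil_fst, e_zero]
  | cons w2 ws => rw [PP_cons_fst_zero, e_zero]

lemma sum_e (n u : ℕ) : ∑ j ∈ Finset.range (u+1), e n (u-j) = c (n+1) 0 u := by
  rw [c_succ_zero, ← Finset.sum_range_reflect]
  refine Finset.sum_congr rfl fun i hi => ?_
  have := Finset.mem_range.1 hi
  rw [show u - (u + 1 - 1 - i) = i by omega, e]

lemma Nop_smul_δ (m : ℕ) (t : ℤ) (u : ℕ) : Nop m (t • δ) u = c m 0 u * t := by
  rw [map_smul, Pi.smul_apply, Nop_δ, smul_eq_mul, mul_comm]

/-- the machine recursion for the closed form -/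
lemma PP_rec (ws : List ℕ) (w n u : ℕ) :
    (PP ws).1 w (n+1) u = (PP ws).1 (w+1) n u + (PP ws).2 w n +
      ∑ j ∈ Finset.range (u+1), (PP (w::ws)).1 (1+j) n (u-j) := by
  have h := congrArg (fun T => (coeff (n+1) T) δ u) (star ws w)
  beta_reduce at h
  rw [map_add, map_add, coeff_emb, Rk_δ, LinearMap.add_apply, LinearMap.add_apply, Pi.add_apply,
    Pi.add_apply, coeff_succ_MS_mul, LinearMap.add_apply, Pi.add_apply, coeff_emb, Rk_δ, xS,
    coeff_succ_X_mul, val_mul_emb] at h
  have h1 : (coeff (n+1) (NS * πS)) δ u = c (n+1) 0 u := by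
    rw [πS, coeff_mul_C, NS, coeff_mk, Module.End.mul_apply, Rk_δ, Nop_δ]
  rw [h1] at h
  rw [h, ← sum_e, Finset.sum_apply]
  have h2 : ∀ p : ℕ × ℕ, (coeff p.1 NS) (pd ws w p.2) u = c p.1 0 u * (PP ws).2 w p.2 := by
    intro p
    rw [NS, coeff_mk, pd, Nop_smul_δ]
  simp only [h2]
  cases n with
  | zero =>
    simp only [PP_cons_fst_zero]
    simp [c_zero]
    ring
  | succ n =>
    simp only [PP_cons_fst_succ]
    rw [coeff_succ_X_mul, val_mul_emb, Finset.Nat.sum_antidiagonal_succ, Finset.sum_apply]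
    simp only [TS, coeff_mk, c_zero, if_true, one_mul]
    rw [Finset.sum_add_distrib]
    have e1 : ∑ j ∈ Finset.range (u+1), ∑ p ∈ antidiagonal n,
        (Nop p.1 (fun k => (PP ws).1 (w+1) p.2 (1+j+k)) (u-j) + e p.1 (u-j) * (PP ws).2 w p.2) =
        ∑ p ∈ antidiagonal n, Top p.1 ((PP ws).1 (w+1) p.2) u +
        ∑ p ∈ antidiagonal n, c (p.1+1) 0 u * (PP ws).2 w p.2 := by
      rw [Finset.sum_comm, ← Finset.sum_add_distrib]
      refine Finset.sum_congr rfl fun p _ => ?_
      rw [Finset.sum_add_distrib, ← Finset.sum_mul, sum_e, Top_apply]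
      rfl
    rw [e1]
    ring

theorem d_eq (n : ℕ) : ∀ u w ws, (d n u w ws : ℤ) = (PP ws).1 w n u := by
  induction n with
  | zero =>
    intro u w ws
    rw [PP_zero, d]; rfl
  | succ n ih =>
    have hp : ∀ ws v, (popf (d n) v ws : ℤ) = (PP ws).2 v n := by
      intro ws
      induction ws with
      | nil => intro v; rw [PP_nil_snd, popf]; rfl
      | cons w ws ih2 => intro v; rw [PP_cons_snd, popf, Nat.cast_add, ih, ih2]
    intro u w ws
    rw [PP_rec, d, Nat.cast_add, Nat.cast_add, Nat.cast_sum, ih, hp]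
    simp only [ih]

/-- the two trees have the same number of nodes on every level -/
theorem core (n : ℕ) : a n 0 1 = d n 0 1 [] := by
  have h : (a n 0 1 : ℤ) = (d n 0 1 [] : ℤ) := by
    rw [ascent_total, d_eq, PP_nil_fst]
  exact_mod_cast h

end Pool.Agent.H207R3.Asc
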