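import Pool.Agent.H207R3.AscEv

/-!
The concrete operators.
-/

set_option autoImplicit false

namespace Pool.Agent.H207R3.Asc

open PowerSeries

/-- the structure constants -/
def c : ℕ → ℕ → ℕ → ℤ
  | 0, j, _ => if j = 0 then 1 else 0
  | n+1, 0, u => ∑ i ∈ Finset.range (u+1), ∑ k ∈ Finset.range (n+1), c n k i
  | n+1, j+1, u => c n j u + ∑ m : Fin n, ∑ i ∈ Finset.range (u+1),
      ∑ k ∈ Finset.range (m.1+1), c m.1 k (u-i) * c (n-1-m.1) j (1+i+k)
termination_by n => n
decreasing_by all_goals omega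

lemma c_zero (j u : ℕ) : c 0 j u = if j = 0 then 1 else 0 := by rw [c]

lemma c_succ_zero (n u : ℕ) :
    c (n+1) 0 u = ∑ i ∈ Finset.range (u+1), ∑ k ∈ Finset.range (n+1), c n k i := by rw [c]

lemma c_succ_succ (n j u : ℕ) :
    c (n+1) (j+1) u = c n j u + ∑ m ∈ Finset.range n, ∑ i ∈ Finset.range (u+1),
      ∑ k ∈ Finset.range (m+1), c m k (u-i) * c (n-1-m) j (1+i+k) := by
  rw [c, Finset.sum_range (fun m => ∑ i ∈ Finset.range (u+1),
      ∑ k ∈ Finset.range (m+1), c m k (u-i) * c (n-1-m) j (1+i+k))]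

lemma c_vanish (n : ℕ) : ∀ j u, n < j → c n j u = 0 := by
  induction n using Nat.strong_induction_on with
  | _ n ih =>
    intro j u hj
    match n, j with
    | 0, j => rw [c_zero, if_neg (by omega)]
    | n+1, j+1 =>
      rw [c_succ_succ, ih n (by omega) j u (by omega), zero_add]
      refine Finset.sum_eq_zero fun m hm => Finset.sum_eq_zero fun i _ =>
        Finset.sum_eq_zero fun k _ => ?_
      rw [ih (n-1-m) (by omega) j _ (by omega), mul_zero]

abbrev Fn := ℕ → ℤ
abbrev Op := Module.End ℤ Fn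
abbrev RR := PowerSeries Op

/-- shift -/
def bop : Op where
  toFun f u := if u = 0 then 0 else f (u - 1)
  map_add' f g := by funext u; by_cases h : u = 0 <;> simp [h]
  map_smul' t f := by funext u; by_cases h : u = 0 <;> simp [h]

/-- partial sums -/
def aop : Op where
  toFun f u := ∑ j ∈ Finset.range (u+1), f j
  map_add' f g := by funext u; simp [Finset.sum_add_distrib]
  map_smul' t f := by funext u; simp [Finset.mul_sum]

def Nop (n : ℕ) : Op where
  toFun f u := ∑ k ∈ Finset.range (n+1), c n k u * f k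
  map_add' f g := by funext u; simp [Finset.sum_add_distrib, mul_add]
  map_smul' t f := by
    funext u; simp only [Pi.smul_apply, smul_eq_mul, RingHom.id_apply, Finset.mul_sum]
    exact Finset.sum_congr rfl fun k _ => by ring

def Top (n : ℕ) : Op where
  toFun f u := ∑ i ∈ Finset.range (u+1), ∑ k ∈ Finset.range (n+1), c n k (u-i) * f (1+i+k)
  map_add' f g := by funext u; simp [Finset.sum_add_distrib, mul_add]
  map_smul' t f := by
    funext u; simp only [Pi.smul_apply, smul_eq_mul, RingHom.id_apply, Finset.mul_sum]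
    exact Finset.sum_congr rfl fun i _ => Finset.sum_congr rfl fun k _ => by ring

lemma bop_apply (f : Fn) (u : ℕ) : bop f u = if u = 0 then 0 else f (u - 1) := rfl
lemma bop_zero (f : Fn) : bop f 0 = 0 := rfl
lemma bop_succ (f : Fn) (u : ℕ) : bop f (u+1) = f u := rfl
lemma aop_apply (f : Fn) (u : ℕ) : aop f u = ∑ j ∈ Finset.range (u+1), f j := rfl
lemma Nop_apply (n : ℕ) (f : Fn) (u : ℕ) :
    Nop n f u = ∑ k ∈ Finset.range (n+1), c n k u * f k := rfl
lemma Top_apply (n : ℕ) (f : Fn) (u : ℕ) :
    Top n f u = ∑ i ∈ Finset.range (u+1), ∑ k ∈ Finset.range (n+1), c n k (u-i) * f (1+i+k) := rfl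

lemma Nop_apply_le (n K : ℕ) (h : n + 1 ≤ K) (f : Fn) (u : ℕ) :
    Nop n f u = ∑ k ∈ Finset.range K, c n k u * f k := by
  rw [Nop_apply]
  refine Finset.sum_subset (Finset.range_mono h) fun k _ hk => ?_
  rw [c_vanish n k u (by simpa using hk), zero_mul]

lemma aop_bop : aop * (1 - bop) = 1 := by
  refine LinearMap.ext fun f => funext fun u => ?_
  rw [Module.End.mul_apply, aop_apply, Module.End.one_apply, LinearMap.sub_apply,
    Module.End.one_apply]
  rw [Finset.sum_range_succ']
  simp only [Pi.sub_apply, bop_succ, bop_zero, sub_zero]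
  rw [Finset.sum_range_sub]; ring

lemma bop_aop : (1 - bop) * aop = 1 := by
  refine LinearMap.ext fun f => funext fun u => ?_
  rw [Module.End.mul_apply, LinearMap.sub_apply, Module.End.one_apply, Module.End.one_apply]
  cases u with
  | zero => simp [bop_zero, aop_apply]
  | succ u =>
    rw [Pi.sub_apply, bop_succ, aop_apply, aop_apply, Finset.sum_range_succ]; ring

/-- the vacuum -/
def δ : Fn := fun u => if u = 0 then 1 else 0

def one' : Fn := fun _ => 1

lemma aop_δ : aop δ = one' := by
  funext u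
  rw [aop_apply, Finset.sum_range_succ']
  simp [δ, one']

lemma bop_one : bop one' = one' - δ := by
  funext u
  cases u with
  | zero => simp [bop_zero, one', δ]
  | succ u => simp [bop_succ, one', δ]

lemma Nop_zero (f : Fn) (u : ℕ) : Nop 0 f u = f 0 := by
  rw [Nop_apply]; simp [c_zero]

/-- `N_{n+1} b = N_n + Σ T_i N_j` -/
lemma Nop_succ_bop (n : ℕ) (f : Fn) (u : ℕ) :
    Nop (n+1) (bop f) u = Nop n f u +
      ∑ m ∈ Finset.range n, Top m (Nop (n-1-m) f) u := by
  rw [Nop_apply, Finset.sum_range_succ']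
  simp only [bop_zero, mul_zero, add_zero, bop_succ, c_succ_succ, add_mul, Finset.sum_add_distrib]
  rw [Nop_apply, add_right_inj]
  simp only [Finset.sum_mul]
  rw [Finset.sum_comm]
  refine Finset.sum_congr rfl fun m hm => ?_
  have hm' := Finset.mem_range.1 hm
  rw [Top_apply, Finset.sum_comm]
  refine Finset.sum_congr rfl fun i _ => ?_
  rw [Finset.sum_comm]
  refine Finset.sum_congr rfl fun k _ => ?_
  rw [Nop_apply_le (n-1-m) (n+1) (by omega), Finset.mul_sum]
  exact Finset.sum_congr rfl fun j _ => by ring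

/-- `T_n b - b T_n = N_n` -/
lemma Top_bop (n : ℕ) (f : Fn) (u : ℕ) :
    Top n (bop f) u - bop (Top n f) u = Nop n f u := by
  rw [Top_apply, Finset.sum_range_succ']
  have e1 : ∑ k ∈ Finset.range (n+1), c n k (u-0) * bop f (1+0+k) = Nop n f u := by
    rw [Nop_apply]
    refine Finset.sum_congr rfl fun k _ => ?_
    rw [show 1 + 0 + k = k + 1 by omega, bop_succ, Nat.sub_zero]
  rw [e1]
  cases u with
  | zero => simp [bop_zero]
  | succ u =>
    rw [bop_succ, Top_apply]
    have e2 : ∀ i k : ℕ, c n k (u + 1 - (i + 1)) * bop f (1 + (i + 1) + k) =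
        c n k (u - i) * f (1 + i + k) := by
      intro i k
      rw [show 1 + (i + 1) + k = (1 + i + k) + 1 by omega, bop_succ, Nat.add_sub_add_right]
    simp only [e2]
    ring

lemma Top_δ (n : ℕ) (u : ℕ) : Top n δ u = 0 := by
  rw [Top_apply]
  refine Finset.sum_eq_zero fun i _ => Finset.sum_eq_zero fun k _ => ?_
  simp [δ]

lemma Nop_δ (n : ℕ) (u : ℕ) : Nop n δ u = c n 0 u := by
  rw [Nop_apply, Finset.sum_range_succ']
  simp [δ]

lemma Top_one (n : ℕ) (u : ℕ) : Top n one' u = c (n+1) 0 u := by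
  rw [Top_apply, c_succ_zero]
  simp only [one', mul_one]
  rw [← Finset.sum_range_reflect]
  refine Finset.sum_congr rfl fun i hi => ?_
  have := Finset.mem_range.1 hi
  rw [show u - (u + 1 - 1 - i) = i by omega]

lemma aop_Nop_one (n : ℕ) (u : ℕ) : aop (Nop n one') u = c (n+1) 0 u := by
  rw [aop_apply, c_succ_zero]
  simp only [Nop_apply, one', mul_one]

/-! ### The series -/

noncomputable def bS : RR := C bop
noncomputable def aS : RR := C aop
noncomputable def NS : RR := PowerSeries.mk Nop
noncomputable def TS : RR := PowerSeries.mk Top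
noncomputable def xS : RR := X
noncomputable def MS : RR := xS * (1 + xS * TS)
noncomputable def βS : RR := invOfUnit (1 - MS) 1
noncomputable def ρS : RR := invOfUnit (1 - xS * (βS * aS)) 1

lemma MS_const : constantCoeff MS = 0 := by
  rw [MS, xS]; simp

/-- the left ideal annihilating the vacuum -/
def IS : Ideal RR where
  carrier := {T | ∀ n, (coeff n T) δ = 0}
  add_mem' := by
    intro S T hS hT n
    rw [map_add, LinearMap.add_apply, hS n, hT n, add_zero]
  zero_mem' := by
    intro n
    rw [map_zero, LinearMap.zero_apply]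
  smul_mem' := by
    intro S T hT n
    rw [smul_eq_mul, coeff_mul, LinearMap.sum_apply]
    refine Finset.sum_eq_zero fun p _ => ?_
    rw [Module.End.mul_apply, hT, map_zero]

lemma mem_IS (T : RR) : T ∈ IS ↔ ∀ n, (coeff n T) δ = 0 := Iff.rfl

lemma coeff_MS_zero : coeff 0 MS = 0 := by
  rw [MS, xS]; simp

lemma coeff_MS_one : coeff 1 MS = 1 := by
  rw [MS, xS, coeff_succ_X_mul]; simp

lemma coeff_MS_succ (n : ℕ) : coeff (n+2) MS = Top n := by
  rw [MS, xS, coeff_succ_X_mul, map_add, coeff_succ_X_mul, coeff_one, if_neg (by omega), TS,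
    coeff_mk, zero_add]

lemma sum_range_antidiag {M : Type*} [AddCommMonoid M] (f : ℕ → ℕ → M) (n : ℕ) :
    ∑ p ∈ Finset.HasAntidiagonal.antidiagonal n, f p.1 p.2 = ∑ m ∈ Finset.range (n+1), f m (n - m) :=
  Finset.Nat.sum_antidiagonal_eq_sum_range_succ f n

lemma xcomm (y : RR) : xS * y = y * xS := by
  rw [xS]; exact (PowerSeries.commute_X y).symm.eq

lemma coeff_succ_MS_mul (n : ℕ) (T : RR) :
    coeff (n+1) (MS * T) = coeff n T + coeff n (xS * (TS * T)) := by
  rw [MS, mul_assoc, xS, coeff_succ_X_mul, add_mul, one_mul, map_add, mul_assoc]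

lemma hMN' : MS * NS = NS * bS := by
  refine PowerSeries.ext fun n => ?_
  cases n with
  | zero =>
    rw [coeff_zero_eq_constantCoeff_apply, map_mul, MS_const, zero_mul, bS, coeff_mul_C, NS,
      coeff_mk]
    refine LinearMap.ext fun f => funext fun u => ?_
    rw [Module.End.mul_apply, Nop_zero, bop_zero]; rfl
  | succ n =>
    rw [coeff_succ_MS_mul, bS, coeff_mul_C, NS, coeff_mk, coeff_mk]
    refine LinearMap.ext fun f => funext fun u => ?_
    rw [Module.End.mul_apply, Nop_succ_bop, LinearMap.add_apply, Pi.add_apply, add_right_inj]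
    cases n with
    | zero => simp [xS]
    | succ n =>
      rw [xS, coeff_succ_X_mul, coeff_mul, LinearMap.sum_apply, Finset.sum_apply]
      rw [sum_range_antidiag (fun i j => ((coeff i TS * coeff j (PowerSeries.mk Nop)) f) u)]
      refine Finset.sum_congr rfl fun m _ => ?_
      rw [TS, coeff_mk, coeff_mk, Module.End.mul_apply, Nat.add_sub_cancel]

lemma hMb' : MS * bS - bS * MS = xS * xS * NS := by
  have e1 : MS * bS - bS * MS = xS * xS * (TS * bS - bS * TS) := by
    have h1 : bS * xS = xS * bS := (xcomm _).symm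
    have h2 : bS * (xS * (xS * TS)) = xS * (xS * (bS * TS)) := by
      rw [← mul_assoc, h1, mul_assoc, ← mul_assoc bS, h1, mul_assoc]
    rw [MS, mul_add xS, mul_add bS, add_mul, h2]
    rw [mul_one, h1]
    noncomm_ring
  rw [e1]
  congr 1
  refine PowerSeries.ext fun n => ?_
  rw [map_sub, bS, coeff_mul_C, coeff_C_mul, TS, NS, coeff_mk, coeff_mk]
  refine LinearMap.ext fun f => funext fun u => ?_
  rw [← Top_bop]; rfl

lemma hM1' : MS - xS ∈ IS := by
  rw [mem_IS]
  intro n
  have e : MS - xS = xS * (xS * TS) := by rw [MS]; noncomm_ring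
  rw [e, xS]
  match n with
  | 0 => simp
  | 1 => rw [coeff_succ_X_mul]; simp
  | n+2 =>
    rw [coeff_succ_X_mul, coeff_succ_X_mul, TS, coeff_mk]
    funext u; rw [Top_δ]; rfl

lemma hMα' : MS * aS - xS * NS ∈ IS := by
  rw [mem_IS]
  intro n
  have e : MS * aS - xS * NS = xS * (aS + xS * (TS * aS) - NS) := by rw [MS]; noncomm_ring
  rw [e, xS]
  match n with
  | 0 => simp
  | 1 =>
    rw [coeff_succ_X_mul, map_sub, map_add, aS, NS, coeff_mk]
    simp only [coeff_zero_X_mul, coeff_zero_C, add_zero]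
    rw [LinearMap.sub_apply, aop_δ]
    funext u
    rw [Pi.sub_apply, Nop_δ, c_zero]; simp [one']
  | n+2 =>
    rw [coeff_succ_X_mul, map_sub, map_add, coeff_succ_X_mul, aS, coeff_mul_C, coeff_C,
      if_neg (by omega), TS, NS, coeff_mk, coeff_mk, zero_add, LinearMap.sub_apply,
      Module.End.mul_apply, aop_δ]
    funext u
    rw [Pi.sub_apply, Top_one, Nop_δ, sub_self]; rfl

lemma hα5' : aS * (1 + xS * NS * aS) - NS ∈ IS := by
  rw [mem_IS]
  intro n
  have e : aS * (1 + xS * NS * aS) - NS = aS + xS * (aS * (NS * aS)) - NS := by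
    rw [mul_add, mul_one, mul_assoc xS, ← mul_assoc aS xS, ← xcomm aS, mul_assoc]
  rw [e, xS]
  cases n with
  | zero =>
    rw [map_sub, map_add, aS, NS, coeff_mk]
    simp only [coeff_zero_X_mul, coeff_zero_C, add_zero]
    rw [LinearMap.sub_apply, aop_δ]
    funext u
    rw [Pi.sub_apply, Nop_δ, c_zero]; simp [one']
  | succ n =>
    rw [map_sub, map_add, coeff_succ_X_mul, aS, coeff_C_mul, coeff_mul_C, coeff_C,
      if_neg (by omega), NS, coeff_mk, coeff_mk, zero_add, LinearMap.sub_apply,
      Module.End.mul_apply, Module.End.mul_apply, aop_δ]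
    funext u
    rw [Pi.sub_apply, aop_Nop_one, Nop_δ, sub_self]; rfl

lemma dataS : Data xS bS MS NS aS βS ρS IS where
  hx := xcomm
  h1 := by
    rw [aS, bS, ← map_one C, ← map_sub, ← map_mul, aop_bop]
  h1' := by
    rw [aS, bS, ← map_one C, ← map_sub, ← map_mul, bop_aop]
  h2 := by
    rw [βS]; exact invOfUnit_mul _ _ (by rw [map_sub, MS_const]; simp)
  h2' := by
    rw [βS]; exact mul_invOfUnit _ _ (by rw [map_sub, MS_const]; simp)
  hMN := hMN'
  hMb := hMb'
  hM1 := hM1'
  hMα := hMα'
  hα5 := hα5'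
  hρ := by
    rw [ρS]; exact invOfUnit_mul _ _ (by rw [map_sub, map_mul, xS]; simp)
  hρ' := by
    rw [ρS]; exact mul_invOfUnit _ _ (by rw [map_sub, map_mul, xS]; simp)

/-- the vacuum functional -/
noncomputable def evS : RR →+ PowerSeries ℤ where
  toFun T := PowerSeries.mk fun n => (coeff n T) δ 0
  map_zero' := by
    refine PowerSeries.ext fun n => ?_
    rw [coeff_mk]; simp
  map_add' S T := by
    refine PowerSeries.ext fun n => ?_
    rw [map_add, coeff_mk, coeff_mk, coeff_mk, map_add]; rfl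

lemma coeff_evS (T : RR) (n : ℕ) : coeff n (evS T) = (coeff n T) δ 0 := by
  change coeff n (PowerSeries.mk fun n => (coeff n T) δ 0) = _
  rw [coeff_mk]

lemma vacS : Vac xS bS IS evS where
  hX := by
    intro T
    refine PowerSeries.ext fun n => ?_
    rw [coeff_evS, xS]
    cases n with
    | zero => simp
    | succ n => rw [coeff_succ_X_mul, coeff_succ_X_mul, coeff_evS]
  hb := by
    intro T
    refine PowerSeries.ext fun n => ?_
    rw [coeff_evS, bS, coeff_C_mul, Module.End.mul_apply, bop_zero]; simp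
  hI := by
    intro T hT
    refine PowerSeries.ext fun n => ?_
    rw [coeff_evS, (mem_IS T).1 hT n]; simp
  h1 := by
    refine PowerSeries.ext fun n => ?_
    rw [coeff_evS, coeff_one, coeff_one]
    by_cases h : n = 0
    · simp [h, δ]
    · simp [h]

/-- the total function -/
def e (n u : ℕ) : ℤ := ∑ k ∈ Finset.range (n+1), c n k u

theorem ascent_total (n : ℕ) : (a n 0 1 : ℤ) = e n 0 := by
  rw [← vacS.final dataS n, coeff_evS, aS, coeff_mul_C, NS, coeff_mk, Module.End.mul_apply, aop_δ,
    Nop_apply]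
  simp [one', e]

end Pool.Agent.H207R3.Asc
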