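import Pool.Agent.H207R3.DumCfg

/-!
The 2143 side for MP_911b3a_co.
-/

set_option autoImplicit false

namespace Pool.Agent.H207R3.Dum

/-- no 2143 in the word with slots -/
def Av (m : ℕ) (c : Cf) : Prop :=
  ∀ x y z w, [x,y,z,w].Sublist (ex m c) → y < x → x < w → w < z → False

/-- the part `A` followed by a possible slot has no slot after an inversion -/
def Nis (m : ℕ) (s : Bool) (A : Cf) : Prop :=
  ∀ x y, [x,y,m+1].Sublist (ex (m+1) A ++ (if s then [m+1] else [])) → y < x → x < m → False

lemma not_mem_ex {m : ℕ} {c : Cf} (h : ∀ v ∈ lets c, v < m) : m ∉ ex (m+1) c := by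
  intro hm
  rcases mem_ex hm with h1 | h1
  · omega
  · exact absurd (h m h1) (lt_irrefl _)

lemma Av.child {m : ℕ} {s g : Bool} {a : ℕ} {A B : Cf}
    (hlt : ∀ v ∈ lets (A ++ (true,a)::B), v < m) (h : Av m (A ++ (true,a)::B))
    (hn : Nis m s A) : Av (m+1) (A ++ (s,m)::(g,a)::B) := by
  intro x y z w hs h1 h2 h3
  have hl0 : lets (A ++ (true,a)::B) = lets A ++ a :: lets B := by
    rw [lets_append, lets_cons]
  have hA : ∀ v ∈ lets A, v < m := fun v hv => hlt v (by rw [hl0]; simp [hv])
  have ha : a < m := hlt a (by rw [hl0]; simp)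
  have hB : ∀ v ∈ lets B, v < m := fun v hv => hlt v (by rw [hl0]; simp [hv])
  have hex : ex (m+1) (A ++ (s,m)::(g,a)::B) = (ex (m+1) A ++ (if s then [m+1] else [])) ++
      m :: ((if g then [m+1] else []) ++ a :: ex (m+1) B) := by
    rw [ex_append, ex, ex, List.append_assoc]
  rw [hex] at hs
  have hz : z ≤ m + 1 := by
    have hz : z ∈ (ex (m+1) A ++ (if s then [m+1] else [])) ++
      m :: ((if g then [m+1] else []) ++ a :: ex (m+1) B) := hs.subset (by simp)
    simp only [List.mem_append, List.mem_cons] at hz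
    rcases hz with (hz | hz) | hz | hz | hz | hz
    · rcases mem_ex hz with hz | hz
      · omega
      · have := hA z hz; omega
    · cases s <;> simp at hz; omega
    · omega
    · cases g <;> simp at hz; omega
    · omega
    · rcases mem_ex hz with hz | hz
      · omega
      · have := hB z hz; omega
  rcases Nat.lt_or_ge w m with hw | hw
  · -- w < m
    have hs2 := hs.map (fun v => min v m)
    have e1 : ((ex (m+1) A ++ (if s then [m+1] else [])) ++
        m :: ((if g then [m+1] else []) ++ a :: ex (m+1) B)).map (fun v => min v m) =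
        ex m A ++ (List.replicate (s.toNat + 1 + g.toNat) m ++ (a :: ex m B)) := by
      rw [List.map_append, List.map_append, ex_map_min hA, List.map_cons, List.map_append,
        List.map_cons, ex_map_min hB, min_eq_left ha.le, min_self]
      cases s <;> cases g <;> simp [List.replicate]
    rw [e1] at hs2
    simp only [List.map_cons, List.map_nil] at hs2
    rw [min_eq_left (by omega : x ≤ m), min_eq_left (by omega : y ≤ m),
      min_eq_left (by omega : w ≤ m)] at hs2
    have hnd : ([x, y, min z m, w] : List ℕ).Nodup := by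
      simp only [List.nodup_cons, List.mem_cons, List.not_mem_nil, or_false, not_or,
        List.nodup_nil, not_false_eq_true, and_true]
      omega
    have hs3 := squeeze hnd hs2
    have e2 : ex m (A ++ (true,a)::B) = ex m A ++ m :: (a :: ex m B) := by
      rw [ex_append, ex]; simp
    rw [← e2] at hs3
    exact h x y (min z m) w hs3 h1 h2 (by omega)
  · have hwm : w = m := by omega
    have hzm : z = m + 1 := by omega
    subst hwm
    subst hzm
    refine hn x y ?_ h1 h2
    refine strip2 (L := [x, y, w+1]) (v := w) (V := (if g then [w+1] else []) ++ a :: ex (w+1) B) hs ?_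
    intro hm
    rw [List.mem_append, List.mem_cons] at hm
    rcases hm with hm | hm | hm
    · cases g <;> simp at hm
    · omega
    · exact not_mem_ex hB hm

lemma Av.endChild {m : ℕ} {s : Bool} {A : Cf}
    (hA : ∀ v ∈ lets A, v < m) (h : Av m A)
    (hn : Nis m s A) : Av (m+1) (A ++ [(s,m)]) := by
  intro x y z w hs h1 h2 h3
  have hex : ex (m+1) (A ++ [(s,m)]) = (ex (m+1) A ++ (if s then [m+1] else [])) ++ m :: [] := by
    rw [ex_append, ex, ex, List.append_assoc]
  rw [hex] at hs
  have hz : z ≤ m + 1 := by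
    have hz : z ∈ (ex (m+1) A ++ (if s then [m+1] else [])) ++ m :: [] := hs.subset (by simp)
    simp only [List.mem_append, List.mem_cons, List.not_mem_nil, or_false] at hz
    rcases hz with (hz | hz) | hz
    · rcases mem_ex hz with hz | hz
      · omega
      · have := hA z hz; omega
    · cases s <;> simp at hz; omega
    · omega
  rcases Nat.lt_or_ge w m with hw | hw
  · rw [List.append_assoc] at hs
    have hs2 : [x,y,z,w].Sublist (ex (m+1) A) := by
      refine strip (L := [x,y,z]) (v := w) (V := (if s then [m+1] else []) ++ m :: []) hs ?_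
      intro hm
      rw [List.mem_append] at hm
      rcases hm with hm | hm
      · cases s <;> simp at hm; omega
      · simp at hm; omega
    have hs3 := hs2.map (fun v => min v m)
    rw [ex_map_min hA] at hs3
    simp only [List.map_cons, List.map_nil] at hs3
    rw [min_eq_left (by omega : x ≤ m), min_eq_left (by omega : y ≤ m),
      min_eq_left (by omega : w ≤ m)] at hs3
    exact h x y (min z m) w hs3 h1 h2 (by omega)
  · have hwm : w = m := by omega
    have hzm : z = m + 1 := by omega
    subst hwm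
    subst hzm
    refine hn x y ?_ h1 h2
    exact strip2 (L := [x, y, w+1]) (v := w) (V := []) hs (by simp)

lemma sub_inc {l : List ℕ} (h : l.Pairwise (· < ·)) {x y : ℕ} (hs : [x,y].Sublist l) : x < y := by
  have := h.sublist hs
  simpa using this

/-- increasing prefix -/
lemma Nis.of_inc {m : ℕ} {s : Bool} {A : Cf} (h : (lets A).Pairwise (· < ·)) : Nis m s A := by
  intro x y hs h1 h2
  have hs1 : [x,y].Sublist (ex (m+1) A ++ (if s then [m+1] else [])) :=
    (List.sublist_append_left [x,y] [m+1]).trans hs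
  have hs2 := hs1.filter (fun v => decide (v ≠ m+1))
  have e1 : ([x,y] : List ℕ).filter (fun v => decide (v ≠ m+1)) = [x,y] := by
    rw [List.filter_eq_self.2]
    intro v hv
    simp at hv
    simp
    omega
  have e2 : (if s = true then [m+1] else []).filter (fun v => decide (v ≠ m+1)) = [] := by
    cases s <;> simp
  rw [e1, List.filter_append, e2, List.append_nil] at hs2
  have := sub_inc h (hs2.trans (ex_filter (m+1) A))
  omega

lemma Nis.of_tr {m : ℕ} {X Y : Cf} {bP : Bool} {P : ℕ} (h : (lets X).Pairwise (· < ·))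
    (hlt : ∀ v ∈ lets (X ++ (bP,P)::Y), v < m)
    (ht : tr Y = 0) : Nis m false (X ++ (bP,P)::Y) := by
  intro x y hs h1 h2
  have hl0 : lets (X ++ (bP,P)::Y) = lets X ++ P :: lets Y := by
    rw [lets_append, lets_cons]
  have e1 : ex (m+1) (X ++ (bP,P)::Y) ++ (if false = true then [m+1] else []) =
      (ex (m+1) X ++ (if bP then [m+1] else [])) ++ (P :: lets Y) := by
    rw [ex_append, ex, ex_of_tr (m+1) Y ht]; simp
  rw [e1] at hs
  have hs2 : [x,y,m+1].Sublist (ex (m+1) X ++ (if bP then [m+1] else [])) := by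
    refine strip (L := [x,y]) (v := m+1) (V := P :: lets Y) hs ?_
    intro hm
    rw [List.mem_cons] at hm
    have hm2 : m + 1 ∈ lets (X ++ (bP,P)::Y) := by
      rw [hl0]; simp only [List.mem_append, List.mem_cons]; tauto
    have := hlt _ hm2
    omega
  exact Nis.of_inc (s := bP) h x y hs2 h1 h2

/-- good configurations -/
structure Good (m : ℕ) (X : Cf) (bP : Bool) (P : ℕ) (Y : Cf) : Prop where
  sv : Sv m (X ++ (bP,P)::Y)
  av : Av m (X ++ (bP,P)::Y)
  inc : (lets X).Pairwise (· < ·)
  wit : ∃ x ∈ lets X, P < x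

lemma goodL {m : ℕ} {X1 B : Cf} {a : ℕ} (s : Bool) (hs : Sv m (X1 ++ (true,a)::B))
    (ha : Av m (X1 ++ (true,a)::B)) (hi : (lets X1).Pairwise (· < ·)) :
    Good (m+1) (X1 ++ [(s,m)]) (decide (Even m)) a B := by
  have hlt : ∀ v ∈ lets (X1 ++ (true,a)::B), v < m := fun v hv => (hs.mem v).1 hv
  have e : (X1 ++ [(s,m)]) ++ (decide (Even m),a)::B = X1 ++ (s,m)::(decide (Even m),a)::B := by
    simp
  refine ⟨?_, ?_, ?_, ?_⟩
  · rw [e]; exact hs.child s
  · rw [e]; exact ha.child hlt (Nis.of_inc hi)
  · rw [lets_append, lets_cons, lets_nil, List.pairwise_append]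
    refine ⟨hi, by simp, ?_⟩
    intro x hx y hy
    simp at hy
    subst hy
    refine hlt x ?_
    rw [lets_append]; simp [hx]
  · refine ⟨m, by rw [lets_append, lets_cons]; simp, hlt a ?_⟩
    rw [lets_append, lets_cons]; simp

lemma goodY {m : ℕ} {X Y1 B : Cf} {bP : Bool} {P a : ℕ} (h : Good m X bP P (Y1 ++ (true,a)::B))
    (ht : tr Y1 = 0) : Good (m+1) X bP P (Y1 ++ (false,m)::(decide (Even m),a)::B) := by
  have e : X ++ (bP,P)::(Y1 ++ (true,a)::B) = (X ++ (bP,P)::Y1) ++ (true,a)::B := by simp
  have e2 : X ++ (bP,P)::(Y1 ++ (false,m)::(decide (Even m),a)::B) =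
      (X ++ (bP,P)::Y1) ++ (false,m)::(decide (Even m),a)::B := by simp
  have hs := h.sv
  have ha := h.av
  rw [e] at hs ha
  have hlt : ∀ v ∈ lets ((X ++ (bP,P)::Y1) ++ (true,a)::B), v < m := fun v hv => (hs.mem v).1 hv
  refine ⟨?_, ?_, h.inc, h.wit⟩
  · rw [e2]; exact hs.child false
  · rw [e2]
    refine ha.child hlt (Nis.of_tr h.inc ?_ ht)
    intro v hv
    refine hlt v ?_
    rw [lets_append]; simp [hv]

lemma goodEnd {m : ℕ} {X Y : Cf} {bP : Bool} {P : ℕ} (h : Good m X bP P Y)
    (ht : tr Y = 0) (hm : Even m) : Good (m+1) X bP P (Y ++ [(false,m)]) := by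
  have e2 : X ++ (bP,P)::(Y ++ [(false,m)]) = (X ++ (bP,P)::Y) ++ [(false,m)] := by simp
  have hlt : ∀ v ∈ lets (X ++ (bP,P)::Y), v < m := fun v hv => (h.sv.mem v).1 hv
  refine ⟨?_, ?_, h.inc, h.wit⟩
  · rw [e2]; exact h.sv.endChild false hm
  · rw [e2]
    exact h.av.endChild hlt (Nis.of_tr h.inc hlt ht)

/-! ### evaluation of the sum over the children -/

lemma not_av_of {m : ℕ} {x y : ℕ} {c : Cf} (h : [x,y,m+1,m].Sublist (ex (m+1) c)) (h1 : y < x)
    (h2 : x < m) : ¬ Av (m+1) c := fun ha => ha x y (m+1) m h h1 h2 (by omega)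

lemma ch_dead {m : ℕ} {g : Bool} {f : Cf → ℕ} (hd : ∀ c, ¬ Av (m+1) c → f c = 0) {x y : ℕ}
    (h1 : y < x) (h2 : x < m) (B : Cf) : ∀ A : Cf, [x,y,m+1].Sublist (ex (m+1) A) →
    ch m g f A B = 0 := by
  induction B with
  | nil =>
    intro A hA
    have h3 : ∀ s, f (A ++ [(s,m)]) = 0 := by
      intro s
      refine hd _ (not_av_of (x := x) (y := y) ?_ h1 h2)
      rw [ex_append, ex, ex]
      have : ([x,y,m+1] ++ [m]).Sublist (ex (m+1) A ++ ((if s = true then [m+1] else []) ++ [m])) :=
        hA.append (List.sublist_append_right _ _)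
      exact this
    rw [ch, h3, h3]; simp
  | cons z B ih =>
    intro A hA
    obtain ⟨b, a⟩ := z
    have h3 : ∀ s, f (A ++ (s,m)::(g,a)::B) = 0 := by
      intro s
      refine hd _ (not_av_of (x := x) (y := y) ?_ h1 h2)
      rw [ex_append, ex]
      have : ([x,y,m+1] ++ [m]).Sublist (ex (m+1) A ++ ((if s = true then [m+1] else []) ++
          m :: ex (m+1) ((g,a)::B))) := by
        refine hA.append ?_
        refine List.Sublist.trans ?_ (List.sublist_append_right _ _)
        simp
      exact this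
    rw [ch, h3, h3, ih (A ++ [(b,a)])]
    · simp
    · rw [ex_append]
      exact hA.trans (List.sublist_append_left _ _)

lemma mem_lets_sub {m x : ℕ} {X : Cf} (h : x ∈ lets X) : [x].Sublist (ex m X) :=
  (List.singleton_sublist.2 h).trans (lets_sub_ex m X)

lemma sub_slot {m x P : ℕ} {X Y : Cf} {bP : Bool} (hx : x ∈ lets X) (t : List ℕ)
    (ht : t.Sublist (ex (m+1) Y)) :
    (x :: P :: t).Sublist (ex (m+1) (X ++ (bP,P)::Y)) := by
  rw [ex_append, ex]
  have h1 : ([x] ++ (P :: t)).Sublist (ex (m+1) X ++ ((if bP = true then [m+1] else []) ++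
      P :: ex (m+1) Y)) := by
    refine (mem_lets_sub hx).append ?_
    exact (ht.cons_cons P).trans (List.sublist_append_right _ _)
  exact h1

/-- the part right of `P` -/
lemma ch_right {m : ℕ} {f : Cf → ℕ} {F : ℕ → ℕ → ℕ} {X : Cf} {bP : Bool} {P : ℕ}
    (hd : ∀ c, ¬ Av (m+1) c → f c = 0)
    (hF : ∀ Y, Good (m+1) X bP P Y → f (X ++ (bP,P)::Y) = F (tr X + bP.toNat) (tr Y))
    (Y2 : Cf) : ∀ Y1 : Cf, tr Y1 = 0 → Good m X bP P (Y1 ++ Y2) →
    ch m (decide (Even m)) f (X ++ (bP,P)::Y1) Y2 =
      if tr Y2 = 0 then (if Even m then F (tr X + bP.toNat) 0 else 0)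
      else F (tr X + bP.toNat) (tr Y2 - 1 + (if Even m then 1 else 0)) := by
  induction Y2 with
  | nil =>
    intro Y1 h1 hg
    rw [List.append_nil] at hg
    obtain ⟨x, hx, hPx⟩ := hg.wit
    have hxm : x < m := (hg.sv.mem x).1 (by rw [lets_append]; simp [hx])
    rw [ch, tr, if_pos rfl]
    by_cases hm : Even m
    · have hdead : f (X ++ (bP,P)::Y1 ++ [(true,m)]) = 0 := by
        refine hd _ (not_av_of (x := x) (y := P) ?_ hPx hxm)
        have e : X ++ (bP,P)::Y1 ++ [(true,m)] = X ++ (bP,P)::(Y1 ++ [(true,m)]) := by simp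
        rw [e]
        refine sub_slot hx [m+1,m] ?_
        rw [ex_append]
        refine List.Sublist.trans ?_ (List.sublist_append_right _ _)
        simp [ex]
      have hl := hF _ (goodEnd hg h1 hm)
      have e : X ++ (bP,P)::Y1 ++ [(false,m)] = X ++ (bP,P)::(Y1 ++ [(false,m)]) := by simp
      rw [hdead, e, hl, tr_append, h1]
      simp [hm, tr]
    · simp [hm]
  | cons z B ih =>
    intro Y1 h1 hg
    obtain ⟨b, a⟩ := z
    obtain ⟨x, hx, hPx⟩ := hg.wit
    have hxm : x < m := (hg.sv.mem x).1 (by rw [lets_append]; simp [hx])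
    cases b with
    | false =>
      have hih := ih (Y1 ++ [(false,a)]) (by rw [tr_append, h1]; simp [tr]) (by simpa using hg)
      have e : X ++ (bP,P)::Y1 ++ [(false,a)] = X ++ (bP,P)::(Y1 ++ [(false,a)]) := by simp
      rw [ch, e, hih]
      simp [tr]
    | true =>
      have hdead : f (X ++ (bP,P)::Y1 ++ (true,m)::(decide (Even m),a)::B) = 0 := by
        refine hd _ (not_av_of (x := x) (y := P) ?_ hPx hxm)
        have e : X ++ (bP,P)::Y1 ++ (true,m)::(decide (Even m),a)::B =
            X ++ (bP,P)::(Y1 ++ (true,m)::(decide (Even m),a)::B) := by simp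
        rw [e]
        refine sub_slot hx [m+1,m] ?_
        rw [ex_append, ex]
        refine List.Sublist.trans ?_ (List.sublist_append_right _ _)
        simp
      have hl := hF _ (goodY hg h1)
      have e : X ++ (bP,P)::Y1 ++ (false,m)::(decide (Even m),a)::B =
          X ++ (bP,P)::(Y1 ++ (false,m)::(decide (Even m),a)::B) := by simp
      have hrest : ch m (decide (Even m)) f (X ++ (bP,P)::Y1 ++ [(true,a)]) B = 0 := by
        refine ch_dead hd hPx hxm B _ ?_
        have e : X ++ (bP,P)::Y1 ++ [(true,a)] = X ++ (bP,P)::(Y1 ++ [(true,a)]) := by simp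
        rw [e]
        refine sub_slot hx [m+1] ?_
        rw [ex_append]
        refine List.Sublist.trans ?_ (List.sublist_append_right _ _)
        simp [ex]
      rw [ch, hdead, e, hl, hrest, tr_append, h1]
      simp only [tr, if_true, Bool.toNat_true, Bool.toNat_false, zero_add, add_zero]
      rw [if_neg (by omega)]
      congr 1
      by_cases hm : Even m
      · simp [hm]; omega
      · simp [hm]

lemma sum_Icc_bot (t : ℕ) (h : ℕ → ℕ) :
    ∑ j ∈ Finset.Icc 1 (t+1), h j = h 1 + ∑ j ∈ Finset.Icc 1 t, h (j+1) := by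
  induction t with
  | zero => simp
  | succ t ih =>
    rw [Finset.sum_Icc_succ_top (by omega), ih, Finset.sum_Icc_succ_top (by omega)]
    ring

/-- the part left of `P` -/
lemma ch_left {m : ℕ} {f : Cf → ℕ} {F : ℕ → ℕ → ℕ} {bP : Bool} {P : ℕ} {Y : Cf}
    (hF : ∀ X' b' P' Y', Good (m+1) X' b' P' Y' →
      f (X' ++ (b',P')::Y') = F (tr X' + b'.toNat) (tr Y'))
    (X2 : Cf) : ∀ X1 : Cf, Good m (X1 ++ X2) bP P Y →
    ch m (decide (Even m)) f X1 (X2 ++ (bP,P)::Y) =
      ∑ j ∈ Finset.Icc 1 (tr X2 + bP.toNat),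
        (F (tr X1 + j + (decide (Even m)).toNat) (tr Y + (tr X2 + bP.toNat) - j) +
         F (tr X1 + j - 1 + (decide (Even m)).toNat) (tr Y + (tr X2 + bP.toNat) - j)) +
      ch m (decide (Even m)) f (X1 ++ X2 ++ [(bP,P)]) Y := by
  induction X2 with
  | nil =>
    intro X1 hg
    rw [List.append_nil] at hg
    rw [List.nil_append, ch, List.append_nil]
    congr 1
    cases bP with
    | false => simp [tr]
    | true =>
      have h1 := hF _ _ _ _ (goodL true hg.sv hg.av hg.inc)
      have h2 := hF _ _ _ _ (goodL false hg.sv hg.av hg.inc)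
      have e : ∀ s : Bool, X1 ++ (s,m)::(decide (Even m),P)::Y =
        (X1 ++ [(s,m)]) ++ (decide (Even m),P)::Y := by intro s; simp
      rw [e, e, h1, h2]
      simp [tr, tr_append]
  | cons z X2 ih =>
    intro X1 hg
    obtain ⟨b, a⟩ := z
    have hih := ih (X1 ++ [(b,a)]) (by simpa using hg)
    rw [List.cons_append, ch, hih]
    have e0 : X1 ++ [(b,a)] ++ X2 ++ [(bP,P)] = X1 ++ (b,a)::X2 ++ [(bP,P)] := by simp
    rw [e0, ← add_assoc]
    congr 1
    cases b with
    | false => simp [tr, tr_append]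
    | true =>
      have hsv : Sv m (X1 ++ (true,a)::(X2 ++ (bP,P)::Y)) := by
        have := hg.sv
        simpa using this
      have hav : Av m (X1 ++ (true,a)::(X2 ++ (bP,P)::Y)) := by
        have := hg.av
        simpa using this
      have hinc : (lets X1).Pairwise (· < ·) := by
        have := hg.inc
        rw [lets_append, List.pairwise_append] at this
        exact this.1
      have h1 := hF _ _ _ _ (goodL true hsv hav hinc)
      have h2 := hF _ _ _ _ (goodL false hsv hav hinc)
      have e : ∀ s : Bool, X1 ++ (s,m)::(decide (Even m),a)::(X2 ++ (bP,P)::Y) =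
        (X1 ++ [(s,m)]) ++ (decide (Even m),a)::(X2 ++ (bP,P)::Y) := by intro s; simp
      rw [if_pos rfl, e, e, h1, h2]
      have e3 : tr ((true,a)::X2) + bP.toNat = (tr X2 + bP.toNat) + 1 := by
        simp [tr]; ring
      rw [e3, sum_Icc_bot]
      have e4 : tr (X1 ++ [(true,m)]) = tr X1 + 1 := by simp [tr, tr_append]
      have e5 : tr (X1 ++ [(false,m)]) = tr X1 := by simp [tr, tr_append]
      have e6 : tr (X1 ++ [(true,a)]) = tr X1 + 1 := by simp [tr, tr_append]
      have e7 : tr (X2 ++ (bP,P)::Y) = tr Y + (tr X2 + bP.toNat) := by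
        rw [tr_append, tr]; ring
      rw [e4, e5, e6, e7]
      have e8 : tr Y + (tr X2 + bP.toNat + 1) - 1 = tr Y + (tr X2 + bP.toNat) := by omega
      rw [e8]
      congr 1
      refine Finset.sum_congr rfl fun j hj => ?_
      have e9 : tr Y + (tr X2 + bP.toNat + 1) - (j + 1) = tr Y + (tr X2 + bP.toNat) - j := by omega
      have e10 : tr X1 + 1 + j = tr X1 + (j + 1) := by ring
      rw [e9, e10]

/-- the 2143 side, abstractly -/
theorem side2143 (N : ℕ) (hN : Even N) (comp : ℕ → Cf → ℕ)
    (hsucc : ∀ m < N, ∀ c : Cf, (∀ v ∈ lets c, v < m) →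
      comp m c = ch m (decide (Even m)) (comp (m+1)) [] c)
    (hdead : ∀ m ≤ N, ∀ c, ¬ Av m c → comp m c = 0)
    (hbase : ∀ c, Sv N c → Av N c → comp N c = if tr c = 0 then 1 else 0) (k : ℕ) :
    ∀ m X bP P Y, m + k = N → Good m X bP P Y →
      comp m (X ++ (bP,P)::Y) = p k (tr X + bP.toNat) (tr Y) := by
  induction k with
  | zero =>
    intro m X bP P Y hm hg
    have hmN : m = N := by omega
    subst hmN
    rw [hbase _ hg.sv hg.av, p, tr_append, tr]
    congr 1
    apply propext
    omega
  | succ k ih =>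
    intro m X bP P Y hm hg
    rw [hsucc m (by omega) _ (fun v hv => (hg.sv.mem v).1 hv)]
    have hF : ∀ X' b' P' Y', Good (m+1) X' b' P' Y' →
        comp (m+1) (X' ++ (b',P')::Y') = p k (tr X' + b'.toNat) (tr Y') :=
      fun X' b' P' Y' h' => ih (m+1) X' b' P' Y' (by omega) h'
    have h1 := ch_left (f := comp (m+1)) (F := p k) hF X [] (by simpa using hg)
    have h2 := ch_right (f := comp (m+1)) (F := p k) (X := X) (bP := bP) (P := P)
      (hdead (m+1) (by omega)) (fun Y' h' => hF _ _ _ _ h') Y [] rfl (by simpa using hg)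
    rw [h1, List.nil_append, h2]
    simp only [tr, zero_add]
    have hpar : Even (k+1) ↔ Even m := by
      have : Even (m + (k+1)) := by rw [hm]; exact hN
      rw [Nat.even_add] at this
      exact this.symm
    by_cases he : Even m
    · rw [p_even (hpar.2 he)]
      simp only [he, decide_true, Bool.toNat_true, if_true]
      have e1 : ∀ j ∈ Finset.Icc 1 (tr X + bP.toNat),
          (p k (j+1) (tr Y + (tr X + bP.toNat) - j) + p k (j-1+1) (tr Y + (tr X + bP.toNat) - j)) =
          (p k (j+1) (tr Y + (tr X + bP.toNat) - j) + p k j (tr Y + (tr X + bP.toNat) - j)) := by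
        intro j hj
        rw [Finset.mem_Icc] at hj
        rw [show j - 1 + 1 = j by omega]
      rw [Finset.sum_congr rfl e1, add_comm]
      congr 1
      by_cases hY : tr Y = 0
      · rw [if_pos hY, hY]
      · rw [if_neg hY, show tr Y - 1 + 1 = tr Y by omega]
    · rw [p_odd (fun h => he (hpar.1 h))]
      simp only [he, decide_false, Bool.toNat_false, add_zero, if_false]
      rw [add_comm]
      congr 1
      by_cases hY : tr Y = 0
      · rw [if_pos hY, if_neg (by omega)]
      · rw [if_neg hY, if_pos (by omega)]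

end Pool.Agent.H207R3.Dum
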