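import Pool.Agent.H207R3.DumDefs

/-!
The algebraic identity for MP_911b3a_co.
-/

set_option autoImplicit false

namespace Pool.Agent.H207R3.Dum

lemma p_even {k : ℕ} (h : Even (k+1)) (l r : ℕ) : p (k+1) l r =
    p k l r + ∑ j ∈ Finset.Icc 1 l, (p k (j+1) (r+l-j) + p k j (r+l-j)) := by
  rw [p, if_pos h]
lemma p_odd {k : ℕ} (h : ¬ Even (k+1)) (l r : ℕ) : p (k+1) l r =
    (if 1 ≤ r then p k l (r-1) else 0) +
        ∑ j ∈ Finset.Icc 1 l, (p k j (r+l-j) + p k (j-1) (r+l-j)) := by
  rw [p, if_neg h]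
lemma q_even {k : ℕ} (h : Even (k+1)) (R L : ℕ) : q (k+1) R L =
    q k (R+1) L + q k R L + ∑ j ∈ Finset.Icc 1 R, (q k (R-j+1) (L+j) + q k (R-j+1) (L+j-1)) := by
  rw [q, if_pos h]
lemma q_odd {k : ℕ} (h : ¬ Even (k+1)) (R L : ℕ) : q (k+1) R L =
    (if 1 ≤ L then q k R L + q k R (L-1) else 0) +
        ∑ j ∈ Finset.Icc 1 R, (q k (R-j) (L+j) + q k (R-j) (L+j-1)) := by
  rw [q, if_neg h]

lemma reflect (R : ℕ) (f : ℕ → ℕ) :
    ∑ j ∈ Finset.Icc 1 R, f (R + 1 - j) = ∑ j ∈ Finset.Icc 1 R, f j := by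
  refine Finset.sum_nbij' (fun j => R + 1 - j) (fun j => R + 1 - j) ?_ ?_ ?_ ?_ ?_
  · intro j hj; rw [Finset.mem_Icc] at *; omega
  · intro j hj; rw [Finset.mem_Icc] at *; omega
  · intro j hj; rw [Finset.mem_Icc] at hj; omega
  · intro j hj; rw [Finset.mem_Icc] at hj; omega
  · intro j hj; rfl

/-- the duality between the two trees -/
theorem pq (k : ℕ) : ∀ R L, q k R L + q k R (L+1) = p k R L + p k (R+1) L := by
  induction k with
  | zero =>
    intro R L
    simp only [p, q]
    by_cases h : R = 0 ∧ L = 0 <;> simp [h]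
  | succ k ih =>
    intro R L
    by_cases hk : Even (k+1)
    · have key : ∀ R L, ∑ j ∈ Finset.Icc 1 R, (q k (R-j+1) (L+j) + q k (R-j+1) (L+j-1)) =
          ∑ j ∈ Finset.Icc 1 R, (p k (j+1) (L+R-j) + p k j (L+R-j)) := by
        intro R L
        rw [← reflect R (fun j => p k (j+1) (L+R-j) + p k j (L+R-j))]
        refine Finset.sum_congr rfl fun j hj => ?_
        rw [Finset.mem_Icc] at hj
        have h := ih (R+1-j) (L+j-1)
        rw [show L + j - 1 + 1 = L + j by omega] at h
        rw [show R - j + 1 = R + 1 - j by omega, show L + R - (R + 1 - j) = L + j - 1 by omega]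
        omega
      have step : ∑ j ∈ Finset.Icc 1 (R+1), (p k (j+1) (L+(R+1)-j) + p k j (L+(R+1)-j)) =
          ∑ j ∈ Finset.Icc 1 R, (p k (j+1) (L+1+R-j) + p k j (L+1+R-j)) +
          (p k (R+2) L + p k (R+1) L) := by
        rw [Finset.sum_Icc_succ_top (by omega)]
        congr 1
        · refine Finset.sum_congr rfl fun j hj => ?_
          rw [show L + (R + 1) - j = L + 1 + R - j by omega]
        · rw [show L + (R + 1) - (R + 1) = L by omega]
      rw [q_even hk, q_even hk, p_even hk, p_even hk, key, key, step]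
      have h1 := ih (R+1) L
      have h2 := ih R L
      rw [show R + 1 + 1 = R + 2 by omega] at h1
      omega
    · have key : ∀ R L, ∑ j ∈ Finset.Icc 1 R, (q k (R-j) (L+j) + q k (R-j) (L+j-1)) =
          ∑ j ∈ Finset.Icc 1 R, (p k j (L+R-j) + p k (j-1) (L+R-j)) := by
        intro R L
        rw [← reflect R (fun j => p k j (L+R-j) + p k (j-1) (L+R-j))]
        refine Finset.sum_congr rfl fun j hj => ?_
        rw [Finset.mem_Icc] at hj
        have h := ih (R-j) (L+j-1)
        rw [show L + j - 1 + 1 = L + j by omega] at h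
        rw [show L + R - (R + 1 - j) = L + j - 1 by omega, show R + 1 - j - 1 = R - j by omega,
          show R + 1 - j = R - j + 1 by omega]
        omega
      have step : ∑ j ∈ Finset.Icc 1 (R+1), (p k j (L+(R+1)-j) + p k (j-1) (L+(R+1)-j)) =
          ∑ j ∈ Finset.Icc 1 R, (p k j (L+1+R-j) + p k (j-1) (L+1+R-j)) +
          (p k (R+1) L + p k R L) := by
        rw [Finset.sum_Icc_succ_top (by omega)]
        congr 1
        · refine Finset.sum_congr rfl fun j hj => ?_
          rw [show L + (R + 1) - j = L + 1 + R - j by omega]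
        · rw [show L + (R + 1) - (R + 1) = L by omega, Nat.add_sub_cancel]
      rw [q_odd hk, q_odd hk, p_odd hk, p_odd hk, key, key, step]
      have h2 := ih R L
      by_cases hL : 1 ≤ L
      · have h3 := ih R (L-1)
        rw [show L - 1 + 1 = L by omega] at h3
        rw [if_pos hL, if_pos hL, if_pos hL, if_pos (by omega), Nat.add_sub_cancel]
        omega
      · rw [if_neg hL, if_neg hL, if_neg hL, if_pos (by omega), Nat.add_sub_cancel]
        omega

/-- the numerical identity -/
theorem core (n : ℕ) : q (2*(n+1)) 0 0 = p (2*n) 1 0 + p (2*n) 0 0 := by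
  have h := pq (2*n) 0 0
  have e1 : Even (2*n+1+1) := by rw [show 2*n+1+1 = 2*(n+1) by ring]; exact even_two_mul _
  have e2 : ¬ Even (2*n+1) := by rw [Nat.not_even_iff_odd]; exact odd_two_mul_add_one n
  rw [show 2*(n+1) = 2*n+1+1 by ring, q_even e1, q_odd e2, q_odd e2]
  simp
  rw [Nat.zero_add] at h
  omega

end Pool.Agent.H207R3.Dum
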