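import Pool.Agent.H207R3.DumAlg

/-!
Configurations for MP_911b3a_co: letters with flags (slot right before this letter).
-/

set_option autoImplicit false

namespace Pool.Agent.H207R3.Dum

abbrev Cf := List (Bool × ℕ)

/-- sum over the children of a configuration -/
def ch (m : ℕ) (g : Bool) (f : Cf → ℕ) : Cf → Cf → ℕ
  | A, [] => if g then f (A ++ [(true,m)]) + f (A ++ [(false,m)]) else 0
  | A, (b,a)::B => (if b then f (A ++ (true,m)::(g,a)::B) + f (A ++ (false,m)::(g,a)::B) else 0) +
      ch m g f (A ++ [(b,a)]) B

/-- the word with the slots marked by `m` -/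
def ex (m : ℕ) : Cf → List ℕ
  | [] => []
  | (b,a)::B => (if b then [m] else []) ++ a :: ex m B

def lets (c : Cf) : List ℕ := c.map Prod.snd

/-- number of slots -/
def tr : Cf → ℕ
  | [] => 0
  | (b,_)::B => b.toNat + tr B

def Rc (x y : Bool × ℕ) : Prop :=
  (x.2 % 2 = 0 → (y.1 = true ∨ x.2 < y.2)) ∧ (x.2 % 2 = 1 → (y.1 = false ∧ y.2 < x.2))

/-- structural validity -/
structure Sv (m : ℕ) (c : Cf) : Prop where
  nodup : (lets c).Nodup
  mem : ∀ x, x ∈ lets c ↔ x < m
  chain : c.IsChain Rc
  last : ∀ z ∈ c.getLast?, z.2 % 2 = 0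

lemma lets_append (A B : Cf) : lets (A ++ B) = lets A ++ lets B := by simp [lets]
lemma lets_cons (z : Bool × ℕ) (B : Cf) : lets (z :: B) = z.2 :: lets B := rfl
lemma lets_nil : lets [] = [] := rfl

lemma tr_append (A B : Cf) : tr (A ++ B) = tr A + tr B := by
  induction A with
  | nil => simp [tr]
  | cons z A ih => obtain ⟨b, a⟩ := z; simp only [List.cons_append, tr, ih]; ring

lemma ex_append (m : ℕ) (A B : Cf) : ex m (A ++ B) = ex m A ++ ex m B := by
  induction A with
  | nil => simp [ex]
  | cons z A ih => obtain ⟨b, a⟩ := z; simp only [List.cons_append, ex, ih, List.append_assoc]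

lemma Sv.child {m : ℕ} {A B : Cf} {a : ℕ} (s : Bool) (h : Sv m (A ++ (true,a)::B)) :
    Sv (m+1) (A ++ (s,m)::(decide (Even m),a)::B) := by
  have hl : lets (A ++ (s,m)::(decide (Even m),a)::B) = lets A ++ m :: (a :: lets B) := by
    rw [lets_append, lets_cons, lets_cons]
  have hl0 : lets (A ++ (true,a)::B) = lets A ++ a :: lets B := by
    rw [lets_append, lets_cons]
  have hperm : (lets A ++ m :: (a :: lets B)).Perm (m :: (lets A ++ a :: lets B)) :=
    List.perm_middle
  have ha : a < m := (h.mem a).1 (by rw [hl0]; simp)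
  refine ⟨?_, ?_, ?_, ?_⟩
  · rw [hl, hperm.nodup_iff, List.nodup_cons, ← hl0]
    exact ⟨fun hm => absurd ((h.mem m).1 hm) (lt_irrefl _), h.nodup⟩
  · intro x
    rw [hl, hperm.mem_iff, List.mem_cons, ← hl0, h.mem]
    omega
  · have hc := h.chain
    rw [List.isChain_append, List.isChain_cons] at hc
    rw [List.isChain_append, List.isChain_cons_cons, List.isChain_cons]
    obtain ⟨c1, ⟨c2, c3⟩, c4⟩ := hc
    refine ⟨c1, ⟨?_, ?_, c3⟩, ?_⟩
    · constructor
      · intro hm
        left
        simpa using Nat.even_iff.2 hm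
      · intro hm
        refine ⟨?_, ha⟩
        have : ¬ Even m := by rw [Nat.not_even_iff_odd]; exact Nat.odd_iff.2 hm
        simpa using this
    · intro y hy
      exact c2 y hy
    · intro x hx y hy
      simp only [List.head?_cons, Option.mem_def, Option.some.injEq] at hy
      subst hy
      have h4 := c4 x hx (true, a) (by simp)
      have hx0 : x.2 % 2 = 0 := by
        by_contra hne
        have := (h4.2 (by omega)).1
        simp at this
      refine ⟨fun _ => Or.inr ?_, fun h1 => absurd h1 (by omega)⟩
      have hxA : x ∈ A := List.mem_of_getLast? hx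
      refine (h.mem x.2).1 ?_
      rw [hl0, List.mem_append]
      left
      exact List.mem_map.2 ⟨x, hxA, rfl⟩
  · intro z hz
    cases B with
    | nil =>
      have h0 := h.last (true, a) (by simp)
      simp at hz
      rw [← hz]
      exact h0
    | cons y B =>
      refine h.last z ?_
      simpa using hz

lemma Sv.endChild {m : ℕ} {A : Cf} (s : Bool) (h : Sv m A) (hm : Even m) :
    Sv (m+1) (A ++ [(s,m)]) := by
  have hl : lets (A ++ [(s,m)]) = lets A ++ [m] := by
    rw [lets_append, lets_cons, lets_nil]
  have hperm : (lets A ++ [m]).Perm (m :: lets A) := by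
    simpa using (List.perm_middle (a := m) (l₁ := lets A) (l₂ := []))
  refine ⟨?_, ?_, ?_, ?_⟩
  · rw [hl, hperm.nodup_iff, List.nodup_cons]
    exact ⟨fun hm => absurd ((h.mem m).1 hm) (lt_irrefl _), h.nodup⟩
  · intro x
    rw [hl, hperm.mem_iff, List.mem_cons, h.mem]
    omega
  · rw [List.isChain_append]
    refine ⟨h.chain, List.IsChain.singleton _, ?_⟩
    intro x hx y hy
    simp only [List.head?_cons, Option.mem_def, Option.some.injEq] at hy
    subst hy
    have hx0 := h.last x hx
    have hxA : x ∈ A := List.mem_of_getLast? hx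
    refine ⟨fun _ => Or.inr ?_, fun h1 => absurd h1 (by omega)⟩
    exact (h.mem x.2).1 (List.mem_map.2 ⟨x, hxA, rfl⟩)
  · intro z hz
    simp at hz
    rw [← hz]
    exact Nat.even_iff.1 hm

/-! ### sublist lemmas -/

lemma mem_ex {m v : ℕ} {c : Cf} (h : v ∈ ex m c) : v = m ∨ v ∈ lets c := by
  induction c with
  | nil => simp [ex] at h
  | cons z c ih =>
    obtain ⟨b, a⟩ := z
    rw [ex, List.mem_append, List.mem_cons] at h
    rw [lets_cons, List.mem_cons]
    rcases h with h | h | h
    · left
      cases b <;> simp at h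
      exact h
    · right; left; exact h
    · rcases ih h with h | h
      · left; exact h
      · right; right; exact h

lemma lets_sub_ex (m : ℕ) (c : Cf) : (lets c).Sublist (ex m c) := by
  induction c with
  | nil => simp [ex, lets]
  | cons z c ih =>
    obtain ⟨b, a⟩ := z
    rw [ex, lets_cons]
    exact (ih.cons_cons a).trans (List.sublist_append_right _ _)

lemma ex_of_tr (m : ℕ) (c : Cf) (h : tr c = 0) : ex m c = lets c := by
  induction c with
  | nil => rfl
  | cons z c ih =>
    obtain ⟨b, a⟩ := z
    rw [tr] at h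
    have hb : b = false := by
      cases b with
      | false => rfl
      | true => simp at h
    rw [ex, lets_cons, ih (by omega), hb]
    simp

lemma ex_filter (m : ℕ) (c : Cf) : ((ex m c).filter (fun v => v ≠ m)).Sublist (lets c) := by
  induction c with
  | nil => simp [ex]
  | cons z c ih =>
    obtain ⟨b, a⟩ := z
    rw [ex, lets_cons, List.filter_append]
    have h1 : (if b = true then [m] else []).filter (fun v => decide (v ≠ m)) = [] := by
      cases b <;> simp
    rw [h1, List.nil_append, List.filter_cons]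
    split
    · exact ih.cons_cons a
    · exact ih.cons a

lemma sub_lets {m : ℕ} {c : Cf} {L : List ℕ} (h : L.Sublist (ex m c)) (hL : ∀ v ∈ L, v ≠ m) :
    L.Sublist (lets c) := by
  have h1 := h.filter (fun v => decide (v ≠ m))
  rw [List.filter_eq_self.2 (by simpa using hL)] at h1
  exact h1.trans (ex_filter m c)

lemma ex_map_min {m : ℕ} {c : Cf} (h : ∀ v ∈ lets c, v < m) :
    (ex (m+1) c).map (fun v => min v m) = ex m c := by
  induction c with
  | nil => rfl
  | cons z c ih =>
    obtain ⟨b, a⟩ := z
    rw [ex, ex, List.map_append, List.map_cons, ih (fun v hv => h v (by rw [lets_cons]; simp [hv]))]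
    have ha : a < m := h a (by rw [lets_cons]; simp)
    rw [min_eq_left ha.le]
    cases b <;> simp

lemma strip {L U V : List ℕ} {v : ℕ} (h : (L ++ [v]).Sublist (U ++ V)) (hv : v ∉ V) :
    (L ++ [v]).Sublist U := by
  rw [List.sublist_append_iff] at h
  obtain ⟨L1, L2, h1, h2, h3⟩ := h
  rcases List.eq_nil_or_concat L2 with rfl | ⟨L2', v', rfl⟩
  · rw [List.append_nil] at h1
    rw [h1]; exact h2
  · exfalso
    rw [List.concat_eq_append] at h1 h3
    rw [← List.append_assoc] at h1
    have h4 := List.append_inj_right' h1 rfl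
    simp at h4
    exact hv (h3.subset (by simp [h4]))

lemma strip2 {L U V : List ℕ} {v : ℕ} (h : (L ++ [v]).Sublist (U ++ v :: V)) (hv : v ∉ V) :
    L.Sublist U := by
  rw [List.sublist_append_iff] at h
  obtain ⟨L1, L2, h1, h2, h3⟩ := h
  rcases List.eq_nil_or_concat L2 with rfl | ⟨L2', v', rfl⟩
  · rw [List.append_nil] at h1
    rw [← h1] at h2
    exact (List.sublist_append_left L [v]).trans h2
  · rw [List.concat_eq_append] at h1 h3
    rw [← List.append_assoc] at h1
    have h4 := List.append_inj_right' h1 rfl
    have h5 := List.append_inj_left' h1 rfl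
    simp at h4
    subst h4
    cases L2' with
    | nil => rw [h5, List.append_nil]; exact h2
    | cons u L'' =>
      exfalso
      rw [List.cons_append] at h3
      cases h3 with
      | cons _ h3 => exact hv (h3.subset (by simp))
      | cons_cons _ h3 => exact hv (h3.subset (by simp))

lemma squeeze {L U V : List ℕ} {m i : ℕ} (hL : L.Nodup)
    (h : L.Sublist (U ++ (List.replicate i m ++ V))) : L.Sublist (U ++ m :: V) := by
  rw [List.sublist_append_iff] at h
  obtain ⟨L1, L2, rfl, h2, h3⟩ := h
  rw [List.sublist_append_iff] at h3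
  obtain ⟨L3, L4, rfl, h4, h5⟩ := h3
  refine h2.append ?_
  have h6 : L3.Sublist [m] := by
    have hr := List.sublist_replicate_iff.1 h4
    obtain ⟨n, hn, hn2⟩ := hr
    have hn3 : L3.Nodup := (List.nodup_append.1 (List.nodup_append.1 hL).2.1).1
    rw [hn2, List.nodup_replicate] at hn3
    rw [hn2]
    interval_cases n <;> simp
  exact h6.append h5

end Pool.Agent.H207R3.Dum
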