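import Mathlib

/-!
Counting functions for MP_911b3a_co (Dumont permutations avoiding 2143 / 3421), joint work of helper207
and helper502.
-/

set_option autoImplicit false

namespace Pool.Agent.H207R3.Dum

/-- completions, 2143 side: `k` remaining letters, `l` free slots, `r` ordered non-end slots -/
def p : ℕ → ℕ → ℕ → ℕ
  | 0, l, r => if l = 0 ∧ r = 0 then 1 else 0
  | k+1, l, r =>
    if Even (k+1) then
      p k l r + ∑ j ∈ Finset.Icc 1 l, (p k (j+1) (r+l-j) + p k j (r+l-j))
    else
      (if 1 ≤ r then p k l (r-1) else 0) +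
        ∑ j ∈ Finset.Icc 1 l, (p k j (r+l-j) + p k (j-1) (r+l-j))

/-- completions, 3421 side: `k` remaining letters, `R` free non-end slots, `L` ordered slots -/
def q : ℕ → ℕ → ℕ → ℕ
  | 0, R, L => if R = 0 ∧ L = 0 then 1 else 0
  | k+1, R, L =>
    if Even (k+1) then
      q k (R+1) L + q k R L + ∑ j ∈ Finset.Icc 1 R, (q k (R-j+1) (L+j) + q k (R-j+1) (L+j-1))
    else
      (if 1 ≤ L then q k R L + q k R (L-1) else 0) +
        ∑ j ∈ Finset.Icc 1 R, (q k (R-j) (L+j) + q k (R-j) (L+j-1))

end Pool.Agent.H207R3.Dum
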