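import Pool.Agent.H207R3.Dum2143
import Pool.Agent.H502R3.DG1

/-!
Gluing the 2143 side with the bookkeeping of helper502.
-/

set_option autoImplicit false

namespace Pool.Agent.H207R3.Dum

open Pool.Agent.H502R3

lemma ch_eq (m : ℕ) (g : Bool) (f : Cf → ℕ) (c : Cf) : ∀ A, ch m g f A c = DG.ch m g f A c := by
  induction c with
  | nil => intro A; rfl
  | cons z c ih => obtain ⟨b, a⟩ := z; intro A; rw [ch, DG.ch, ih]

lemma ex_eq (m : ℕ) (c : Cf) : ex m c = DG.ex m c := by
  induction c with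
  | nil => rfl
  | cons z c ih =>
    obtain ⟨b, a⟩ := z
    rw [ex, DG.ex, ih]
    cases b <;> simp

lemma tr_zero_map {c : Cf} (h : tr c = 0) : c = (lets c).map (fun x => (false, x)) := by
  induction c with
  | nil => rfl
  | cons z c ih =>
    obtain ⟨b, a⟩ := z
    rw [tr] at h
    have hb : b = false := by
      cases b with
      | false => rfl
      | true => simp at h
    rw [lets_cons, List.map_cons, ← ih (by omega), hb]

lemma tr_ne_zero {c : Cf} (h : tr c ≠ 0) : ∃ z ∈ c, z.1 = true := by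
  induction c with
  | nil => simp [tr] at h
  | cons z c ih =>
    obtain ⟨b, a⟩ := z
    rw [tr] at h
    cases b with
    | true => exact ⟨(true, a), by simp, rfl⟩
    | false =>
      obtain ⟨z, hz, hz1⟩ := ih (by simpa using h)
      exact ⟨z, by simp [hz], hz1⟩

lemma dum_of (c : Cf) : tr c = 0 → c.IsChain Rc → (∀ z ∈ c.getLast?, z.2 % 2 = 0) →
    DG.Dum (lets c) := by
  induction c with
  | nil => intro _ _ _; trivial
  | cons z c ih =>
    obtain ⟨b, a⟩ := z
    intro ht hc hl
    rw [tr] at ht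
    cases c with
    | nil =>
      have := hl (b, a) (by simp)
      exact Nat.even_iff.2 this
    | cons z c =>
      obtain ⟨b', a'⟩ := z
      rw [List.isChain_cons_cons] at hc
      have h1 := ih (by omega) hc.2 (by
        intro z hz
        exact hl z (by simpa using hz))
      rw [lets_cons, lets_cons] at *
      refine ⟨?_, h1⟩
      have hb' : b' = false := by
        rw [tr] at ht
        cases b' with
        | false => rfl
        | true => simp at ht
      obtain ⟨r1, r2⟩ := hc.1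
      simp only at r1 r2
      by_cases he : Even a
      · rw [if_pos he]
        rcases r1 (Nat.even_iff.1 he) with h2 | h2
        · rw [hb'] at h2; simp at h2
        · exact h2
      · rw [if_neg he]
        exact (r2 (by rw [Nat.not_even_iff] at he; exact he)).2

/-- structural part of the base case -/
lemma base_of (N : ℕ) (pat : Fin 4 → ℕ) (c : Cf) (hs : Sv N c)
    (hav : tr c = 0 → ¬ DG.Has pat (lets c)) :
    DG.comp (DG.WW pat N) N c = if tr c = 0 then 1 else 0 := by
  have hW : ∀ w ∈ DG.WW pat N, ∀ x ∈ w, x < N := by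
    intro w hw x hx
    rw [DG.mem_WW] at hw
    exact (hw.1.2 x).1 hx
  by_cases ht : tr c = 0
  · rw [if_pos ht, tr_zero_map ht, DG.comp_final _ _ hW, DG.ind_pos]
    rw [DG.mem_WW]
    refine ⟨⟨hs.nodup, hs.mem⟩, dum_of c ht hs.chain hs.last, hav ht⟩
  · rw [if_neg ht]
    exact DG.comp_final_zero _ _ hW c (tr_ne_zero ht)

lemma succ_of (N : ℕ) (pat : Fin 4 → ℕ) (m : ℕ) (hm : m < N) (c : Cf)
    (hc : ∀ v ∈ lets c, v < m) :
    DG.comp (DG.WW pat N) m c = ch m (decide (Even m)) (DG.comp (DG.WW pat N) (m+1)) [] c := by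
  rw [ch_eq]
  refine DG.comp_succ _ m ?_ c ?_
  · intro w hw
    rw [DG.mem_WW] at hw
    exact ⟨hw.2.1, hw.1.1, (hw.1.2 m).2 hm⟩
  · intro z hz
    exact (hc z.2 (List.mem_map.2 ⟨z, hz, rfl⟩)).ne

lemma has2143 {w : List ℕ} {x y z v : ℕ} (h : [x,y,z,v].Sublist w) (h1 : y < x) (h2 : x < v)
    (h3 : v < z) : DG.Has (![1, 0, 3, 2] : Fin 4 → ℕ) w := by
  refine ⟨![x, y, z, v], by simpa using h, ?_⟩
  intro a b
  fin_cases a <;> fin_cases b <;> simp <;> omega

lemma of_has2143 {w : List ℕ} (h : DG.Has (![1, 0, 3, 2] : Fin 4 → ℕ) w) :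
    ∃ x y z v, [x,y,z,v].Sublist w ∧ y < x ∧ x < v ∧ v < z := by
  obtain ⟨x, hx, h⟩ := h
  refine ⟨x 0, x 1, x 2, x 3, hx, ?_, ?_, ?_⟩
  · exact (h 1 0).2 (by simp)
  · exact (h 0 3).2 (by simp)
  · exact (h 3 2).2 (by simp)

lemma dead2143 (N m : ℕ) (c : Cf) (h : ¬ Av m c) :
    DG.comp (DG.WW (![1, 0, 3, 2] : Fin 4 → ℕ) N) m c = 0 := by
  apply DG.comp_eq_zero
  intro w hw hcw
  apply h
  intro x y z v hs h1 h2 h3
  rw [ex_eq, ← hcw] at hs
  obtain ⟨l', hl1, hl2⟩ := DG.lift_pat m w _ hs
  rw [DG.mem_WW] at hw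
  apply hw.2.2
  have hlen : l'.length = 4 := by
    have := congrArg List.length hl2
    simpa using this.symm
  match l', hlen with
  | [x', y', z', v'], _ =>
    simp only [List.map_cons, List.map_nil, List.cons.injEq, and_true] at hl2
    obtain ⟨e1, e2, e3, e4⟩ := hl2
    exact has2143 hl1 (by omega) (by omega) (by omega)

lemma good2 (s : Bool) : Good 2 [(s,1)] false 0 [] := by
  refine ⟨⟨?_, ?_, ?_, ?_⟩, ?_, ?_, ?_⟩
  · simp [lets]
  · intro x; simp [lets]; omega
  · simp [Rc]
  · intro z hz; simp at hz; subst hz; norm_num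
  · intro x y z w hs
    have := hs.length_le
    cases s <;> simp [ex] at this
  · simp [lets]
  · exact ⟨1, by simp [lets], by omega⟩

theorem count2143 (n : ℕ) : DG.comp (DG.WW (![1, 0, 3, 2] : Fin 4 → ℕ) (2*(n+1))) 0 [] =
    p (2*n) 1 0 + p (2*n) 0 0 := by
  set N := 2*(n+1) with hN
  have hNe : Even N := even_two_mul _
  have key := side2143 N hNe (DG.comp (DG.WW (![1, 0, 3, 2] : Fin 4 → ℕ) N))
    (fun m hm c hc => succ_of N _ m hm c hc) (fun m _ c hc => dead2143 N m c hc)
    (fun c hs ha => base_of N _ c hs (by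
      intro ht hh
      obtain ⟨x, y, z, v, h1, h2, h3, h4⟩ := of_has2143 hh
      rw [← ex_of_tr N c ht] at h1
      exact ha x y z v h1 h2 h3 h4)) (2*n)
  have k1 := key 2 [(true,1)] false 0 [] (by omega) (good2 true)
  have k2 := key 2 [(false,1)] false 0 [] (by omega) (good2 false)
  simp only [tr, List.cons_append, List.nil_append, Bool.toNat_true, Bool.toNat_false, add_zero]
    at k1 k2
  have s0 := succ_of N (![1, 0, 3, 2] : Fin 4 → ℕ) 0 (by omega) [] (by simp [lets])
  have s1 := succ_of N (![1, 0, 3, 2] : Fin 4 → ℕ) 1 (by omega) [(true,0)] (by simp [lets])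
  have s2 := succ_of N (![1, 0, 3, 2] : Fin 4 → ℕ) 1 (by omega) [(false,0)] (by simp [lets])
  have e0 : decide (Even 0) = true := by simp
  have e1 : decide (Even 1) = false := by simp
  rw [e0] at s0
  rw [e1] at s1 s2
  simp only [ch, List.nil_append, if_true, zero_add, Bool.false_eq_true, if_false, add_zero,
    List.cons_append, Nat.reduceAdd] at s0 s1 s2
  rw [s0, s1, s2, k1, k2, add_zero]

end Pool.Agent.H207R3.Dum
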