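import Mathlib

/-!
Algebra behind the refined count of permutations avoiding 23-1-4: upper triangular matrices
`A`, `D` with `D = 1 + A * D` and the difference rule `R A (A * D)`.
-/

set_option autoImplicit false

namespace Pool.Agent.H207R3.PCat

open Finset

abbrev IA := IncidenceAlgebra ℤ ℕ

/-- entries of `D`, by gap and row -/
def Dg : ℕ → ℕ → ℤ
  | 0, _ => 1
  | (g + 1), i => ∑ j : Fin (g + 1),
      (if j.val = 0 then 1 else ∑ r ∈ Finset.Icc 1 i, Dg j.val r) *
        Dg (g - j.val) (i + j.val + 1)
termination_by g => g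
decreasing_by
  · exact j.isLt
  · omega

/-- entries of `A`, by gap and row -/
def Ag (g i : ℕ) : ℤ :=
  if g = 0 then 0 else if g = 1 then 1 else ∑ r ∈ Finset.Icc 1 i, Dg (g - 1) r

def A : IA := ⟨fun a b => if a ≤ b then Ag (b - a) a else 0, fun _ _ h => if_neg h⟩
def D : IA := ⟨fun a b => if a ≤ b then Dg (b - a) a else 0, fun _ _ h => if_neg h⟩

lemma A_add (a g : ℕ) : A a (a + g) = Ag g a := by
  show (if a ≤ a + g then Ag (a + g - a) a else 0) = _
  rw [if_pos (Nat.le_add_right _ _), Nat.add_sub_cancel_left]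

lemma D_add (a g : ℕ) : D a (a + g) = Dg g a := by
  show (if a ≤ a + g then Dg (a + g - a) a else 0) = _
  rw [if_pos (Nat.le_add_right _ _), Nat.add_sub_cancel_left]

lemma zero_lt (T : IA) {a b : ℕ} (h : b < a) : T a b = 0 :=
  IncidenceAlgebra.apply_eq_zero_of_not_le (by omega) T

lemma mul_sub (f g : IA) (a b : ℕ) (s : Finset ℕ) (hs : Icc a b ⊆ s) :
    (f * g) a b = ∑ x ∈ s, f a x * g x b := by
  rw [IncidenceAlgebra.mul_apply]
  apply Finset.sum_subset hs
  intro x _ hx
  rw [Finset.mem_Icc, not_and_or] at hx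
  rcases hx with h | h
  · rw [zero_lt f (by omega), zero_mul]
  · rw [zero_lt g (by omega), mul_zero]

lemma sum_Icc_add (a n : ℕ) (f : ℕ → ℤ) :
    ∑ x ∈ Icc a (a + n), f x = ∑ j ∈ range (n + 1), f (a + j) := by
  have : Icc a (a + n) = Ico a (a + n + 1) := by ext; simp [Finset.mem_Icc, Finset.mem_Ico]
  rw [this, Finset.sum_Ico_eq_sum_range, show a + n + 1 - a = n + 1 by omega]

lemma mul_add' (f g : IA) (a n : ℕ) :
    (f * g) a (a + n) = ∑ j ∈ range (n + 1), f a (a + j) * g (a + j) (a + n) := by
  rw [IncidenceAlgebra.mul_apply, sum_Icc_add]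

lemma Dg_succ (g i : ℕ) : Dg (g + 1) i = ∑ j ∈ range (g + 1), Ag (j + 1) i * Dg (g - j) (i + j + 1) := by
  rw [Dg, Finset.sum_range]
  apply Finset.sum_congr rfl
  intro j _
  congr 1
  unfold Ag
  by_cases h : j.val = 0
  · simp [h]
  · simp [h]

lemma D_eq : D = 1 + A * D := by
  apply IncidenceAlgebra.ext
  intro a b hab
  obtain ⟨n, rfl⟩ := Nat.exists_eq_add_of_le hab
  rw [IncidenceAlgebra.add_apply, mul_add', IncidenceAlgebra.one_apply]
  rcases n with _ | n
  · rw [D_add]
    simp [Dg]
    left
    show A a a = 0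
    have := A_add a 0
    simpa [Ag] using this
  · rw [D_add, Dg_succ, if_neg (by omega), zero_add, Finset.sum_range_succ' _ (n + 1)]
    have h0 : A a (a + 0) = 0 := by rw [A_add]; simp [Ag]
    rw [h0, zero_mul, add_zero]
    apply Finset.sum_congr rfl
    intro j hj
    rw [Finset.mem_range] at hj
    rw [A_add]
    congr 1
    have : a + (n + 1) = (a + (j + 1)) + (n - j) := by omega
    rw [this, D_add]
    rfl

lemma A_diag (a : ℕ) : A a a = 0 := by
  have := A_add a 0
  simpa [Ag] using this

lemma D_diag (a : ℕ) : D a a = 1 := by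
  have := D_add a 0
  simpa [Dg] using this

lemma A_super (a : ℕ) : A a (a + 1) = 1 := by
  rw [A_add]; simp [Ag]

lemma A_row0 (b : ℕ) : A 0 b = if b = 1 then 1 else 0 := by
  have := A_add 0 b
  rw [zero_add] at this
  rw [this]
  unfold Ag
  by_cases h0 : b = 0
  · simp [h0]
  · by_cases h1 : b = 1
    · simp [h1]
    · simp [h0, h1]

lemma eq_zero_of_eq (X : IA) (h : X = A * X) : X = 0 := by
  have key : ∀ n a, X a (a + n) = 0 := by
    intro n
    induction n using Nat.strong_induction_on with
    | _ n ih =>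
      intro a
      rw [h, mul_add']
      apply Finset.sum_eq_zero
      intro j hj
      rw [Finset.mem_range] at hj
      rcases j with _ | j
      · rw [add_zero, A_diag, zero_mul]
      · have : a + n = (a + (j + 1)) + (n - (j + 1)) := by omega
        rw [this, ih (n - (j + 1)) (by omega), mul_zero]
  apply IncidenceAlgebra.ext
  intro a b hab
  obtain ⟨n, rfl⟩ := Nat.exists_eq_add_of_le hab
  rw [key, IncidenceAlgebra.zero_apply]

lemma DA_comm : D * A = A * D := by
  have h1 : D - A * D = 1 := by
    have := D_eq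
    rw [sub_eq_iff_eq_add]
    exact this
  have hX : D * A - D + 1 = A * (D * A - D + 1) := by
    have : (D - A * D) * A = A := by rw [h1, one_mul]
    have e1 : D * A = A + A * D * A := by
      have := this
      rw [sub_mul, sub_eq_iff_eq_add] at this
      exact this
    rw [mul_add, _root_.mul_sub, mul_one]
    have e2 : D = 1 + A * D := D_eq
    calc D * A - D + 1 = (A + A * D * A) - (1 + A * D) + 1 := by rw [← e1, ← e2]
      _ = A * (D * A) - A * D + A := by rw [mul_assoc]; abel
  have := eq_zero_of_eq _ hX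
  have e3 : D * A = D - 1 := by
    have h := this
    rw [← sub_eq_zero]
    rw [← h]
    abel
  rw [e3]
  rw [sub_eq_iff_eq_add, add_comm]
  exact D_eq

/-- the difference rule -/
def R (T T' : IA) : Prop := ∀ i I, T (i + 1) (I + 1) = T i I + T' (i + 1) I

lemma R_mul {T T' S S' : IA} (hT : R T T') (hS : R S S') : R (T * S) (T' * S + T * S') := by
  intro i I
  by_cases h : i ≤ I
  · obtain ⟨n, rfl⟩ := Nat.exists_eq_add_of_le h
    rw [IncidenceAlgebra.add_apply]
    have e0 : i + n + 1 = (i + 1) + n := by omega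
    rw [mul_add', e0, mul_add',
      mul_sub T' S (i + 1) (i + n) (Icc i (i + n)) (Finset.Icc_subset_Icc (by omega) le_rfl),
      mul_sub T S' (i + 1) (i + n) (Icc (i + 1) ((i + 1) + n)) (Finset.Icc_subset_Icc le_rfl (by omega)),
      sum_Icc_add, sum_Icc_add, ← Finset.sum_add_distrib, ← Finset.sum_add_distrib]
    apply Finset.sum_congr rfl
    intro j _
    have e1 : T (i + 1) (i + 1 + j) = T i (i + j) + T' (i + 1) (i + j) := by
      have := hT i (i + j)
      rw [← this, show i + 1 + j = i + j + 1 by omega]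
    have e2 : S (i + 1 + j) (i + 1 + n) = S (i + j) (i + n) + S' (i + 1 + j) (i + n) := by
      have := hS (i + j) (i + n)
      rw [show i + 1 + j = i + j + 1 by omega, show i + 1 + n = i + n + 1 by omega]
      exact this
    rw [e2, mul_add]
    nth_rewrite 1 [e1]
    ring
  · rw [zero_lt _ (show I + 1 < i + 1 by omega), zero_lt _ (show I < i by omega),
      zero_lt _ (show I < i + 1 by omega), add_zero]

lemma R_add {T T' S S' : IA} (hT : R T T') (hS : R S S') : R (T + S) (T' + S') := by
  intro i I
  rw [IncidenceAlgebra.add_apply, IncidenceAlgebra.add_apply, IncidenceAlgebra.add_apply, hT, hS]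
  ring

lemma R_neg {T T' : IA} (hT : R T T') : R (-T) (-T') := by
  intro i I
  rw [IncidenceAlgebra.neg_apply, IncidenceAlgebra.neg_apply, IncidenceAlgebra.neg_apply, hT]
  ring

lemma R_zero : R (0 : IA) 0 := by
  intro i I
  simp [IncidenceAlgebra.zero_apply]

lemma R_one : R (1 : IA) 0 := by
  intro i I
  simp [IncidenceAlgebra.zero_apply, IncidenceAlgebra.one_apply]

lemma R_A : R A (A * D) := by
  have hAD : A * D = D - 1 := by
    have := D_eq
    rw [eq_sub_iff_add_eq, add_comm]
    exact this.symm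
  intro i I
  rw [hAD, IncidenceAlgebra.sub_apply]
  by_cases h : i ≤ I
  · obtain ⟨n, rfl⟩ := Nat.exists_eq_add_of_le h
    have e0 : i + n + 1 = (i + 1) + n := by omega
    rw [e0, A_add, A_add]
    rcases n with _ | n
    · simp [Ag, zero_lt D (show i < i + 1 by omega), IncidenceAlgebra.one_apply]
    · rw [show i + (n + 1) = (i + 1) + n by omega, D_add, IncidenceAlgebra.one_apply]
      rcases n with _ | n
      · simp [Ag, Dg]
      · rw [if_neg (by omega), sub_zero]
        unfold Ag
        rw [if_neg (by omega), if_neg (by omega), if_neg (by omega), if_neg (by omega)]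
        rw [show n + 1 + 1 - 1 = n + 1 by omega]
        rw [← Finset.insert_Icc_right_eq_Icc_add_one (by omega : 1 ≤ i + 1)]
        rw [Finset.sum_insert (by simp), add_comm]
  · rw [zero_lt _ (show I + 1 < i + 1 by omega), zero_lt _ (show I < i by omega),
      zero_lt _ (show I < i + 1 by omega), zero_lt _ (show I < i + 1 by omega)]
    simp

/-- the derivative of `D` -/
def Dp : IA := ⟨fun a b => if a ≤ b then (if a = 0 then 0 else D a (b + 1) - D (a - 1) b) else 0,
  fun _ _ h => if_neg h⟩

lemma R_Dp : R D Dp := by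
  intro i I
  by_cases h : i + 1 ≤ I
  · have : Dp (i + 1) I = D (i + 1) (I + 1) - D i I := by
      show (if i + 1 ≤ I then (if i + 1 = 0 then 0 else D (i + 1) (I + 1) - D (i + 1 - 1) I) else 0)
        = _
      rw [if_pos h, if_neg (by omega), Nat.add_sub_cancel]
    rw [this]; ring
  · rw [zero_lt Dp (by omega), add_zero]
    by_cases h2 : i = I
    · rw [h2, D_diag, D_diag]
    · rw [zero_lt _ (show I + 1 < i + 1 by omega), zero_lt _ (show I < i by omega)]

lemma R_D : R D (D * A * D * D) := by
  set Z : IA := D * A * D * D with hZdef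
  have hZ : Z = A * D * D + A * Z := by
    have h1 : D = 1 + A * D := D_eq
    calc Z = D * (A * D * D) := by rw [hZdef]; noncomm_ring
      _ = (1 + A * D) * (A * D * D) := by rw [← h1]
      _ = A * D * D + A * Z := by rw [hZdef]; noncomm_ring
  have hR2 : R D (0 + ((A * D) * D + A * Dp)) := by
    have h := R_add R_one (R_mul R_A R_Dp)
    rw [← D_eq] at h
    exact h
  rw [zero_add] at hR2
  have key : ∀ n a, Dp (a + 1) (a + 1 + n) = Z (a + 1) (a + 1 + n) := by
    intro n
    induction n using Nat.strong_induction_on with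
    | _ n ih =>
      intro a
      have e1 : Dp (a + 1) (a + 1 + n) = (A * D * D + A * Dp) (a + 1) (a + 1 + n) := by
        have h1 := R_Dp a (a + 1 + n)
        have h2 := hR2 a (a + 1 + n)
        linarith
      rw [e1]
      conv_rhs => rw [hZ]
      rw [IncidenceAlgebra.add_apply, IncidenceAlgebra.add_apply]
      congr 1
      rw [mul_add', mul_add']
      apply Finset.sum_congr rfl
      intro j hj
      rw [Finset.mem_range] at hj
      rcases j with _ | j
      · rw [add_zero, A_diag, zero_mul, zero_mul]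
      · congr 1
        have : a + 1 + n = (a + (j + 1)) + 1 + (n - (j + 1)) := by omega
        rw [this, show a + 1 + (j + 1) = a + (j + 1) + 1 by omega]
        exact ih (n - (j + 1)) (by omega) (a + (j + 1))
  intro i I
  rw [R_Dp i I]
  congr 1
  by_cases h : i + 1 ≤ I
  · obtain ⟨n, rfl⟩ := Nat.exists_eq_add_of_le h
    exact key n i
  · rw [zero_lt _ (by omega), zero_lt _ (by omega)]

/-- the differential ring generated by `A` and `D` -/
def S : Subring IA := Subring.closure {A, D}

lemma A_mem : A ∈ S := Subring.subset_closure (by simp)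
lemma D_mem : D ∈ S := Subring.subset_closure (by simp)

lemma comm_A {x : IA} (hx : x ∈ S) : x * A = A * x := by
  have h : S ≤ Subring.centralizer {A} := by
    unfold S
    rw [Subring.closure_le]
    intro y hy
    simp only [Set.mem_insert_iff, Set.mem_singleton_iff] at hy
    rcases hy with rfl | rfl
    · rw [SetLike.mem_coe, Subring.mem_centralizer_iff]
      intro g hg
      rw [Set.mem_singleton_iff] at hg
      rw [hg]
    · rw [SetLike.mem_coe, Subring.mem_centralizer_iff]
      intro g hg
      rw [Set.mem_singleton_iff] at hg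
      rw [hg, DA_comm]
  have := h hx
  rw [Subring.mem_centralizer_iff] at this
  exact (this A (Set.mem_singleton _)).symm

lemma exists_R {x : IA} (hx : x ∈ S) : ∃ y ∈ S, R x y := by
  unfold S at hx
  induction hx using Subring.closure_induction with
  | mem y hy =>
    simp only [Set.mem_insert_iff, Set.mem_singleton_iff] at hy
    rcases hy with rfl | rfl
    · exact ⟨A * D, S.mul_mem A_mem D_mem, R_A⟩
    · exact ⟨D * A * D * D, S.mul_mem (S.mul_mem (S.mul_mem D_mem A_mem) D_mem) D_mem, R_D⟩
  | zero => exact ⟨0, S.zero_mem, R_zero⟩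
  | one => exact ⟨0, S.zero_mem, R_one⟩
  | add x y _ _ hx hy =>
    obtain ⟨x', hx', rx⟩ := hx
    obtain ⟨y', hy', ry⟩ := hy
    exact ⟨x' + y', S.add_mem hx' hy', R_add rx ry⟩
  | neg x _ hx =>
    obtain ⟨x', hx', rx⟩ := hx
    exact ⟨-x', S.neg_mem hx', R_neg rx⟩
  | mul x y hx0 hy0 hx hy =>
    obtain ⟨x', hx', rx⟩ := hx
    obtain ⟨y', hy', ry⟩ := hy
    exact ⟨x' * y + x * y', S.add_mem (S.mul_mem hx' hy0) (S.mul_mem hx0 hy'), R_mul rx ry⟩

noncomputable def Bs : ℕ → S
  | 0 => ⟨D, D_mem⟩
  | (s + 1) => ⟨D * (Bs s).1 + (exists_R (Bs s).2).choose,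
      S.add_mem (S.mul_mem D_mem (Bs s).2) (exists_R (Bs s).2).choose_spec.1⟩

/-- iterated differences of `A` -/
noncomputable def T : ℕ → IA
  | 0 => A
  | (s + 1) => A * (Bs s).1

lemma T_R (s : ℕ) : R (T s) (T (s + 1)) := by
  rcases s with _ | s
  · exact R_A
  · have h := R_mul R_A (exists_R (Bs s).2).choose_spec.2
    have e : T (s + 1 + 1) = A * D * (Bs s).1 + A * (exists_R (Bs s).2).choose := by
      show A * (Bs (s + 1)).1 = _
      show A * (D * (Bs s).1 + (exists_R (Bs s).2).choose) = _
      rw [mul_add, mul_assoc]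
    rw [e]
    exact h

lemma T_comm (s : ℕ) : T s * A = A * T s := by
  rcases s with _ | s
  · rfl
  · show A * (Bs s).1 * A = A * (A * (Bs s).1)
    rw [mul_assoc, comm_A (Bs s).2]

lemma T_diag (s a : ℕ) : T s a a = 0 := by
  rcases s with _ | s
  · exact A_diag a
  · show (A * (Bs s).1) a a = 0
    have := mul_add' A (Bs s).1 a 0
    rw [add_zero] at this
    rw [this]
    simp [A_diag]

/-- difference sequence for `D` -/
noncomputable def TD : ℕ → IA
  | 0 => D
  | (s + 1) => T (s + 2)

lemma TD_R (s : ℕ) : R (TD s) (TD (s + 1)) := by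
  rcases s with _ | s
  · have h := R_add R_one (T_R 1)
    have e : (1 : IA) + T 1 = D := by
      show 1 + A * D = D
      exact D_eq.symm
    rw [e, zero_add] at h
    exact h
  · exact T_R (s + 2)

/-- transform -/
def Tr (φ : ℕ → ℤ) : ℕ → ℕ → ℕ → ℤ
  | 0, s, _ => φ s
  | _ + 1, s, 0 => φ s
  | r + 1, s, m + 1 => Tr φ (r + 1) s m + Tr φ r (s + 1) (m + 1)

lemma Tr_nil (φ : ℕ → ℤ) (s m : ℕ) : Tr φ 0 s m = φ s := by
  rw [Tr]

lemma Tr_zero (φ : ℕ → ℤ) (r s : ℕ) : Tr φ r s 0 = φ s := by
  cases r
  · rw [Tr]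
  · rw [Tr]

lemma Tr_succ (φ : ℕ → ℤ) (r s m : ℕ) :
    Tr φ (r + 1) s (m + 1) = Tr φ (r + 1) s m + Tr φ r (s + 1) (m + 1) := by
  rw [Tr]

lemma Tr_congr (φ ψ : ℕ → ℤ) (r s m : ℕ) (h : ∀ s', s ≤ s' → s' ≤ s + r → φ s' = ψ s') :
    Tr φ r s m = Tr ψ r s m := by
  induction r generalizing s m with
  | zero => rw [Tr_nil, Tr_nil]; exact h s le_rfl le_rfl
  | succ r ih =>
    induction m with
    | zero => rw [Tr_zero, Tr_zero]; exact h s le_rfl (by omega)
    | succ m ihm =>
      rw [Tr_succ, Tr_succ, ihm, ih (s + 1) (m + 1) (fun s' h1 h2 => h s' (by omega) (by omega))]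

lemma Tr_sub (φ ψ : ℕ → ℤ) (r s m : ℕ) :
    Tr (fun x => φ x - ψ x) r s m = Tr φ r s m - Tr ψ r s m := by
  induction r generalizing s m with
  | zero => rw [Tr_nil, Tr_nil, Tr_nil]
  | succ r ih =>
    induction m with
    | zero => rw [Tr_zero, Tr_zero, Tr_zero]
    | succ m ihm =>
      rw [Tr_succ, Tr_succ, Tr_succ, ihm, ih (s + 1) (m + 1)]
      ring

/-- inversion -/
lemma Tr_inj (φ : ℕ → ℤ) (t : ℕ) (h : ∀ m, Tr φ t 0 m = 0) : ∀ s, s ≤ t → φ s = 0 := by
  -- first: vanishing for m ≥ s
  have h1 : ∀ s, s ≤ t → ∀ m, s ≤ m → Tr φ (t - s) s m = 0 := by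
    intro s
    induction s with
    | zero => intro _ m _; rw [Nat.sub_zero]; exact h m
    | succ s ih =>
      intro hs m hm
      obtain ⟨m', rfl⟩ : ∃ m', m = m' + 1 := ⟨m - 1, by omega⟩
      have e : t - s = (t - (s + 1)) + 1 := by omega
      have hh := Tr_succ φ (t - (s + 1)) s m'
      rw [← e, ih (by omega) _ (by omega), ih (by omega) _ (by omega), zero_add] at hh
      exact hh.symm
  -- downward
  have h2 : ∀ r, r ≤ t → ∀ m, Tr φ r (t - r) m = 0 := by
    intro r
    induction r with
    | zero =>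
      intro _ m
      have := h1 t le_rfl t le_rfl
      rw [Nat.sub_self, Tr_nil] at this
      rw [Nat.sub_zero, Tr_nil]
      exact this
    | succ r ih =>
      intro hr
      have hconst : ∀ m, Tr φ (r + 1) (t - (r + 1)) (m + 1) = Tr φ (r + 1) (t - (r + 1)) m := by
        intro m
        rw [Tr_succ, show t - (r + 1) + 1 = t - r by omega, ih (by omega) (m + 1), add_zero]
      have hc : ∀ m, Tr φ (r + 1) (t - (r + 1)) m = Tr φ (r + 1) (t - (r + 1)) 0 := by
        intro m
        induction m with
        | zero => rfl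
        | succ m ihm => rw [hconst, ihm]
      intro m
      have h3 := h1 (t - (r + 1)) (by omega) (t - (r + 1)) le_rfl
      rw [show t - (t - (r + 1)) = r + 1 by omega] at h3
      rw [hc m, ← hc (t - (r + 1)), h3]
  intro s hs
  have := h2 (t - s) (by omega) 0
  rw [Tr_zero, show t - (t - s) = s by omega] at this
  exact this

lemma Tr_seq (U : ℕ → IA) (c : ℕ) (hU : ∀ s, R (U s) (U (s + 1)))
    (hc : ∀ s m, U (s + 1) (m + 1) (m + c) = 0) (t : ℕ) :
    ∀ r s m, s + r = t →
      U s (m + 1) (m + 1 + r + c) = Tr (fun s' => U s' 1 (1 + (t - s') + c)) r s m := by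
  intro r
  induction r with
  | zero =>
    intro s m hs
    rw [Tr_nil]
    show _ = U s 1 (1 + (t - s) + c)
    rw [show t - s = 0 by omega]
    induction m with
    | zero => rfl
    | succ m ih =>
      rw [← ih]
      have := hU s (m + 1) (m + 1 + c)
      have h2 := hc s (m + 1)
      rw [show m + 1 + 1 + 0 + c = m + 1 + c + 1 by omega, this]
      rw [h2, add_zero]
  | succ r ih =>
    intro s m hs
    induction m with
    | zero =>
      rw [Tr_zero]
      show _ = U s 1 (1 + (t - s) + c)
      rw [show t - s = r + 1 by omega]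
    | succ m ihm =>
      rw [Tr_succ, ← ihm, ← ih (s + 1) (m + 1) (by omega)]
      have := hU s (m + 1) (m + 1 + (r + 1) + c)
      rw [show m + 1 + 1 + (r + 1) + c = m + 1 + (r + 1) + c + 1 by omega, this,
        show m + 1 + 1 + r + c = m + 1 + (r + 1) + c by omega]

/-- `e` from `w` -/
def E (w : ℕ → ℕ → ℤ) (m t : ℕ) : ℤ := Tr (fun s => w s (t - s)) t 0 m

structure Sys (w v : ℕ → ℕ → ℤ) : Prop where
  s0 : w 0 0 = 1
  s0' : ∀ h, v 0 h = w 0 h
  s1 : ∀ m t, E w (m + 1) (t + 1) = E w m (t + 1) +
    ∑ j ∈ range (t + 1), E v (m + 1) j * E w (m + 1 + j) (t - j)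
  s1' : ∀ t, E w 0 (t + 1) = ∑ j ∈ range (t + 1), E v 0 j * E w j (t - j)
  s2 : ∀ s h, w (s + 1) h =
    ∑ j ∈ range (h + 1), (w (s + 1) j - v (s + 1) j) * E w j (h - j)

lemma E_zero_right (w : ℕ → ℕ → ℤ) (m : ℕ) : E w m 0 = w 0 0 := by
  unfold E; rw [Tr_nil]

lemma Sys.unique {w v w' v' : ℕ → ℕ → ℤ} (H : Sys w v) (H' : Sys w' v') :
    ∀ n s h, s + h = n → w s h = w' s h ∧ v s h = v' s h := by
  intro n
  induction n using Nat.strong_induction_on with
  | _ n ih =>
    have hE : ∀ m t, t < n → E w m t = E w' m t := by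
      intro m t ht
      exact Tr_congr _ _ _ _ _ (fun s' _ h2 => (ih t ht s' (t - s') (by omega)).1)
    have hEv : ∀ m t, t < n → E v m t = E v' m t := by
      intro m t ht
      exact Tr_congr _ _ _ _ _ (fun s' _ h2 => (ih t ht s' (t - s') (by omega)).2)
    rcases n with _ | t
    · intro s h hs
      obtain rfl : s = 0 := by omega
      obtain rfl : h = 0 := by omega
      rw [H.s0', H'.s0', H.s0, H'.s0]
      exact ⟨rfl, rfl⟩
    · have hEt : ∀ m, E w m (t + 1) = E w' m (t + 1) := by
        intro m
        induction m with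
        | zero =>
          rw [H.s1', H'.s1']
          apply Finset.sum_congr rfl
          intro j hj
          rw [Finset.mem_range] at hj
          rw [hEv 0 j hj, hE j (t - j) (by omega)]
        | succ m ihm =>
          rw [H.s1, H'.s1, ihm]
          congr 1
          apply Finset.sum_congr rfl
          intro j hj
          rw [Finset.mem_range] at hj
          rw [hEv (m + 1) j hj, hE (m + 1 + j) (t - j) (by omega)]
      have hw : ∀ s h, s + h = t + 1 → w s h = w' s h := by
        intro s h hs
        have := Tr_inj (fun s => w s (t + 1 - s) - w' s (t + 1 - s)) (t + 1) (by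
          intro m
          rw [Tr_sub (fun s => w s (t + 1 - s)) (fun s => w' s (t + 1 - s))]
          exact sub_eq_zero.mpr (hEt m)) s (by omega)
        have e : t + 1 - s = h := by omega
        simp only [e] at this
        linarith
      intro s h hs
      refine ⟨hw s h hs, ?_⟩
      rcases s with _ | s
      · rw [H.s0', H'.s0', hw 0 h hs]
      · have a1 := H.s2 s h
        have a2 := H'.s2 s h
        rw [Finset.sum_range_succ, Nat.sub_self, E_zero_right, H.s0, mul_one] at a1
        rw [Finset.sum_range_succ, Nat.sub_self, E_zero_right, H'.s0, mul_one] at a2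
        have a3 : ∑ j ∈ range h, (w (s + 1) j - v (s + 1) j) * E w j (h - j) =
            ∑ j ∈ range h, (w' (s + 1) j - v' (s + 1) j) * E w' j (h - j) := by
          apply Finset.sum_congr rfl
          intro j hj
          rw [Finset.mem_range] at hj
          obtain ⟨b1, b2⟩ := ih (s + 1 + j) (by omega) (s + 1) j rfl
          rw [b1, b2, hE j (h - j) (by omega)]
        rw [hw (s + 1) h hs, a3] at a1
        linarith

/-- candidate -/
noncomputable def wc (s h : ℕ) : ℤ := T s 1 (h + 2)
noncomputable def vc (s h : ℕ) : ℤ := TD s 1 (h + 1)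

lemma E_wc (m t : ℕ) : E wc m t = A (m + 1) (m + 2 + t) := by
  have := Tr_seq T 1 T_R (fun s m => T_diag (s + 1) (m + 1)) t t 0 m (by omega)
  rw [show m + 1 + t + 1 = m + 2 + t by omega] at this
  rw [show A = T 0 from rfl, this]
  unfold E wc
  apply Tr_congr
  intro s' _ h2
  show T s' 1 (t - s' + 2) = T s' 1 (1 + (t - s') + 1)
  rw [show 1 + (t - s') + 1 = t - s' + 2 by omega]

lemma E_vc (m t : ℕ) : E vc m t = D (m + 1) (m + 1 + t) := by
  have := Tr_seq TD 0 TD_R (fun s m => zero_lt _ (by omega)) t t 0 m (by omega)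
  rw [add_zero] at this
  rw [show D = TD 0 from rfl, this]
  unfold E vc
  apply Tr_congr
  intro s' _ h2
  show TD s' 1 (t - s' + 1) = TD s' 1 (1 + (t - s') + 0)
  rw [show 1 + (t - s') + 0 = t - s' + 1 by omega]

lemma v_diff (s h : ℕ) : T (s + 1) 0 (h + 1) = wc (s + 1) h - vc (s + 1) h := by
  have := T_R (s + 1) 0 (h + 1)
  unfold wc vc
  rw [show h + 2 = h + 1 + 1 by omega, this]
  show _ = _ + T (s + 2) (0 + 1) (h + 1) - T (s + 2) 1 (h + 1)
  ring

lemma sys_c : Sys wc vc where
  s0 := by
    show A 1 (0 + 2) = 1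
    exact A_super 1
  s0' := by
    intro h
    show D 1 (h + 1) = A 1 (h + 2)
    have h1 := R_A 0 (h + 1)
    have hAD : A * D = D - 1 := by
      have := D_eq
      rw [eq_sub_iff_add_eq, add_comm]
      exact this.symm
    rw [hAD, IncidenceAlgebra.sub_apply, A_row0, IncidenceAlgebra.one_apply] at h1
    rw [show h + 2 = h + 1 + 1 by omega, show (1 : ℕ) = 0 + 1 by omega] 
    rw [h1]
    by_cases hh : h = 0
    · simp [hh]
    · simp [hh]
  s1 := by
    intro m t
    rw [E_wc, E_wc]
    have h1 := R_A (m + 1) (m + 2 + (t + 1))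
    rw [show m + 1 + 1 = m + 2 by omega] at h1
    rw [show m + 1 + 2 + (t + 1) = m + 2 + (t + 1) + 1 by omega, show m + 1 + 1 = m + 2 by omega, h1,
      ← DA_comm, mul_add', Finset.sum_range_succ _ (t + 1), A_diag, mul_zero, add_zero]
    congr 1
    apply Finset.sum_congr rfl
    intro j hj
    rw [Finset.mem_range] at hj
    rw [E_vc, E_wc, show m + 1 + j + 1 = m + 2 + j by omega,
      show m + 1 + j + 2 + (t - j) = m + 2 + (t + 1) by omega,
      show m + 1 + 1 + j = m + 2 + j by omega]
  s1' := by
    intro t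
    rw [E_wc]
    have h1 := R_A 0 (t + 2)
    rw [A_row0, if_neg (by omega), zero_add] at h1
    rw [show 0 + 2 + (t + 1) = t + 2 + 1 by omega, h1, ← DA_comm,
      show t + 2 = 0 + 1 + (t + 1) by omega, mul_add', Finset.sum_range_succ _ (t + 1), A_diag, mul_zero,
      add_zero, zero_add]
    apply Finset.sum_congr rfl
    intro j hj
    rw [Finset.mem_range] at hj
    rw [E_vc, E_wc, show j + 1 = 0 + 1 + j by omega,
      show j + 2 + (t - j) = 0 + 1 + (t + 1) by omega]
  s2 := by
    intro s h
    have h1 : (T (s + 1) * A) 0 (0 + (h + 2)) = (A * T (s + 1)) 0 (0 + (h + 2)) := by rw [T_comm]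
    rw [mul_add', mul_add'] at h1
    have h2 : ∑ j ∈ range (h + 2 + 1), A 0 (0 + j) * T (s + 1) (0 + j) (0 + (h + 2)) =
        T (s + 1) 1 (h + 2) := by
      rw [Finset.sum_eq_single 1]
      · rw [A_row0]; simp
      · intro j _ hj
        rw [A_row0, zero_add, if_neg hj, zero_mul]
      · intro hh
        exact absurd (Finset.mem_range.mpr (by omega)) hh
    rw [h2] at h1
    show T (s + 1) 1 (h + 2) = _
    rw [← h1, Finset.sum_range_succ' _ (h + 2), Finset.sum_range_succ _ (h + 1)]
    rw [show (0 : ℕ) + 0 = 0 by omega, T_diag, zero_mul, add_zero,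
      show 0 + (h + 1 + 1) = 0 + (h + 2) by omega, A_diag, mul_zero, add_zero]
    apply Finset.sum_congr rfl
    intro j hj
    rw [Finset.mem_range] at hj
    rw [show 0 + (j + 1) = j + 1 by omega, v_diff, E_wc,
      show j + 2 + (h - j) = 0 + (h + 2) by omega]

/-- powers of `A` -/
lemma R_pow (k : ℕ) : R (A ^ k) ((k : IA) * (A ^ k * D)) := by
  induction k with
  | zero => simpa using R_one
  | succ k ih =>
    have h := R_mul ih R_A
    rw [pow_succ]
    have e : (k : IA) * (A ^ k * D) * A + A ^ k * (A * D) =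
        ((k + 1 : ℕ) : IA) * (A ^ k * A * D) := by
      rw [mul_assoc (k : IA), mul_assoc (A ^ k) D A, DA_comm]
      push_cast
      rw [add_mul, one_mul, ← mul_assoc (A ^ k) A D]
    rw [← e]
    exact h

lemma main_rec (w v P : ℕ → ℕ → ℤ) (H : Sys w v)
    (P0 : ∀ N, P 0 N = if N = 0 then 1 else 0) (P1 : ∀ k, P (k + 1) 0 = 0)
    (P2 : ∀ k N, P (k + 1) (N + 1) = ∑ m ∈ range (N + 1), E w m (N - m) * P k m) :
    ∀ k N, P (k + 1) (N + 1) = P k N + (k + 1) * ∑ j ∈ Icc (k + 1) N, P j N := by
  have hE : ∀ m t, E w m t = A (m + 1) (m + 2 + t) := by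
    intro m t
    rw [← E_wc]
    exact Tr_congr _ _ _ _ _ (fun s' _ h2 => (H.unique sys_c (s' + (t - s')) s' (t - s') rfl).1)
  have hP : ∀ k N, P k N = (A ^ k) 1 (N + 1) := by
    intro k
    induction k with
    | zero =>
      intro N
      rw [P0, pow_zero, IncidenceAlgebra.one_apply]
      by_cases h : N = 0
      · simp [h]
      · rw [if_neg h, if_neg (by omega)]
    | succ k ih =>
      intro N
      rw [pow_succ]
      rcases N with _ | N
      · rw [P1]
        have := mul_add' (A ^ k) A 1 0
        rw [show (0 : ℕ) + 1 = 1 + 0 by omega, this]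
        simp [A_diag]
      · rw [P2, show N + 1 + 1 = 1 + (N + 1) by omega, mul_add', Finset.sum_range_succ _ (N + 1),
          A_diag, mul_zero, add_zero]
        apply Finset.sum_congr rfl
        intro m hm
        rw [Finset.mem_range] at hm
        rw [hE, ih, mul_comm, show m + 2 + (N - m) = 1 + (N + 1) by omega,
          show m + 1 = 1 + m by omega]
  -- the tail sums
  have hQ : ∀ k N, (A ^ k * D) 1 (N + 1) = ∑ j ∈ Icc k N, P j N := by
    intro k N
    -- downward induction on N + 1 - k
    have : ∀ d k, N + 1 - k = d → (A ^ k * D) 1 (N + 1) = ∑ j ∈ Icc k N, P j N := by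
      intro d
      induction d with
      | zero =>
        intro k hk
        rw [Finset.Icc_eq_empty (by omega), Finset.sum_empty]
        have hz : ∀ k g a, g < k → (A ^ k) a (a + g) = 0 := by
          intro k
          induction k with
          | zero => intro g a hg; omega
          | succ k ihk =>
            intro g a hg
            rw [pow_succ, mul_add']
            apply Finset.sum_eq_zero
            intro j hj
            rw [Finset.mem_range] at hj
            by_cases hjk : j < k
            · rw [ihk j a hjk, zero_mul]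
            · have : j = g := by omega
              rw [this, A_diag, mul_zero]
        rw [show N + 1 = 1 + N by omega, mul_add']
        apply Finset.sum_eq_zero
        intro j hj
        rw [Finset.mem_range] at hj
        rw [hz k j 1 (by omega), zero_mul]
      | succ d ihd =>
        intro k hk
        have e1 : A ^ k * D = A ^ k + A ^ (k + 1) * D := by
          conv_lhs => rw [D_eq]
          rw [mul_add, mul_one, pow_succ, mul_assoc]
        rw [e1, IncidenceAlgebra.add_apply, ihd (k + 1) (by omega), ← hP]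
        rw [← Finset.insert_Icc_add_one_left_eq_Icc (by omega : k ≤ N), Finset.sum_insert (by simp)]
    exact this _ k rfl
  intro k N
  have h1 := R_pow (k + 1) 0 (N + 1)
  have e0 : (A ^ (k + 1)) 0 (N + 1) = P k N := by
    rw [pow_succ', show N + 1 = 0 + (N + 1) by omega, mul_add', Finset.sum_eq_single 1]
    · rw [A_row0, hP]; simp
    · intro j _ hj
      rw [A_row0, zero_add, if_neg hj, zero_mul]
    · intro hh
      exact absurd (Finset.mem_range.mpr (by omega)) hh
  have e2 : (((k + 1 : ℕ) : IA) * (A ^ (k + 1) * D)) (0 + 1) (N + 1) =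
      (k + 1) * ∑ j ∈ Icc (k + 1) N, P j N := by
    rw [← hQ, ← nsmul_eq_mul]
    have : ∀ (c : ℕ) (X : IA) a b, (c • X) a b = c * X a b := by
      intro c X a b
      induction c with
      | zero => simp [IncidenceAlgebra.zero_apply]
      | succ c ihc => rw [succ_nsmul, IncidenceAlgebra.add_apply, ihc]; push_cast; ring
    rw [this]
    push_cast
    rfl
  rw [e0, e2] at h1
  rw [hP, ← h1]

end Pool.Agent.H207R3.PCat
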