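import Mathlib

/-!
Inversion sequences (as lists) avoiding 110, counted by zeros.
-/

set_option autoImplicit false

namespace Pool.Agent.H207R3.PCat

open Finset
open scoped Classical

def V : ℕ → List ℕ → Prop
  | _, [] => True
  | c, x :: l => x ≤ c ∧ V (c + 1) l

def A110 : List ℕ → Prop
  | [] => True
  | x :: l => l.Pairwise (fun y z => y = x → x ≤ z) ∧ A110 l

/-- no zero after two ones, `q` ones being already there -/
def Bq : ℕ → List ℕ → Prop
  | _, [] => True
  | q, x :: l => (x = 0 → q ≤ 1) ∧ Bq (if x = 1 then q + 1 else q) l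

noncomputable def fb : ℕ → List ℕ → Finset (List ℕ)
  | _, [] => {[]}
  | q, x :: e =>
    if x = 0 then
      (if q ≤ 1 then (fb q e).image (List.cons 0) else ∅) ∪ (fb (q + 1) e).image (List.cons 1)
    else (fb q e).image (List.cons (x + 1))

lemma mem_fb : ∀ (e l : List ℕ) (q : ℕ), l ∈ fb q e ↔ l.map Nat.pred = e ∧ Bq q l := by
  intro e
  induction e with
  | nil =>
    intro l q
    rw [fb, Finset.mem_singleton, List.map_eq_nil_iff]
    constructor
    · rintro rfl; exact ⟨rfl, trivial⟩
    · rintro ⟨rfl, _⟩; rfl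
  | cons x e ih =>
    intro l q
    rw [fb]
    by_cases hx : x = 0
    · rw [if_pos hx, Finset.mem_union, Finset.mem_image]
      constructor
      · rintro (h | ⟨l', hl', rfl⟩)
        · by_cases hq : q ≤ 1
          · rw [if_pos hq, Finset.mem_image] at h
            obtain ⟨l', hl', rfl⟩ := h
            rw [ih] at hl'
            refine ⟨?_, fun _ => hq, ?_⟩
            · rw [List.map_cons, hl'.1, hx]; rfl
            · rw [if_neg (by omega)]; exact hl'.2
          · rw [if_neg hq] at h; simp at h
        · rw [ih] at hl'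
          refine ⟨?_, fun h => absurd h (by omega), ?_⟩
          · rw [List.map_cons, hl'.1, hx]; rfl
          · rw [if_pos rfl]; exact hl'.2
      · rintro ⟨h1, h2⟩
        rcases l with _ | ⟨y, l⟩
        · simp at h1
        · rw [List.map_cons, List.cons.injEq] at h1
          obtain ⟨h3, h4⟩ := h2
          have hy : y = 0 ∨ y = 1 := by
            have := h1.1
            rw [hx] at this
            have h5 : y - 1 = 0 := this
            omega
          rcases hy with rfl | rfl
          · left
            rw [if_pos (h3 rfl), Finset.mem_image]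
            refine ⟨l, ?_, rfl⟩
            rw [ih]
            rw [if_neg (by omega)] at h4
            exact ⟨h1.2, h4⟩
          · right
            refine ⟨l, ?_, rfl⟩
            rw [ih]
            rw [if_pos rfl] at h4
            exact ⟨h1.2, h4⟩
    · rw [if_neg hx, Finset.mem_image]
      constructor
      · rintro ⟨l', hl', rfl⟩
        rw [ih] at hl'
        refine ⟨?_, fun h => absurd h (by omega), ?_⟩
        · rw [List.map_cons, hl'.1]; rfl
        · rw [if_neg (by omega)]; exact hl'.2
      · rintro ⟨h1, h2⟩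
        rcases l with _ | ⟨y, l⟩
        · simp at h1
        · rw [List.map_cons, List.cons.injEq] at h1
          obtain ⟨h3, h4⟩ := h2
          have h5 : y - 1 = x := h1.1
          have h6 : y = x + 1 := by omega
          rw [if_neg (by omega)] at h4
          refine ⟨l, ?_, by rw [h6]⟩
          rw [ih]
          exact ⟨h1.2, h4⟩

/-- counts of zeros -/
noncomputable def cz (S : Finset (List ℕ)) (r : ℕ) : ℕ := (S.filter (fun l => l.count 0 = r)).card

lemma cz_image_pos (S : Finset (List ℕ)) (x r : ℕ) (hx : x ≠ 0) :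
    cz (S.image (List.cons x)) r = cz S r := by
  unfold cz
  symm
  refine Finset.card_bij (fun l _ => x :: l) ?_ ?_ ?_
  · intro l hl
    rw [Finset.mem_filter] at hl ⊢
    refine ⟨Finset.mem_image_of_mem _ hl.1, ?_⟩
    rw [List.count_cons_of_ne hx, hl.2]
  · intro l _ l' _ h
    exact (List.cons.injEq _ _ _ _ ▸ h).2
  · intro l hl
    rw [Finset.mem_filter] at hl
    obtain ⟨l', hl', rfl⟩ := Finset.mem_image.mp hl.1
    refine ⟨l', ?_, rfl⟩
    rw [Finset.mem_filter]
    refine ⟨hl', ?_⟩
    have := hl.2
    rwa [List.count_cons_of_ne hx] at this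

lemma cz_image_zero (S : Finset (List ℕ)) (r : ℕ) :
    cz (S.image (List.cons 0)) (r + 1) = cz S r := by
  unfold cz
  symm
  refine Finset.card_bij (fun l _ => 0 :: l) ?_ ?_ ?_
  · intro l hl
    rw [Finset.mem_filter] at hl ⊢
    refine ⟨Finset.mem_image_of_mem _ hl.1, ?_⟩
    rw [List.count_cons_self, hl.2]
  · intro l _ l' _ h
    exact (List.cons.injEq _ _ _ _ ▸ h).2
  · intro l hl
    rw [Finset.mem_filter] at hl
    obtain ⟨l', hl', rfl⟩ := Finset.mem_image.mp hl.1
    refine ⟨l', ?_, rfl⟩
    rw [Finset.mem_filter]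
    refine ⟨hl', ?_⟩
    have := hl.2
    rw [List.count_cons_self] at this
    omega

lemma cz_image_zero' (S : Finset (List ℕ)) : cz (S.image (List.cons 0)) 0 = 0 := by
  unfold cz
  rw [Finset.card_eq_zero, Finset.eq_empty_iff_forall_notMem]
  intro l hl
  rw [Finset.mem_filter] at hl
  obtain ⟨l', hl', rfl⟩ := Finset.mem_image.mp hl.1
  have := hl.2
  rw [List.count_cons_self] at this
  omega

lemma cz_union (S T : Finset (List ℕ)) (r : ℕ) :
    cz (S.image (List.cons 0) ∪ T.image (List.cons 1)) r =
      cz (S.image (List.cons 0)) r + cz (T.image (List.cons 1)) r := by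
  unfold cz
  rw [Finset.filter_union, Finset.card_union_of_disjoint]
  rw [Finset.disjoint_left]
  intro l h1 h2
  rw [Finset.mem_filter] at h1 h2
  obtain ⟨l', _, rfl⟩ := Finset.mem_image.mp h1.1
  obtain ⟨l'', _, h⟩ := Finset.mem_image.mp h2.1
  rw [List.cons.injEq] at h
  exact absurd h.1 (by omega)

lemma cz_nil (r : ℕ) : cz {[]} r = if r = 0 then 1 else 0 := by
  unfold cz
  by_cases h : r = 0
  · rw [if_pos h, h]
    have : ({[]} : Finset (List ℕ)).filter (fun l => l.count 0 = 0) = {[]} := by
      ext l
      rw [Finset.mem_filter, Finset.mem_singleton]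
      constructor
      · exact fun h => h.1
      · rintro rfl; exact ⟨rfl, rfl⟩
    rw [this, Finset.card_singleton]
  · rw [if_neg h, Finset.card_eq_zero, Finset.eq_empty_iff_forall_notMem]
    intro l hl
    rw [Finset.mem_filter, Finset.mem_singleton] at hl
    rw [hl.1] at hl
    exact h hl.2.symm

lemma cz_two (e : List ℕ) : ∀ q r, 2 ≤ q → cz (fb q e) r = if r = 0 then 1 else 0 := by
  induction e with
  | nil => intro q r _; rw [fb]; exact cz_nil r
  | cons x e ih =>
    intro q r hq
    rw [fb]
    by_cases hx : x = 0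
    · rw [if_pos hx, if_neg (by omega), Finset.empty_union, cz_image_pos _ _ _ (by omega),
        ih _ _ (by omega)]
    · rw [if_neg hx, cz_image_pos _ _ _ (by omega), ih _ _ hq]

lemma cz_one (e : List ℕ) : ∀ r, cz (fb 1 e) r = if r ≤ e.count 0 then 1 else 0 := by
  induction e with
  | nil => intro r; rw [fb, cz_nil]; simp
  | cons x e ih =>
    intro r
    rw [fb]
    by_cases hx : x = 0
    · rw [if_pos hx, if_pos (by omega), cz_union, cz_image_pos _ 1 _ (by omega),
        cz_two e _ _ (by omega), hx, List.count_cons_self]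
      rcases r with _ | r
      · rw [cz_image_zero']; simp
      · rw [cz_image_zero, ih, if_neg (by omega : ¬ r + 1 = 0), add_zero]
        by_cases h : r ≤ e.count 0
        · rw [if_pos h, if_pos (by omega)]
        · rw [if_neg h, if_neg (by omega)]
    · rw [if_neg hx, cz_image_pos _ _ _ (by omega), ih, List.count_cons_of_ne hx]

lemma cz_fb (e : List ℕ) : ∀ r, cz (fb 0 e) r =
    (if r = e.count 0 then 1 else 0) + (r + 1) * (if r < e.count 0 then 1 else 0) := by
  induction e with
  | nil => intro r; rw [fb, cz_nil, List.count_nil, if_neg (by omega : ¬ r < 0), mul_zero, add_zero]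
  | cons x e ih =>
    intro r
    rw [fb]
    by_cases hx : x = 0
    · rw [if_pos hx, if_pos (by omega), cz_union, cz_image_pos _ 1 _ (by omega),
        cz_one e, hx, List.count_cons_self]
      rcases r with _ | r
      · rw [cz_image_zero']; simp
      · rw [cz_image_zero, ih]
        rcases lt_trichotomy r (e.count 0) with h | h | h
        · rw [if_neg (by omega), if_pos h, if_pos (by omega), if_neg (by omega), if_pos (by omega)]
          ring
        · rw [if_pos h, if_neg (by omega), if_neg (by omega), if_pos (by omega), if_neg (by omega)]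
          ring
        · rw [if_neg (by omega), if_neg (by omega), if_neg (by omega), if_neg (by omega),
            if_neg (by omega)]
          ring
    · rw [if_neg hx, cz_image_pos _ _ _ (by omega), ih, List.count_cons_of_ne hx]

noncomputable def G : ℕ → Finset (List ℕ)
  | 0 => {[]}
  | n + 1 => (G n).biUnion (fun e => (fb 0 e).image (List.cons 0))

lemma V_pred (c : ℕ) (l : List ℕ) : V (c + 1) l ↔ V c (l.map Nat.pred) := by
  induction l generalizing c with
  | nil => simp [V]
  | cons x l ih =>
    rw [List.map_cons]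
    show (x ≤ c + 1 ∧ V (c + 1 + 1) l) ↔ (x - 1 ≤ c ∧ V (c + 1) (l.map Nat.pred))
    rw [ih]
    constructor
    · rintro ⟨h1, h2⟩; exact ⟨by omega, h2⟩
    · rintro ⟨h1, h2⟩; exact ⟨by omega, h2⟩

lemma Bq_two (l : List ℕ) : ∀ q, 2 ≤ q → (Bq q l ↔ ∀ z ∈ l, 1 ≤ z) := by
  induction l with
  | nil => intro q _; simp [Bq]
  | cons x l ih =>
    intro q hq
    have h2 : Bq (if x = 1 then q + 1 else q) l ↔ ∀ z ∈ l, 1 ≤ z := by
      apply ih; split <;> omega
    show ((x = 0 → q ≤ 1) ∧ Bq (if x = 1 then q + 1 else q) l) ↔ _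
    rw [h2]
    constructor
    · rintro ⟨h3, h4⟩ z hz
      rw [List.mem_cons] at hz
      rcases hz with rfl | hz
      · by_contra hc
        have := h3 (by omega)
        omega
      · exact h4 z hz
    · intro h
      refine ⟨fun h0 => ?_, fun z hz => h z (List.mem_cons_of_mem _ hz)⟩
      have := h x (by simp)
      omega

lemma Bq_one (l : List ℕ) : Bq 1 l ↔ l.Pairwise (fun y z => y = 1 → 1 ≤ z) := by
  induction l with
  | nil => simp [Bq]
  | cons x l ih =>
    show ((x = 0 → 1 ≤ 1) ∧ Bq (if x = 1 then 1 + 1 else 1) l) ↔ _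
    rw [List.pairwise_cons]
    by_cases hx : x = 1
    · rw [if_pos hx, Bq_two l 2 le_rfl]
      constructor
      · rintro ⟨_, h⟩
        refine ⟨fun z hz _ => h z hz, ?_⟩
        exact List.pairwise_of_forall_mem_list (fun _ _ z hz _ => h z hz)
      · rintro ⟨h, _⟩
        exact ⟨fun _ => le_rfl, fun z hz => h z hz hx⟩
    · rw [if_neg hx, ih]
      constructor
      · rintro ⟨_, h⟩; exact ⟨fun _ _ h2 => absurd h2 hx, h⟩
      · rintro ⟨_, h⟩; exact ⟨fun _ => le_rfl, h⟩

lemma Bq_mono (l : List ℕ) : ∀ q, Bq (q + 1) l → Bq q l := by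
  induction l with
  | nil => intro q _; trivial
  | cons x l ih =>
    intro q h
    obtain ⟨h1, h2⟩ := h
    refine ⟨fun h0 => by have := h1 h0; omega, ?_⟩
    by_cases hx : x = 1
    · rw [if_pos hx] at h2 ⊢; exact ih _ h2
    · rw [if_neg hx] at h2 ⊢; exact ih _ h2

lemma A110_pred (l : List ℕ) : A110 l ↔ A110 (l.map Nat.pred) ∧ Bq 0 l := by
  induction l with
  | nil => simp [A110, Bq]
  | cons x l ih =>
    rw [List.map_cons]
    show (l.Pairwise (fun y z => y = x → x ≤ z) ∧ A110 l) ↔
      ((l.map Nat.pred).Pairwise (fun y z => y = Nat.pred x → Nat.pred x ≤ z) ∧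
        A110 (l.map Nat.pred)) ∧ ((x = 0 → 0 ≤ 1) ∧ Bq (if x = 1 then 0 + 1 else 0) l)
    rw [ih, List.pairwise_map]
    rcases Nat.lt_or_ge x 1 with h0 | h1
    · have hx : x = 0 := by omega
      subst hx
      rw [if_neg (by omega)]
      have e1 : l.Pairwise (fun y z => y = 0 → 0 ≤ z) :=
        List.pairwise_of_forall_mem_list (fun _ _ _ _ _ => Nat.zero_le _)
      have e2 : l.Pairwise (fun a b => Nat.pred a = Nat.pred 0 → Nat.pred 0 ≤ Nat.pred b) :=
        List.pairwise_of_forall_mem_list (fun _ _ _ _ _ => Nat.zero_le _)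
      constructor
      · rintro ⟨_, h2, h3⟩; exact ⟨⟨e2, h2⟩, fun _ => by omega, h3⟩
      · rintro ⟨⟨_, h2⟩, _, h3⟩; exact ⟨e1, h2, h3⟩
    · rcases Nat.lt_or_ge x 2 with h2 | h2
      · have hx : x = 1 := by omega
        subst hx
        rw [if_pos rfl, zero_add]
        have e2 : l.Pairwise (fun a b => Nat.pred a = Nat.pred 1 → Nat.pred 1 ≤ Nat.pred b) :=
          List.pairwise_of_forall_mem_list (fun _ _ _ _ _ => Nat.zero_le _)
        rw [← Bq_one]
        constructor
        · rintro ⟨h3, h4, _⟩; exact ⟨⟨e2, h4⟩, fun h => absurd h (by omega), h3⟩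
        · rintro ⟨⟨_, h4⟩, _, h3⟩; exact ⟨h3, h4, Bq_mono l 0 h3⟩
      · rw [if_neg (by omega)]
        have e : l.Pairwise (fun y z => y = x → x ≤ z) ↔
            l.Pairwise (fun a b => Nat.pred a = Nat.pred x → Nat.pred x ≤ Nat.pred b) := by
          have : (fun y z : ℕ => y = x → x ≤ z) =
              (fun a b : ℕ => Nat.pred a = Nat.pred x → Nat.pred x ≤ Nat.pred b) := by
            funext y z
            rw [eq_iff_iff]
            show _ ↔ (y - 1 = x - 1 → x - 1 ≤ z - 1)
            constructor
            · intro h hy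
              have := h (by omega)
              omega
            · intro h hy
              have := h (by omega)
              omega
          rw [this]
        rw [e]
        constructor
        · rintro ⟨h3, h4, h5⟩; exact ⟨⟨h3, h4⟩, fun h => absurd h (by omega), h5⟩
        · rintro ⟨⟨h3, h4⟩, _, h5⟩; exact ⟨h3, h4, h5⟩

lemma A110_zero (l : List ℕ) : A110 (0 :: l) ↔ A110 l := by
  show (l.Pairwise (fun y z => y = 0 → 0 ≤ z) ∧ A110 l) ↔ _
  constructor
  · intro h; exact h.2
  · intro h
    exact ⟨List.pairwise_of_forall_mem_list (fun _ _ _ _ _ => Nat.zero_le _), h⟩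

lemma mem_G (n : ℕ) : ∀ l : List ℕ, l ∈ G n ↔ l.length = n ∧ V 0 l ∧ A110 l := by
  induction n with
  | zero =>
    intro l
    rw [G, Finset.mem_singleton]
    constructor
    · rintro rfl; exact ⟨rfl, trivial, trivial⟩
    · rintro ⟨h, _⟩; exact List.length_eq_zero_iff.mp h
  | succ n ih =>
    intro l
    rw [G, Finset.mem_biUnion]
    constructor
    · rintro ⟨e, he, hl⟩
      obtain ⟨l', hl', rfl⟩ := Finset.mem_image.mp hl
      rw [mem_fb] at hl'
      rw [ih] at he
      obtain ⟨h1, h2, h3⟩ := he
      obtain ⟨h4, h5⟩ := hl'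
      refine ⟨?_, ⟨le_rfl, ?_⟩, ?_⟩
      · rw [List.length_cons, ← h1, ← h4, List.length_map]
      · rw [V_pred, h4]; exact h2
      · rw [A110_zero, A110_pred, h4]; exact ⟨h3, h5⟩
    · rintro ⟨h1, h2, h3⟩
      rcases l with _ | ⟨x, l⟩
      · simp at h1
      · obtain ⟨hx, hV⟩ := h2
        have hx0 : x = 0 := by omega
        subst hx0
        rw [V_pred] at hV
        rw [A110_zero, A110_pred] at h3
        refine ⟨l.map Nat.pred, ?_, ?_⟩
        · rw [ih]
          refine ⟨?_, hV, h3.1⟩
          rw [List.length_map]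
          rw [List.length_cons] at h1
          omega
        · apply Finset.mem_image_of_mem
          rw [mem_fb]
          exact ⟨rfl, h3.2⟩

noncomputable def ic (k n : ℕ) : ℕ := cz (G n) k

lemma count_le (n : ℕ) (l : List ℕ) (h : l ∈ G n) : l.count 0 ≤ n := by
  have := ((mem_G n l).mp h).1
  rw [← this]
  exact List.count_le_length

lemma ic_rec (k n : ℕ) : ic (k + 1) (n + 1) = ic k n + (k + 1) * ∑ j ∈ Icc (k + 1) n, ic j n := by
  have h1 : ic (k + 1) (n + 1) = ∑ e ∈ G n, cz (fb 0 e) k := by
    unfold ic cz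
    rw [G, Finset.filter_biUnion, Finset.card_biUnion]
    · apply Finset.sum_congr rfl
      intro e _
      exact cz_image_zero (fb 0 e) k
    · intro e _ e' _ hne
      rw [Function.onFun, Finset.disjoint_left]
      intro l hl hl'
      rw [Finset.mem_filter] at hl hl'
      obtain ⟨l1, hl1, rfl⟩ := Finset.mem_image.mp hl.1
      obtain ⟨l2, hl2, h2⟩ := Finset.mem_image.mp hl'.1
      rw [List.cons.injEq] at h2
      rw [mem_fb] at hl1 hl2
      apply hne
      rw [← hl1.1, ← hl2.1, h2.2]
  rw [h1]
  simp_rw [cz_fb]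
  rw [Finset.sum_add_distrib, ← Finset.mul_sum]
  congr 1
  · unfold ic cz
    rw [Finset.card_filter]
    apply Finset.sum_congr rfl
    intro e _
    by_cases h : k = e.count 0
    · rw [if_pos h, if_pos h.symm]
    · rw [if_neg h, if_neg (fun h' => h h'.symm)]
  · congr 1
    unfold ic cz
    simp_rw [Finset.card_filter]
    rw [Finset.sum_comm]
    apply Finset.sum_congr rfl
    intro e he
    have hle := count_le n e he
    by_cases h : k < e.count 0
    · rw [if_pos h]
      symm
      rw [Finset.sum_eq_single (e.count 0)]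
      · rw [if_pos rfl]
      · intro j _ hj; rw [if_neg (fun h' => hj h'.symm)]
      · intro hh
        exact absurd (Finset.mem_Icc.mpr ⟨by omega, hle⟩) hh
    · rw [if_neg h]
      symm
      apply Finset.sum_eq_zero
      intro j hj
      rw [Finset.mem_Icc] at hj
      rw [if_neg (by omega)]

lemma ic0 (n : ℕ) : ic 0 n = if n = 0 then 1 else 0 := by
  unfold ic
  rcases n with _ | n
  · rw [G, cz_nil]
  · rw [if_neg (by omega)]
    unfold cz
    rw [Finset.card_eq_zero, Finset.eq_empty_iff_forall_notMem]
    intro l hl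
    rw [Finset.mem_filter, G, Finset.mem_biUnion] at hl
    obtain ⟨⟨e, _, he⟩, hc⟩ := hl
    obtain ⟨l', _, rfl⟩ := Finset.mem_image.mp he
    rw [List.count_cons_self] at hc
    omega

lemma ic1 (k : ℕ) : ic (k + 1) 0 = 0 := by
  unfold ic
  rw [G, cz_nil, if_neg (by omega)]

end Pool.Agent.H207R3.PCat
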