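import Mathlib
import Pool.Agent.H207R3.PCatAlg

/-!
Arrangements (lists) avoiding the vincular pattern 23-1-4.
-/

set_option autoImplicit false

namespace Pool.Agent.H207R3.PCat

open Finset
open scoped Classical

/-- avoidance of 23-1-4 -/
def Av : List ℕ → Prop
  | [] => True
  | [_] => True
  | x :: y :: l => (x < y → l.Pairwise (fun z w => z < x → w ≤ y)) ∧ Av (y :: l)

/-- all ascent tops are at least `θ` -/
def Ch (θ : ℕ) : List ℕ → Prop
  | [] => True
  | [_] => True
  | x :: y :: l => (x < y → θ ≤ y) ∧ Ch θ (y :: l)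

def Hd (θ : ℕ) : List ℕ → Prop
  | [] => True
  | x :: _ => θ ≤ x

/-- number of right-to-left minima -/
def rm : List ℕ → ℕ
  | [] => 0
  | x :: l => rm l + if ∀ y ∈ l, x < y then 1 else 0

lemma pw_of (r : ℕ → ℕ → Prop) (l : List ℕ) (h : ∀ a ∈ l, ∀ b ∈ l, r a b) : l.Pairwise r := by
  induction l with
  | nil => exact List.Pairwise.nil
  | cons x l ih =>
    rw [List.pairwise_cons]
    exact ⟨fun b hb => h x (by simp) b (by simp [hb]),
      ih (fun a ha b hb => h a (by simp [ha]) b (by simp [hb]))⟩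

lemma Av_split (f : ℕ) (β : List ℕ) : ∀ α : List ℕ, (∀ x ∈ α, f < x) →
    (Av (α ++ f :: β) ↔ Av α ∧ Ch (β.toFinset.sup id) α ∧ Av (f :: β)) := by
  intro α
  induction α with
  | nil => intro _; simp [Av, Ch]
  | cons x α ih =>
    intro h
    rcases α with _ | ⟨y, α⟩
    · have hx : f < x := h x (by simp)
      simp only [List.cons_append, List.nil_append, Av, Ch, true_and]
      constructor
      · intro h1; exact h1.2
      · intro h1; exact ⟨fun h2 => absurd h2 (by omega), h1⟩
    · have hx : f < x := h x (by simp)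
      have hy : f < y := h y (by simp)
      have ih' := ih (fun z hz => h z (by simp at hz ⊢; tauto))
      have e1 : Av (x :: y :: α ++ f :: β) ↔
          (x < y → (α ++ f :: β).Pairwise (fun z w => z < x → w ≤ y)) ∧ Av (y :: α ++ f :: β) := by
        rfl
      rw [e1, ih']
      have e2 : (α ++ f :: β).Pairwise (fun z w => z < x → w ≤ y) ↔
          α.Pairwise (fun z w => z < x → w ≤ y) ∧ β.toFinset.sup id ≤ y := by
        rw [List.pairwise_append, List.pairwise_cons]
        constructor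
        · rintro ⟨h1, ⟨h2, h3⟩, h4⟩
          refine ⟨h1, Finset.sup_le ?_⟩
          intro w hw
          rw [List.mem_toFinset] at hw
          exact h2 w hw hx
        · rintro ⟨h1, h2⟩
          have h2' : ∀ w ∈ β, w ≤ y := by
            intro w hw
            exact le_trans (Finset.le_sup (f := id) (List.mem_toFinset.mpr hw)) h2
          refine ⟨h1, ⟨fun w hw _ => h2' w hw, ?_⟩, ?_⟩
          · exact pw_of _ _ (fun _ _ w hw _ => h2' w hw)
          · intro a _ b hb _
            rw [List.mem_cons] at hb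
            rcases hb with rfl | hb
            · exact hy.le
            · exact h2' b hb
      rw [e2]
      simp only [Av, Ch]
      constructor
      · rintro ⟨h1, h2, h3, h4⟩
        exact ⟨⟨fun h => (h1 h).1, h2⟩, ⟨fun h => (h1 h).2, h3⟩, h4⟩
      · rintro ⟨⟨h1, h2⟩, ⟨h3, h4⟩, h5⟩
        exact ⟨fun h => ⟨h1 h, h3 h⟩, h2, h4, h5⟩

lemma Ch_split (θ f : ℕ) (β : List ℕ) : ∀ α : List ℕ, (∀ x ∈ α, f < x) →
    (Ch θ (α ++ f :: β) ↔ Ch θ α ∧ Ch θ (f :: β)) := by
  intro α
  induction α with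
  | nil => intro _; simp [Ch]
  | cons x α ih =>
    intro h
    rcases α with _ | ⟨y, α⟩
    · have hx : f < x := h x (by simp)
      simp only [List.cons_append, List.nil_append, Ch, true_and]
      constructor
      · intro h1; exact h1.2
      · intro h1; exact ⟨fun h2 => absurd h2 (by omega), h1⟩
    · have ih' := ih (fun z hz => h z (by simp at hz ⊢; tauto))
      have e1 : Ch θ (x :: y :: α ++ f :: β) ↔ (x < y → θ ≤ y) ∧ Ch θ (y :: α ++ f :: β) := by
        rfl
      rw [e1, ih']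
      simp only [Ch]
      tauto

lemma Ch_max (θ θ' : ℕ) : ∀ α : List ℕ, (Ch (max θ θ') α ↔ Ch θ α ∧ Ch θ' α) := by
  intro α
  induction α with
  | nil => simp [Ch]
  | cons x α ih =>
    rcases α with _ | ⟨y, α⟩
    · simp [Ch]
    · simp only [Ch]
      rw [ih, max_le_iff]
      tauto

lemma Ch_zero : ∀ α : List ℕ, Ch 0 α := by
  intro α
  induction α with
  | nil => simp [Ch]
  | cons x α ih =>
    rcases α with _ | ⟨y, α⟩
    · simp [Ch]
    · exact ⟨fun _ => Nat.zero_le _, ih⟩

lemma Ch_of_le (θ : ℕ) : ∀ α : List ℕ, (∀ x ∈ α, θ ≤ x) → Ch θ α := by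
  intro α
  induction α with
  | nil => simp [Ch]
  | cons x α ih =>
    intro h
    rcases α with _ | ⟨y, α⟩
    · simp [Ch]
    · exact ⟨fun _ => h y (by simp), ih (fun z hz => h z (by simp at hz ⊢; tauto))⟩

lemma Av_cons_min (μ : ℕ) (β : List ℕ) (h : ∀ x ∈ β, μ < x) : Av (μ :: β) ↔ Av β := by
  rcases β with _ | ⟨y, β⟩
  · simp [Av]
  · simp only [Av]
    constructor
    · intro h1; exact h1.2
    · intro h1
      refine ⟨fun _ => ?_, h1⟩
      refine pw_of _ _ ?_
      intro z hz w _ hzμ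
      have := h z (by simp [hz])
      omega

lemma Ch_cons_min (θ μ : ℕ) (β : List ℕ) (h : ∀ x ∈ β, μ < x) :
    Ch θ (μ :: β) ↔ Ch θ β ∧ Hd θ β := by
  rcases β with _ | ⟨y, β⟩
  · simp [Ch, Hd]
  · simp only [Ch, Hd]
    have := h y (by simp)
    tauto

lemma rm_split (μ : ℕ) (β : List ℕ) (hβ : ∀ x ∈ β, μ < x) : ∀ α : List ℕ, (∀ x ∈ α, μ < x) →
    rm (α ++ μ :: β) = rm β + 1 := by
  intro α
  induction α with
  | nil =>
    intro _
    show rm β + (if ∀ y ∈ β, μ < y then 1 else 0) = rm β + 1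
    rw [if_pos hβ]
  | cons x α ih =>
    intro h
    show rm (α ++ μ :: β) + (if ∀ y ∈ α ++ μ :: β, x < y then 1 else 0) = _
    rw [if_neg, ih (fun z hz => h z (by simp [hz])), add_zero]
    intro h2
    have h3 := h2 μ (by simp)
    have h4 := h x (by simp)
    omega

/-- arrangements of a finite set -/
def Arr (T : Finset ℕ) : Finset (List ℕ) := ⟨T.val.lists, Multiset.lists_nodup_finset T⟩

lemma mem_Arr {T : Finset ℕ} {l : List ℕ} : l ∈ Arr T ↔ l.Nodup ∧ l.toFinset = T := by
  show l ∈ T.val.lists ↔ _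
  rw [Multiset.mem_lists_iff]
  constructor
  · intro h
    have hn : l.Nodup := by
      have := T.nodup
      rw [h] at this
      exact this
    refine ⟨hn, ?_⟩
    rw [← List.toFinset_eq hn]
    apply Finset.val_injective
    exact h.symm
  · rintro ⟨h1, h2⟩
    rw [← h2, ← List.toFinset_eq h1]
    rfl

noncomputable def FS (T : Finset ℕ) (p : List ℕ → Prop) : Finset (List ℕ) := (Arr T).filter p

lemma mem_FS {T : Finset ℕ} {p : List ℕ → Prop} {l : List ℕ} :
    l ∈ FS T p ↔ (l.Nodup ∧ l.toFinset = T) ∧ p l := by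
  unfold FS
  rw [Finset.mem_filter, mem_Arr]

noncomputable def Cnt (T : Finset ℕ) (p : List ℕ → Prop) : ℕ := (FS T p).card

lemma Cnt_congr (T : Finset ℕ) (p q : List ℕ → Prop) (h : ∀ l ∈ Arr T, (p l ↔ q l)) :
    Cnt T p = Cnt T q := by
  unfold Cnt FS
  rw [Finset.filter_congr h]

lemma append_cons_inj {μ : ℕ} : ∀ {α α' β β' : List ℕ}, μ ∉ α → μ ∉ α' →
    α ++ μ :: β = α' ++ μ :: β' → α = α' ∧ β = β' := by
  intro α
  induction α with
  | nil =>
    intro α' β β' _ h2 h
    rcases α' with _ | ⟨y, α'⟩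
    · simp at h; exact ⟨rfl, h⟩
    · simp only [List.nil_append, List.cons_append, List.cons.injEq] at h
      exact absurd (by simp [h.1]) h2
  | cons x α ih =>
    intro α' β β' h1 h2 h
    rcases α' with _ | ⟨y, α'⟩
    · simp only [List.nil_append, List.cons_append, List.cons.injEq] at h
      exact absurd (by simp [h.1]) h1
    · simp only [List.cons_append, List.cons.injEq] at h
      obtain ⟨e1, e2⟩ := ih (fun hh => h1 (by simp [hh])) (fun hh => h2 (by simp [hh])) h.2
      exact ⟨by rw [h.1, e1], e2⟩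

theorem cnt_split (T' : Finset ℕ) (μ : ℕ) (hμ : μ ∉ T') (p : List ℕ → Prop)
    (a b : Finset ℕ → List ℕ → Prop)
    (h : ∀ B ⊆ T', ∀ α ∈ Arr (T' \ B), ∀ β ∈ Arr B, (p (α ++ μ :: β) ↔ a B α ∧ b B β)) :
    Cnt (insert μ T') p = ∑ B ∈ T'.powerset, Cnt (T' \ B) (a B) * Cnt B (b B) := by
  symm
  unfold Cnt FS
  simp_rw [← Finset.card_product]
  rw [← Finset.card_sigma]
  refine Finset.card_bij (fun x _ => x.2.1 ++ μ :: x.2.2) ?_ ?_ ?_
  · rintro ⟨B, α, β⟩ hx
    simp only [Finset.mem_sigma, Finset.mem_powerset, Finset.mem_product, Finset.mem_filter] at hx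
    obtain ⟨hB, ⟨hα, ha⟩, hβ, hb⟩ := hx
    rw [Finset.mem_filter]
    refine ⟨?_, (h B hB α hα β hβ).mpr ⟨ha, hb⟩⟩
    rw [mem_Arr] at hα hβ ⊢
    constructor
    · rw [List.nodup_append, List.nodup_cons]
      refine ⟨hα.1, ⟨?_, hβ.1⟩, ?_⟩
      · intro hm
        exact hμ (hB (hβ.2 ▸ List.mem_toFinset.mpr hm))
      · intro x hx y hy
        have hx' : x ∈ T' \ B := hα.2 ▸ List.mem_toFinset.mpr hx
        rw [Finset.mem_sdiff] at hx'
        rw [List.mem_cons] at hy
        rintro rfl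
        rcases hy with rfl | hy
        · exact hμ hx'.1
        · exact hx'.2 (hβ.2 ▸ List.mem_toFinset.mpr hy)
    · rw [List.toFinset_append, List.toFinset_cons, hα.2, hβ.2]
      ext x
      simp only [Finset.mem_union, Finset.mem_sdiff, Finset.mem_insert]
      have := @hB x
      tauto
  · rintro ⟨B, α, β⟩ hx ⟨B', α', β'⟩ hx' heq
    simp only [Finset.mem_sigma, Finset.mem_powerset, Finset.mem_product, Finset.mem_filter,
      mem_Arr] at hx hx'
    simp only at heq
    have h1 : μ ∉ α := by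
      intro hm
      have : μ ∈ T' \ B := hx.2.1.1.2 ▸ List.mem_toFinset.mpr hm
      exact hμ (Finset.mem_sdiff.mp this).1
    have h2 : μ ∉ α' := by
      intro hm
      have : μ ∈ T' \ B' := hx'.2.1.1.2 ▸ List.mem_toFinset.mpr hm
      exact hμ (Finset.mem_sdiff.mp this).1
    obtain ⟨rfl, rfl⟩ := append_cons_inj h1 h2 heq
    have : B = B' := by rw [← hx.2.2.1.2, ← hx'.2.2.1.2]
    subst this
    rfl
  · intro l hl
    rw [Finset.mem_filter, mem_Arr] at hl
    have hmem : μ ∈ l := by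
      have : μ ∈ l.toFinset := by rw [hl.1.2]; exact Finset.mem_insert_self _ _
      exact List.mem_toFinset.mp this
    obtain ⟨α, β, rfl⟩ := List.append_of_mem hmem
    obtain ⟨⟨hn, hT⟩, hp⟩ := hl
    rw [List.nodup_append, List.nodup_cons] at hn
    obtain ⟨hn1, ⟨hn2, hn3⟩, hn4⟩ := hn
    have hβT : β.toFinset ⊆ T' := by
      intro x hx
      have hx1 : x ∈ (α ++ μ :: β).toFinset := by
        rw [List.mem_toFinset] at hx ⊢; simp [hx]
      rw [hT, Finset.mem_insert] at hx1
      rcases hx1 with rfl | hx1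
      · exact absurd (List.mem_toFinset.mp hx) hn2
      · exact hx1
    have hαT : α.toFinset = T' \ β.toFinset := by
      ext x
      rw [Finset.mem_sdiff, List.mem_toFinset, List.mem_toFinset]
      constructor
      · intro hx
        have hx1 : x ∈ (α ++ μ :: β).toFinset := by
          rw [List.mem_toFinset]; simp [hx]
        rw [hT, Finset.mem_insert] at hx1
        refine ⟨?_, fun hx2 => hn4 x hx x (by simp [hx2]) rfl⟩
        rcases hx1 with rfl | hx1
        · exact absurd rfl (hn4 x hx x (by simp))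
        · exact hx1
      · rintro ⟨hx1, hx2⟩
        have hx3 : x ∈ (α ++ μ :: β).toFinset := by
          rw [hT, Finset.mem_insert]; exact Or.inr hx1
        rw [List.mem_toFinset, List.mem_append, List.mem_cons] at hx3
        rcases hx3 with h3 | rfl | h3
        · exact h3
        · exact absurd hx1 hμ
        · exact absurd h3 hx2
    have hα : α ∈ Arr (T' \ β.toFinset) := mem_Arr.mpr ⟨hn1, hαT⟩
    have hβ : β ∈ Arr β.toFinset := mem_Arr.mpr ⟨hn3, rfl⟩
    have hab := (h β.toFinset hβT α hα β hβ).mp hp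
    refine ⟨⟨β.toFinset, α, β⟩, ?_, rfl⟩
    simp only [Finset.mem_sigma, Finset.mem_powerset, Finset.mem_product, Finset.mem_filter]
    exact ⟨hβT, ⟨hα, hab.1⟩, hβ, hab.2⟩

/-- the basic counts -/
noncomputable def W (T : Finset ℕ) (θ : ℕ) : ℕ := Cnt T (fun l => Av l ∧ Ch θ l)
noncomputable def Wh (T : Finset ℕ) (θ : ℕ) : ℕ := Cnt T (fun l => Av l ∧ Ch θ l ∧ Hd θ l)
noncomputable def PP (k : ℕ) (T : Finset ℕ) : ℕ := Cnt T (fun l => Av l ∧ rm l = k)

theorem D1 (T' : Finset ℕ) (μ θ : ℕ) (hμ : ∀ x ∈ T', μ < x) :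
    W (insert μ T') θ = ∑ B ∈ T'.powerset, W (T' \ B) (max θ (B.sup id)) * Wh B θ := by
  apply cnt_split T' μ (fun h => lt_irrefl _ (hμ μ h)) _
    (fun B l => Av l ∧ Ch (max θ (B.sup id)) l) (fun B l => Av l ∧ Ch θ l ∧ Hd θ l)
  intro B hB α hα β hβ
  rw [mem_Arr] at hα hβ
  have h1 : ∀ x ∈ α, μ < x := by
    intro x hx
    have : x ∈ T' \ B := hα.2 ▸ List.mem_toFinset.mpr hx
    exact hμ x (Finset.mem_sdiff.mp this).1
  have h2 : ∀ x ∈ β, μ < x := by
    intro x hx
    exact hμ x (hB (hβ.2 ▸ List.mem_toFinset.mpr hx))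
  rw [Av_split μ β α h1, Ch_split θ μ β α h1, Av_cons_min μ β h2, Ch_cons_min θ μ β h2, Ch_max,
    hβ.2]
  tauto

theorem D2 (T' : Finset ℕ) (μ k : ℕ) (hμ : ∀ x ∈ T', μ < x) :
    PP (k + 1) (insert μ T') = ∑ B ∈ T'.powerset, W (T' \ B) (B.sup id) * PP k B := by
  apply cnt_split T' μ (fun h => lt_irrefl _ (hμ μ h)) _
    (fun B l => Av l ∧ Ch (B.sup id) l) (fun B l => Av l ∧ rm l = k)
  intro B hB α hα β hβ
  rw [mem_Arr] at hα hβ
  have h1 : ∀ x ∈ α, μ < x := by
    intro x hx
    have : x ∈ T' \ B := hα.2 ▸ List.mem_toFinset.mpr hx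
    exact hμ x (Finset.mem_sdiff.mp this).1
  have h2 : ∀ x ∈ β, μ < x := by
    intro x hx
    exact hμ x (hB (hβ.2 ▸ List.mem_toFinset.mpr hx))
  rw [Av_split μ β α h1, Av_cons_min μ β h2, rm_split μ β h2 α h1, hβ.2, Nat.add_right_cancel_iff]
  tauto

lemma Ch_congr (θ θ' : ℕ) : ∀ α : List ℕ, (∀ y ∈ α, (θ ≤ y ↔ θ' ≤ y)) → (Ch θ α ↔ Ch θ' α) := by
  intro α
  induction α with
  | nil => intro _; simp [Ch]
  | cons x α ih =>
    intro h
    rcases α with _ | ⟨y, α⟩
    · simp [Ch]
    · simp only [Ch]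
      rw [ih (fun z hz => h z (List.mem_cons_of_mem _ hz)), h y (by simp)]

noncomputable def N1 (T : Finset ℕ) (θ : ℕ) : ℕ := Cnt T (fun l => Av l ∧ Ch θ l ∧ ¬ Hd θ l)

lemma append_inj_hd {θ : ℕ} : ∀ {α α' β β' : List ℕ}, (∀ x ∈ α, θ ≤ x) → (∀ x ∈ α', θ ≤ x) →
    ¬ Hd θ β → ¬ Hd θ β' → α ++ β = α' ++ β' → α = α' ∧ β = β' := by
  intro α
  induction α with
  | nil =>
    intro α' β β' _ h2 h3 _ h
    rcases α' with _ | ⟨y, α'⟩
    · simp at h; exact ⟨rfl, h⟩
    · exfalso
      apply h3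
      rw [List.nil_append] at h
      rw [h]
      exact h2 y (by simp)
  | cons x α ih =>
    intro α' β β' h1 h2 h3 h4 h
    rcases α' with _ | ⟨y, α'⟩
    · exfalso
      apply h4
      rw [List.nil_append] at h
      rw [← h]
      exact h1 x (by simp)
    · simp only [List.cons_append, List.cons.injEq] at h
      obtain ⟨e1, e2⟩ := ih (fun z hz => h1 z (by simp [hz])) (fun z hz => h2 z (by simp [hz])) h3 h4 h.2
      exact ⟨by rw [h.1, e1], e2⟩

lemma first_small (θ : ℕ) : ∀ l : List ℕ, (∃ x ∈ l, x < θ) →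
    ∃ α f β, l = α ++ f :: β ∧ (∀ x ∈ α, θ ≤ x) ∧ f < θ := by
  intro l
  induction l with
  | nil => rintro ⟨x, hx, _⟩; simp at hx
  | cons x l ih =>
    intro h
    by_cases hx : x < θ
    · exact ⟨[], x, l, rfl, by simp, hx⟩
    · have : ∃ x ∈ l, x < θ := by
        obtain ⟨z, hz, hz2⟩ := h
        rw [List.mem_cons] at hz
        rcases hz with rfl | hz
        · exact absurd hz2 hx
        · exact ⟨z, hz, hz2⟩
      obtain ⟨α, f, β, e, h1, h2⟩ := ih this
      refine ⟨x :: α, f, β, by rw [e]; rfl, ?_, h2⟩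
      intro z hz
      rw [List.mem_cons] at hz
      rcases hz with rfl | hz
      · omega
      · exact h1 z hz

theorem D3 (S' Big : Finset ℕ) (θ : ℕ) (hS : ∀ x ∈ S', x < θ) (hne : S'.Nonempty)
    (hBig : ∀ x ∈ Big, θ ≤ x) :
    W (S' ∪ Big) θ = ∑ H ∈ Big.powerset, W (Big \ H) (H.sup id) * N1 (S' ∪ H) θ := by
  symm
  unfold W N1 Cnt
  simp_rw [← Finset.card_product]
  rw [← Finset.card_sigma]
  have key : ∀ (H : Finset ℕ) (α β : List ℕ) (f : ℕ), H ⊆ Big → α.toFinset = Big \ H →
      (f :: β).toFinset = S' ∪ H → f < θ →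
      (Ch (β.toFinset.sup id) α ↔ Ch (H.sup id) α) := by
    intro H α β f hH hα hβ hf
    apply Ch_congr
    intro y hy
    have hy' : y ∈ Big \ H := hα ▸ List.mem_toFinset.mpr hy
    have hyθ := hBig y (Finset.mem_sdiff.mp hy').1
    rw [Finset.sup_le_iff, Finset.sup_le_iff]
    constructor
    · intro h b hb
      have : b ∈ (f :: β).toFinset := by rw [hβ]; exact Finset.mem_union_right _ hb
      rw [List.mem_toFinset, List.mem_cons] at this
      rcases this with rfl | hb2
      · have := hBig b (hH hb); omega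
      · exact h b (List.mem_toFinset.mpr hb2)
    · intro h b hb
      have : b ∈ S' ∪ H := by
        rw [← hβ, List.toFinset_cons]
        exact Finset.mem_insert_of_mem hb
      rw [Finset.mem_union] at this
      rcases this with hb2 | hb2
      · have := hS b hb2
        show b ≤ y
        omega
      · exact h b hb2
  refine Finset.card_bij (fun x _ => x.2.1 ++ x.2.2) ?_ ?_ ?_
  · rintro ⟨H, α, β⟩ hx
    simp only [Finset.mem_sigma, Finset.mem_powerset, Finset.mem_product, mem_FS] at hx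
    obtain ⟨hH, ⟨⟨hα1, hα2⟩, hα3, hα4⟩, ⟨hβ1, hβ2⟩, hβ3, hβ4, hβ5⟩ := hx
    rw [mem_FS]
    rcases β with _ | ⟨f, β⟩
    · exact absurd trivial hβ5
    · have hf : f < θ := by
        by_contra hc
        exact hβ5 (by show θ ≤ f; omega)
      have hαθ : ∀ x ∈ α, θ ≤ x := by
        intro x hx
        have : x ∈ Big \ H := hα2 ▸ List.mem_toFinset.mpr hx
        exact hBig x (Finset.mem_sdiff.mp this).1
      have hfα : ∀ x ∈ α, f < x := fun x hx => lt_of_lt_of_le hf (hαθ x hx)
      refine ⟨⟨?_, ?_⟩, ?_, ?_⟩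
      · rw [List.nodup_append]
        refine ⟨hα1, hβ1, ?_⟩
        intro x hx y hy
        rintro rfl
        have h1 : x ∈ Big \ H := hα2 ▸ List.mem_toFinset.mpr hx
        have h2 : x ∈ S' ∪ H := hβ2 ▸ List.mem_toFinset.mpr hy
        rw [Finset.mem_sdiff] at h1
        rw [Finset.mem_union] at h2
        rcases h2 with h2 | h2
        · have := hS x h2; have := hBig x h1.1; omega
        · exact h1.2 h2
      · simp only
        rw [List.toFinset_append, hα2, hβ2]
        ext x
        simp only [Finset.mem_union, Finset.mem_sdiff]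
        have := @hH x
        tauto
      · show Av (α ++ f :: β)
        rw [Av_split f β α hfα]
        exact ⟨hα3, (key H α β f hH hα2 hβ2 hf).mpr hα4, hβ3⟩
      · show Ch θ (α ++ f :: β)
        rw [Ch_split θ f β α hfα]
        exact ⟨Ch_of_le θ α hαθ, hβ4⟩
  · rintro ⟨H, α, β⟩ hx ⟨H', α', β'⟩ hx' heq
    simp only [Finset.mem_sigma, Finset.mem_powerset, Finset.mem_product, mem_FS] at hx hx'
    simp only at heq
    obtain ⟨hH, ⟨⟨hα1, hα2⟩, hα3, hα4⟩, ⟨hβ1, hβ2⟩, hβ3, hβ4, hβ5⟩ := hx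
    obtain ⟨hH', ⟨⟨hα1', hα2'⟩, hα3', hα4'⟩, ⟨hβ1', hβ2'⟩, hβ3', hβ4', hβ5'⟩ := hx'
    obtain ⟨rfl, rfl⟩ := append_inj_hd (θ := θ) (by
      intro x hx
      have : x ∈ Big \ H := hα2 ▸ List.mem_toFinset.mpr hx
      exact hBig x (Finset.mem_sdiff.mp this).1) (by
      intro x hx
      have : x ∈ Big \ H' := hα2' ▸ List.mem_toFinset.mpr hx
      exact hBig x (Finset.mem_sdiff.mp this).1) hβ5 hβ5' heq
    have : H = H' := by
      ext x
      constructor
      · intro hx
        have : x ∈ S' ∪ H' := by rw [← hβ2', hβ2]; exact Finset.mem_union_right _ hx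
        rw [Finset.mem_union] at this
        rcases this with h | h
        · have := hS x h; have := hBig x (hH hx); omega
        · exact h
      · intro hx
        have : x ∈ S' ∪ H := by rw [← hβ2, hβ2']; exact Finset.mem_union_right _ hx
        rw [Finset.mem_union] at this
        rcases this with h | h
        · have := hS x h; have := hBig x (hH' hx); omega
        · exact h
    subst this
    rfl
  · intro l hl
    rw [mem_FS] at hl
    obtain ⟨⟨hn, hT⟩, hAv, hCh⟩ := hl
    obtain ⟨α, f, β, rfl, hαθ, hf⟩ := first_small θ l (by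
      obtain ⟨x, hx⟩ := hne
      refine ⟨x, ?_, hS x hx⟩
      rw [← List.mem_toFinset, hT]
      exact Finset.mem_union_left _ hx)
    rw [List.nodup_append] at hn
    obtain ⟨hn1, hn2, hn3⟩ := hn
    have hfα : ∀ x ∈ α, f < x := fun x hx => lt_of_lt_of_le hf (hαθ x hx)
    set H : Finset ℕ := (f :: β).toFinset.filter (fun x => θ ≤ x) with hHdef
    have hsub : ∀ x ∈ α ++ f :: β, x ∈ S' ∪ Big := by
      intro x hx
      rw [← hT]; exact List.mem_toFinset.mpr hx
    have hH : H ⊆ Big := by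
      intro x hx
      rw [hHdef, Finset.mem_filter, List.mem_toFinset] at hx
      have := hsub x (List.mem_append_right _ hx.1)
      rw [Finset.mem_union] at this
      rcases this with h | h
      · have := hS x h; omega
      · exact h
    have hα2 : α.toFinset = Big \ H := by
      ext x
      rw [List.mem_toFinset, Finset.mem_sdiff]
      constructor
      · intro hx
        have h1 := hsub x (List.mem_append_left _ hx)
        have h2 := hαθ x hx
        rw [Finset.mem_union] at h1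
        refine ⟨?_, ?_⟩
        · rcases h1 with h | h
          · have := hS x h; omega
          · exact h
        · intro hxH
          rw [hHdef, Finset.mem_filter, List.mem_toFinset] at hxH
          exact hn3 x hx x hxH.1 rfl
      · rintro ⟨h1, h2⟩
        have h3 : x ∈ α ++ f :: β := by
          rw [← List.mem_toFinset, hT]; exact Finset.mem_union_right _ h1
        rw [List.mem_append] at h3
        rcases h3 with h3 | h3
        · exact h3
        · exfalso
          apply h2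
          rw [hHdef, Finset.mem_filter, List.mem_toFinset]
          exact ⟨h3, hBig x h1⟩
    have hβ2 : (f :: β).toFinset = S' ∪ H := by
      ext x
      rw [Finset.mem_union]
      constructor
      · intro hx
        have h1 := hsub x (List.mem_append_right _ (List.mem_toFinset.mp hx))
        rw [Finset.mem_union] at h1
        rcases h1 with h | h
        · exact Or.inl h
        · right
          rw [hHdef, Finset.mem_filter]
          exact ⟨hx, hBig x h⟩
      · rintro (hx | hx)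
        · have h3 : x ∈ α ++ f :: β := by
            rw [← List.mem_toFinset, hT]; exact Finset.mem_union_left _ hx
          rw [List.mem_append] at h3
          rcases h3 with h3 | h3
          · have := hαθ x h3; have := hS x hx; omega
          · exact List.mem_toFinset.mpr h3
        · rw [hHdef, Finset.mem_filter] at hx
          exact hx.1
    rw [Av_split f β α hfα] at hAv
    rw [Ch_split θ f β α hfα] at hCh
    refine ⟨⟨H, α, f :: β⟩, ?_, rfl⟩
    simp only [Finset.mem_sigma, Finset.mem_powerset, Finset.mem_product, mem_FS]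
    refine ⟨hH, ⟨⟨hn1, hα2⟩, hAv.1, (key H α β f hH hα2 hβ2 hf).mp hAv.2.1⟩, ⟨hn2, hβ2⟩,
      hAv.2.2, hCh.2, ?_⟩
    show ¬ (θ ≤ f)
    omega

/-! ### order isomorphism invariance -/

lemma exists_map (T : Finset ℕ) (f : ℕ → ℕ) : ∀ l' : List ℕ, (∀ y ∈ l', y ∈ T.image f) →
    ∃ l : List ℕ, (∀ x ∈ l, x ∈ T) ∧ l.map f = l' := by
  intro l'
  induction l' with
  | nil => intro _; exact ⟨[], by simp, rfl⟩
  | cons y l' ih =>
    intro h
    obtain ⟨l, h1, h2⟩ := ih (fun z hz => h z (by simp [hz]))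
    obtain ⟨x, hx, hxy⟩ := Finset.mem_image.mp (h y (by simp))
    refine ⟨x :: l, ?_, by rw [List.map_cons, h2, hxy]⟩
    intro z hz
    rw [List.mem_cons] at hz
    rcases hz with rfl | hz
    · exact hx
    · exact h1 z hz

lemma map_inj_on (T : Finset ℕ) (f : ℕ → ℕ) (hf : Set.InjOn f T) : ∀ l l' : List ℕ,
    (∀ y ∈ l, y ∈ T) → (∀ y ∈ l', y ∈ T) → l.map f = l'.map f → l = l' := by
  intro l
  induction l with
  | nil => intro l' _ _ h; rw [List.map_nil] at h; exact (List.map_eq_nil_iff.mp h.symm).symm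
  | cons x l ih =>
    intro l' h1 h2 h
    rcases l' with _ | ⟨y, l'⟩
    · simp at h
    · rw [List.map_cons, List.map_cons, List.cons.injEq] at h
      rw [hf (h1 x (by simp)) (h2 y (by simp)) h.1,
        ih l' (fun z hz => h1 z (by simp [hz])) (fun z hz => h2 z (by simp [hz])) h.2]

theorem Cnt_map (T : Finset ℕ) (f : ℕ → ℕ) (hf : Set.InjOn f T) (p p' : List ℕ → Prop)
    (h : ∀ l : List ℕ, (∀ x ∈ l, x ∈ T) → (p l ↔ p' (l.map f))) :
    Cnt T p = Cnt (T.image f) p' := by
  unfold Cnt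
  refine Finset.card_bij (fun l _ => l.map f) ?_ ?_ ?_
  · intro l hl
    rw [mem_FS] at hl ⊢
    have hT : ∀ x ∈ l, x ∈ T := fun x hx => hl.1.2 ▸ List.mem_toFinset.mpr hx
    refine ⟨⟨?_, ?_⟩, (h l hT).mp hl.2⟩
    · exact List.Nodup.map_on (fun x hx y hy hxy => hf (hT x hx) (hT y hy) hxy) hl.1.1
    · rw [← hl.1.2]
      ext y
      simp
  · intro l hl l' hl' he
    rw [mem_FS] at hl hl'
    exact map_inj_on T f hf l l' (fun x hx => hl.1.2 ▸ List.mem_toFinset.mpr hx)
      (fun x hx => hl'.1.2 ▸ List.mem_toFinset.mpr hx) he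
  · intro l' hl'
    rw [mem_FS] at hl'
    obtain ⟨l, h1, h2⟩ := exists_map T f l' (fun y hy => hl'.1.2 ▸ List.mem_toFinset.mpr hy)
    refine ⟨l, ?_, h2⟩
    rw [mem_FS]
    refine ⟨⟨?_, ?_⟩, ?_⟩
    · apply List.Nodup.of_map f
      rw [h2]; exact hl'.1.1
    · ext x
      rw [List.mem_toFinset]
      constructor
      · exact h1 x
      · intro hx
        have : f x ∈ l'.toFinset := by rw [hl'.1.2]; exact Finset.mem_image_of_mem f hx
        rw [List.mem_toFinset, ← h2, List.mem_map] at this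
        obtain ⟨z, hz, hzx⟩ := this
        rw [← hf (h1 z hz) hx hzx]
        exact hz
    · rw [h l h1, h2]
      exact hl'.2

lemma pw_congr (r r' : ℕ → ℕ → Prop) : ∀ l : List ℕ, (∀ a ∈ l, ∀ b ∈ l, (r a b ↔ r' a b)) →
    (l.Pairwise r ↔ l.Pairwise r') := by
  intro l
  induction l with
  | nil => intro _; simp
  | cons x l ih =>
    intro h
    rw [List.pairwise_cons, List.pairwise_cons, ih (fun a ha b hb => h a (by simp [ha]) b (by simp [hb]))]
    constructor
    · rintro ⟨h1, h2⟩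
      exact ⟨fun b hb => (h x (by simp) b (by simp [hb])).mp (h1 b hb), h2⟩
    · rintro ⟨h1, h2⟩
      exact ⟨fun b hb => (h x (by simp) b (by simp [hb])).mpr (h1 b hb), h2⟩

lemma Av_map (T : Finset ℕ) (f : ℕ → ℕ) (hf : StrictMonoOn f T) : ∀ l : List ℕ,
    (∀ x ∈ l, x ∈ T) → (Av l ↔ Av (l.map f)) := by
  intro l
  induction l with
  | nil => intro _; simp [Av]
  | cons x l ih =>
    intro h
    rcases l with _ | ⟨y, l⟩
    · simp [Av]
    · have ih' := ih (fun z hz => h z (List.mem_cons_of_mem _ hz))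
      have hx := h x (by simp)
      have hy := h y (by simp)
      rw [List.map_cons] at ih'
      simp only [List.map_cons, Av]
      rw [ih', List.pairwise_map, hf.lt_iff_lt hx hy]
      rw [pw_congr (fun a b => f a < f x → f b ≤ f y) (fun z w => z < x → w ≤ y) l]
      intro a ha b hb
      have ha' := h a (by simp [ha])
      have hb' := h b (by simp [hb])
      rw [hf.lt_iff_lt ha' hx, hf.le_iff_le hb' hy]

lemma Ch_map (T : Finset ℕ) (f : ℕ → ℕ) (hf : StrictMonoOn f T) (θ θ' : ℕ)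
    (hθ : ∀ x ∈ T, (θ ≤ x ↔ θ' ≤ f x)) : ∀ l : List ℕ,
    (∀ x ∈ l, x ∈ T) → (Ch θ l ↔ Ch θ' (l.map f)) := by
  intro l
  induction l with
  | nil => intro _; simp [Ch]
  | cons x l ih =>
    intro h
    rcases l with _ | ⟨y, l⟩
    · simp [Ch]
    · have ih' := ih (fun z hz => h z (List.mem_cons_of_mem _ hz))
      have hx := h x (by simp)
      have hy := h y (by simp)
      rw [List.map_cons] at ih'
      simp only [List.map_cons, Ch]
      rw [ih', hf.lt_iff_lt hx hy, hθ y hy]

lemma Hd_map (T : Finset ℕ) (f : ℕ → ℕ) (θ θ' : ℕ)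
    (hθ : ∀ x ∈ T, (θ ≤ x ↔ θ' ≤ f x)) : ∀ l : List ℕ,
    (∀ x ∈ l, x ∈ T) → (Hd θ l ↔ Hd θ' (l.map f)) := by
  intro l h
  rcases l with _ | ⟨x, l⟩
  · simp [Hd]
  · simp only [List.map_cons, Hd]
    exact hθ x (h x (by simp))

lemma rm_map (T : Finset ℕ) (f : ℕ → ℕ) (hf : StrictMonoOn f T) : ∀ l : List ℕ,
    (∀ x ∈ l, x ∈ T) → rm (l.map f) = rm l := by
  intro l
  induction l with
  | nil => intro _; rfl
  | cons x l ih =>
    intro h
    simp only [List.map_cons, rm]
    rw [ih (fun z hz => h z (List.mem_cons_of_mem _ hz))]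
    congr 1
    have : (∀ y ∈ l.map f, f x < y) ↔ ∀ y ∈ l, x < y := by
      constructor
      · intro h1 y hy
        exact (hf.lt_iff_lt (h x (by simp)) (h y (by simp [hy]))).mp
          (h1 (f y) (List.mem_map_of_mem hy))
      · intro h1 y hy
        obtain ⟨z, hz, rfl⟩ := List.mem_map.mp hy
        exact (hf.lt_iff_lt (h x (by simp)) (h z (by simp [hz]))).mpr (h1 z hz)
    simp only [this]

/-- rank -/
def rk (T : Finset ℕ) (x : ℕ) : ℕ := (T.filter (· < x)).card

lemma rk_mono (T : Finset ℕ) : StrictMonoOn (rk T) T := by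
  intro x hx y _ hxy
  apply Finset.card_lt_card
  rw [Finset.ssubset_iff_of_subset]
  · refine ⟨x, ?_, ?_⟩
    · rw [Finset.mem_filter]; exact ⟨hx, hxy⟩
    · rw [Finset.mem_filter]; rintro ⟨_, h⟩; exact lt_irrefl _ h
  · intro z hz
    rw [Finset.mem_filter] at hz ⊢
    exact ⟨hz.1, lt_trans hz.2 hxy⟩

lemma rk_image (T : Finset ℕ) : T.image (rk T) = range T.card := by
  apply Finset.eq_of_subset_of_card_le
  · intro y hy
    obtain ⟨x, hx, rfl⟩ := Finset.mem_image.mp hy
    rw [Finset.mem_range]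
    apply Finset.card_lt_card
    rw [Finset.ssubset_iff_of_subset (Finset.filter_subset _ _)]
    exact ⟨x, hx, by rw [Finset.mem_filter]; rintro ⟨_, h⟩; exact lt_irrefl _ h⟩
  · rw [Finset.card_range, Finset.card_image_of_injOn (rk_mono T).injOn]

lemma rk_thr (T : Finset ℕ) (θ : ℕ) : ∀ x ∈ T, (θ ≤ x ↔ (T.filter (· < θ)).card ≤ rk T x) := by
  intro x hx
  constructor
  · intro h
    apply Finset.card_le_card
    intro z hz
    rw [Finset.mem_filter] at hz ⊢
    exact ⟨hz.1, lt_of_lt_of_le hz.2 h⟩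
  · intro h
    by_contra hc
    rw [not_le] at hc
    apply absurd h
    rw [not_le]
    apply Finset.card_lt_card
    rw [Finset.ssubset_iff_of_subset]
    · refine ⟨x, ?_, ?_⟩
      · rw [Finset.mem_filter]; exact ⟨hx, hc⟩
      · rw [Finset.mem_filter]; rintro ⟨_, h⟩; exact lt_irrefl _ h
    · intro z hz
      rw [Finset.mem_filter] at hz ⊢
      exact ⟨hz.1, lt_trans hz.2 hc⟩

noncomputable def w (s h : ℕ) : ℕ := W (range (s + h)) s
noncomputable def v (s h : ℕ) : ℕ := Wh (range (s + h)) s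
noncomputable def n1 (s h : ℕ) : ℕ := N1 (range (s + h)) s
noncomputable def p (k n : ℕ) : ℕ := PP k (range n)

lemma W_eq (T : Finset ℕ) (θ s h : ℕ) (hs : (T.filter (· < θ)).card = s) (hT : T.card = s + h) :
    W T θ = w s h := by
  unfold W w W
  rw [← hT, ← rk_image T]
  refine Cnt_map T (rk T) (rk_mono T).injOn _ _ ?_
  intro l hl
  rw [← hs, ← Av_map T (rk T) (rk_mono T) l hl, ← Ch_map T (rk T) (rk_mono T) θ _ (rk_thr T θ) l hl]

lemma Wh_eq (T : Finset ℕ) (θ s h : ℕ) (hs : (T.filter (· < θ)).card = s) (hT : T.card = s + h) :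
    Wh T θ = v s h := by
  unfold Wh v Wh
  rw [← hT, ← rk_image T]
  refine Cnt_map T (rk T) (rk_mono T).injOn _ _ ?_
  intro l hl
  rw [← hs, ← Av_map T (rk T) (rk_mono T) l hl, ← Ch_map T (rk T) (rk_mono T) θ _ (rk_thr T θ) l hl,
    ← Hd_map T (rk T) θ _ (rk_thr T θ) l hl]

lemma N1_eq (T : Finset ℕ) (θ s h : ℕ) (hs : (T.filter (· < θ)).card = s) (hT : T.card = s + h) :
    N1 T θ = n1 s h := by
  unfold N1 n1 N1
  rw [← hT, ← rk_image T]
  refine Cnt_map T (rk T) (rk_mono T).injOn _ _ ?_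
  intro l hl
  rw [← hs, ← Av_map T (rk T) (rk_mono T) l hl, ← Ch_map T (rk T) (rk_mono T) θ _ (rk_thr T θ) l hl,
    ← Hd_map T (rk T) θ _ (rk_thr T θ) l hl]

lemma PP_eq (k : ℕ) (T : Finset ℕ) (n : ℕ) (hT : T.card = n) : PP k T = p k n := by
  unfold p PP
  rw [← hT, ← rk_image T]
  refine Cnt_map T (rk T) (rk_mono T).injOn _ _ ?_
  intro l hl
  rw [← Av_map T (rk T) (rk_mono T) l hl, rm_map T (rk T) (rk_mono T) l hl]

lemma w_split (s h : ℕ) : w s h = v s h + n1 s h := by
  unfold w v n1 W Wh N1 Cnt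
  rw [← Finset.card_union_of_disjoint]
  · congr 1
    ext l
    rw [Finset.mem_union, mem_FS, mem_FS, mem_FS]
    tauto
  · rw [Finset.disjoint_left]
    intro l h1 h2
    rw [mem_FS] at h1 h2
    exact h2.2.2.2 h1.2.2.2

end Pool.Agent.H207R3.PCat
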