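import Mathlib
import Pool.Agent.H207R3.PCatPerm

set_option autoImplicit false

namespace Pool.Agent.H207R3.PCat

open Finset
open scoped Classical

/-- number of elements of `T \ B` below some element of `B` -/
noncomputable def kap (T B : Finset ℕ) : ℕ := ((T \ B).filter (fun x => ∃ b ∈ B, x < b)).card

noncomputable def Sg (F : ℕ → ℤ) (m : ℕ) (T : Finset ℕ) : ℤ :=
  ∑ B ∈ T.powersetCard m, F (kap T B)

lemma kap_eq (T B : Finset ℕ) : ((T \ B).filter (· < B.sup id)).card = kap T B := by
  unfold kap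
  congr 1
  ext x
  rw [Finset.mem_filter, Finset.mem_filter, Finset.lt_sup_iff]
  simp only [id]

lemma kap_map (T B : Finset ℕ) (hB : B ⊆ T) (f : ℕ → ℕ) (hf : StrictMonoOn f T) :
    kap (T.image f) (B.image f) = kap T B := by
  unfold kap
  symm
  refine Finset.card_bij (fun x _ => f x) ?_ ?_ ?_
  · intro x hx
    rw [Finset.mem_filter, Finset.mem_sdiff] at hx ⊢
    obtain ⟨⟨h1, h2⟩, b, hb, hxb⟩ := hx
    refine ⟨⟨Finset.mem_image_of_mem f h1, ?_⟩, f b, Finset.mem_image_of_mem f hb,
      hf h1 (hB hb) hxb⟩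
    intro h3
    obtain ⟨y, hy, hyx⟩ := Finset.mem_image.mp h3
    rw [hf.injOn (hB hy) h1 hyx] at hy
    exact h2 hy
  · intro x hx y hy he
    rw [Finset.mem_filter, Finset.mem_sdiff] at hx hy
    exact hf.injOn hx.1.1 hy.1.1 he
  · intro y hy
    rw [Finset.mem_filter, Finset.mem_sdiff] at hy
    obtain ⟨⟨h1, h2⟩, b', hb', hyb⟩ := hy
    obtain ⟨x, hx, rfl⟩ := Finset.mem_image.mp h1
    obtain ⟨b, hb, rfl⟩ := Finset.mem_image.mp hb'
    refine ⟨x, ?_, rfl⟩
    rw [Finset.mem_filter, Finset.mem_sdiff]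
    exact ⟨⟨hx, fun h => h2 (Finset.mem_image_of_mem f h)⟩, b, hb,
      (hf.lt_iff_lt hx (hB hb)).mp hyb⟩

lemma Sg_map (F : ℕ → ℤ) (m : ℕ) (T : Finset ℕ) (f : ℕ → ℕ) (hf : StrictMonoOn f T) :
    Sg F m T = Sg F m (T.image f) := by
  unfold Sg
  refine Finset.sum_bij (fun B _ => B.image f) ?_ ?_ ?_ ?_
  · intro B hB
    rw [Finset.mem_powersetCard] at hB ⊢
    refine ⟨Finset.image_subset_image hB.1, ?_⟩
    rw [Finset.card_image_of_injOn (hf.injOn.mono (by exact_mod_cast hB.1)), hB.2]
  · intro B hB B' hB' he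
    rw [Finset.mem_powersetCard] at hB hB'
    ext x
    constructor
    · intro hx
      have : f x ∈ B'.image f := he ▸ Finset.mem_image_of_mem f hx
      obtain ⟨y, hy, hyx⟩ := Finset.mem_image.mp this
      rw [← hf.injOn (hB'.1 hy) (hB.1 hx) hyx]
      exact hy
    · intro hx
      have : f x ∈ B.image f := he ▸ Finset.mem_image_of_mem f hx
      obtain ⟨y, hy, hyx⟩ := Finset.mem_image.mp this
      rw [← hf.injOn (hB.1 hy) (hB'.1 hx) hyx]
      exact hy
  · intro B' hB'
    rw [Finset.mem_powersetCard] at hB'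
    refine ⟨T.filter (fun x => f x ∈ B'), ?_, ?_⟩
    · rw [Finset.mem_powersetCard]
      refine ⟨Finset.filter_subset _ _, ?_⟩
      rw [← hB'.2]
      refine Finset.card_bij (fun x _ => f x) ?_ ?_ ?_
      · intro x hx; exact (Finset.mem_filter.mp hx).2
      · intro x hx y hy he
        exact hf.injOn (Finset.mem_filter.mp hx).1 (Finset.mem_filter.mp hy).1 he
      · intro y hy
        obtain ⟨x, hx, rfl⟩ := Finset.mem_image.mp (hB'.1 hy)
        exact ⟨x, Finset.mem_filter.mpr ⟨hx, hy⟩, rfl⟩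
    · ext y
      rw [Finset.mem_image]
      constructor
      · rintro ⟨x, hx, rfl⟩; exact (Finset.mem_filter.mp hx).2
      · intro hy
        obtain ⟨x, hx, rfl⟩ := Finset.mem_image.mp (hB'.1 hy)
        exact ⟨x, Finset.mem_filter.mpr ⟨hx, hy⟩, rfl⟩
  · intro B hB
    rw [Finset.mem_powersetCard] at hB
    rw [kap_map T B hB.1 f hf]

lemma Sg_inv (F : ℕ → ℤ) (m : ℕ) (T : Finset ℕ) (n : ℕ) (hT : T.card = n) :
    Sg F m T = Sg F m (range n) := by
  rw [Sg_map F m T (rk T) (rk_mono T), rk_image, hT]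

lemma sum_powersetCard_insert {M : Type*} [AddCommMonoid M] (T' : Finset ℕ) (μ m : ℕ)
    (hμ : μ ∉ T') (G : Finset ℕ → M) :
    ∑ B ∈ (insert μ T').powersetCard (m + 1), G B =
      (∑ B ∈ T'.powersetCard m, G (insert μ B)) + ∑ B ∈ T'.powersetCard (m + 1), G B := by
  rw [Finset.powersetCard_succ_insert hμ, Finset.sum_union, add_comm, Finset.sum_image]
  · intro B hB B' hB' he
    rw [Finset.mem_coe, Finset.mem_powersetCard] at hB hB'
    have h1 : μ ∉ B := fun h => hμ (hB.1 h)
    have h2 : μ ∉ B' := fun h => hμ (hB'.1 h)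
    rw [← Finset.erase_insert h1, he, Finset.erase_insert h2]
  · rw [Finset.disjoint_left]
    intro B hB hB'
    rw [Finset.mem_powersetCard] at hB
    obtain ⟨B0, _, rfl⟩ := Finset.mem_image.mp hB'
    exact hμ (hB.1 (Finset.mem_insert_self _ _))

lemma Sg_insert (F : ℕ → ℤ) (m : ℕ) (T' : Finset ℕ) (μ : ℕ) (hμ : ∀ x ∈ T', μ < x) :
    Sg F (m + 1) (insert μ T') = Sg F m T' + Sg (fun x => F (x + 1)) (m + 1) T' := by
  have hμ' : μ ∉ T' := fun h => lt_irrefl _ (hμ μ h)
  unfold Sg
  rw [sum_powersetCard_insert T' μ m hμ']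
  congr 1
  · apply Finset.sum_congr rfl
    intro B hB
    rw [Finset.mem_powersetCard] at hB
    congr 1
    unfold kap
    congr 1
    ext x
    simp only [Finset.mem_filter, Finset.mem_sdiff, Finset.mem_insert]
    constructor
    · rintro ⟨⟨h1, h2⟩, b, hb, hxb⟩
      push Not at h2
      rcases h1 with rfl | h1
      · exact absurd rfl h2.1
      · refine ⟨⟨h1, h2.2⟩, ?_⟩
        rcases hb with rfl | hb
        · exact absurd (hμ x h1) (by omega)
        · exact ⟨b, hb, hxb⟩
    · rintro ⟨⟨h1, h2⟩, b, hb, hxb⟩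
      refine ⟨⟨Or.inr h1, ?_⟩, b, Or.inr hb, hxb⟩
      rintro (rfl | h)
      · exact hμ' h1
      · exact h2 h
  · apply Finset.sum_congr rfl
    intro B hB
    rw [Finset.mem_powersetCard] at hB
    congr 1
    unfold kap
    have hne : B.Nonempty := by
      rw [← Finset.card_pos]; omega
    have : (insert μ T' \ B).filter (fun x => ∃ b ∈ B, x < b) =
        insert μ ((T' \ B).filter (fun x => ∃ b ∈ B, x < b)) := by
      ext x
      simp only [Finset.mem_filter, Finset.mem_sdiff, Finset.mem_insert]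
      constructor
      · rintro ⟨⟨h1, h2⟩, h3⟩
        rcases h1 with rfl | h1
        · exact Or.inl rfl
        · exact Or.inr ⟨⟨h1, h2⟩, h3⟩
      · rintro (rfl | ⟨⟨h1, h2⟩, h3⟩)
        · refine ⟨⟨Or.inl rfl, fun h => hμ' (hB.1 h)⟩, ?_⟩
          obtain ⟨b, hb⟩ := hne
          exact ⟨b, hb, hμ b (hB.1 hb)⟩
        · exact ⟨⟨Or.inr h1, h2⟩, h3⟩
    rw [this, Finset.card_insert_of_notMem]
    rw [Finset.mem_filter, Finset.mem_sdiff]
    rintro ⟨⟨h, _⟩, _⟩
    exact hμ' h

lemma range_succ_insert (n : ℕ) : range (n + 1) = insert 0 (Ico 1 (n + 1)) := by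
  ext x
  simp only [Finset.mem_range, Finset.mem_insert, Finset.mem_Ico]
  omega

lemma Sg_zero (F : ℕ → ℤ) (T : Finset ℕ) : Sg F 0 T = F 0 := by
  unfold Sg
  rw [Finset.powersetCard_zero, Finset.sum_singleton]
  congr 1
  unfold kap
  simp

lemma Sg_Tr (φ : ℕ → ℤ) : ∀ r s m, Sg (fun x => φ (s + x)) m (range (m + r)) = Tr φ r s m := by
  intro r
  induction r with
  | zero =>
    intro s m
    rw [Tr_nil]
    unfold Sg
    rw [add_zero]
    have : (range m).powersetCard m = {range m} := by
      conv_lhs => rw [show m = (range m).card by rw [Finset.card_range]]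
      rw [Finset.card_range, ]
      have := Finset.powersetCard_self (range m)
      rw [Finset.card_range] at this
      exact this
    rw [this, Finset.sum_singleton]
    unfold kap
    simp
  | succ r ih =>
    intro s m
    induction m with
    | zero => rw [Tr_zero, Sg_zero, add_zero]
    | succ m ihm =>
      rw [Tr_succ, ← ihm, ← ih (s + 1) (m + 1), show m + 1 + (r + 1) = (m + r + 1) + 1 by omega,
        range_succ_insert, Sg_insert _ _ _ _ (by
          intro x hx; rw [Finset.mem_Ico] at hx; omega)]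
      have hc : (Ico 1 (m + r + 1 + 1)).card = m + r + 1 := by
        rw [Nat.card_Ico]; omega
      rw [Sg_inv _ m _ _ hc, Sg_inv _ (m + 1) _ _ hc, show m + (r + 1) = m + r + 1 by omega,
        show m + 1 + r = m + r + 1 by omega]
      congr 2
      funext x
      rw [show s + (x + 1) = s + 1 + x by omega]

noncomputable def wz (s h : ℕ) : ℤ := (w s h : ℤ)
noncomputable def vz (s h : ℕ) : ℤ := (v s h : ℤ)

lemma card_split (T B : Finset ℕ) (hB : B ⊆ T) (m t : ℕ) (hBm : B.card = m) (hT : T.card = m + t) :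
    (T \ B).card = kap T B + (t - kap T B) ∧ kap T B ≤ t := by
  have h1 : (T \ B).card = t := by
    rw [Finset.card_sdiff_of_subset hB]; omega
  have h2 : kap T B ≤ t := by
    rw [← h1]; exact Finset.card_le_card (Finset.filter_subset _ _)
  omega

lemma EE_eq (T : Finset ℕ) (m t : ℕ) (hT : T.card = m + t) :
    ∑ B ∈ T.powersetCard m, (W (T \ B) (B.sup id) : ℤ) = E wz m t := by
  have h1 : ∑ B ∈ T.powersetCard m, (W (T \ B) (B.sup id) : ℤ) = Sg (fun x => wz x (t - x)) m T := by
    unfold Sg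
    apply Finset.sum_congr rfl
    intro B hB
    rw [Finset.mem_powersetCard] at hB
    rw [W_eq (T \ B) (B.sup id) (kap T B) (t - kap T B) (kap_eq T B)
      (card_split T B hB.1 m t hB.2 hT).1]
    rfl
  rw [h1, Sg_inv _ _ _ _ hT]
  have := Sg_Tr (fun x => wz x (t - x)) t 0 m
  simp only [zero_add] at this
  rw [this]
  rfl

lemma EEh_eq (T : Finset ℕ) (m t : ℕ) (hT : T.card = m + t) :
    ∑ B ∈ T.powersetCard m, (Wh (T \ B) (B.sup id) : ℤ) = E vz m t := by
  have h1 : ∑ B ∈ T.powersetCard m, (Wh (T \ B) (B.sup id) : ℤ) = Sg (fun x => vz x (t - x)) m T := by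
    unfold Sg
    apply Finset.sum_congr rfl
    intro B hB
    rw [Finset.mem_powersetCard] at hB
    rw [Wh_eq (T \ B) (B.sup id) (kap T B) (t - kap T B) (kap_eq T B)
      (card_split T B hB.1 m t hB.2 hT).1]
    rfl
  rw [h1, Sg_inv _ _ _ _ hT]
  have := Sg_Tr (fun x => vz x (t - x)) t 0 m
  simp only [zero_add] at this
  rw [this]
  rfl

/-- grouping a sum over subsets by size -/
lemma sum_group (T : Finset ℕ) (m t : ℕ) (hT : T.card = m + t) (G : Finset ℕ → ℤ)
    (H : ℕ → ℤ) (h0 : ∀ J ⊆ T, J.card < m → G J = 0) (h1 : ∀ J ⊆ T, ∀ j, J.card = m + j → G J = H j) :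
    ∑ J ∈ T.powerset, (W (T \ J) (J.sup id) : ℤ) * G J =
      ∑ j ∈ range (t + 1), H j * E wz (m + j) (t - j) := by
  rw [Finset.sum_powerset, hT, show m + t + 1 = m + (t + 1) by omega, Finset.sum_range_add]
  have e0 : ∑ i ∈ range m, ∑ J ∈ T.powersetCard i, (W (T \ J) (J.sup id) : ℤ) * G J = 0 := by
    apply Finset.sum_eq_zero
    intro i hi
    apply Finset.sum_eq_zero
    intro J hJ
    rw [Finset.mem_powersetCard] at hJ
    rw [Finset.mem_range] at hi
    rw [h0 J hJ.1 (by omega), mul_zero]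
  rw [e0, zero_add]
  apply Finset.sum_congr rfl
  intro j hj
  rw [Finset.mem_range] at hj
  rw [← EE_eq T (m + j) (t - j) (by omega), Finset.mul_sum]
  apply Finset.sum_congr rfl
  intro J hJ
  rw [Finset.mem_powersetCard] at hJ
  rw [h1 J hJ.1 j hJ.2, mul_comm]

/-- the double sum -/
lemma double_sum (T' : Finset ℕ) (m t : ℕ) (hT : T'.card = m + t) :
    ∑ B ∈ T'.powersetCard m, ∑ C ∈ (T' \ B).powerset,
      ((W ((T' \ B) \ C) (max (B.sup id) (C.sup id)) : ℤ) * Wh C (B.sup id)) =
    ∑ j ∈ range (t + 1), E vz m j * E wz (m + j) (t - j) := by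
  rw [← sum_group T' m t hT (fun J => ∑ B ∈ J.powersetCard m, (Wh (J \ B) (B.sup id) : ℤ))
    (fun j => E vz m j)]
  · simp_rw [Finset.mul_sum]
    rw [Finset.sum_sigma', Finset.sum_sigma']
    refine Finset.sum_bij (fun x _ => ⟨x.1 ∪ x.2, x.1⟩) ?_ ?_ ?_ ?_
    · rintro ⟨B, C⟩ hx
      simp only [Finset.mem_sigma, Finset.mem_powersetCard, Finset.mem_powerset] at hx ⊢
      obtain ⟨⟨h1, h2⟩, h3⟩ := hx
      exact ⟨Finset.union_subset h1 (h3.trans Finset.sdiff_subset), Finset.subset_union_left, h2⟩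
    · rintro ⟨B, C⟩ hx ⟨B', C'⟩ hx' he
      simp only [Finset.mem_sigma, Finset.mem_powersetCard, Finset.mem_powerset] at hx hx'
      simp only [Sigma.mk.injEq, heq_eq_eq] at he
      obtain ⟨he1, rfl⟩ := he
      have : C = C' := by
        ext x
        constructor
        · intro h
          have h1 : x ∈ B ∪ C' := he1 ▸ Finset.mem_union_right _ h
          rw [Finset.mem_union] at h1
          rcases h1 with h1 | h1
          · exact absurd h1 (Finset.mem_sdiff.mp (hx.2 h)).2
          · exact h1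
        · intro h
          have h1 : x ∈ B ∪ C := he1 ▸ Finset.mem_union_right _ h
          rw [Finset.mem_union] at h1
          rcases h1 with h1 | h1
          · exact absurd h1 (Finset.mem_sdiff.mp (hx'.2 h)).2
          · exact h1
      subst this
      rfl
    · rintro ⟨J, B⟩ hx
      simp only [Finset.mem_sigma, Finset.mem_powersetCard, Finset.mem_powerset] at hx
      obtain ⟨h1, h2, h3⟩ := hx
      refine ⟨⟨B, J \ B⟩, ?_, ?_⟩
      · simp only [Finset.mem_sigma, Finset.mem_powersetCard, Finset.mem_powerset]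
        exact ⟨⟨h2.trans h1, h3⟩, Finset.sdiff_subset_sdiff h1 le_rfl⟩
      · simp only [Sigma.mk.injEq, heq_eq_eq, and_true]
        exact Finset.union_sdiff_of_subset h2
    · rintro ⟨B, C⟩ hx
      simp only [Finset.mem_sigma, Finset.mem_powersetCard, Finset.mem_powerset] at hx
      obtain ⟨⟨h1, h2⟩, h3⟩ := hx
      simp only
      have e1 : (T' \ B) \ C = T' \ (B ∪ C) := by
        rw [sdiff_sdiff_left]; rfl
      have e2 : (B ∪ C) \ B = C := by
        ext x
        simp only [Finset.mem_sdiff, Finset.mem_union]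
        constructor
        · rintro ⟨h | h, h'⟩
          · exact absurd h h'
          · exact h
        · intro h
          exact ⟨Or.inr h, (Finset.mem_sdiff.mp (h3 h)).2⟩
      rw [e1, e2, Finset.sup_union]

  · intro J _ hJ
    rw [Finset.powersetCard_eq_empty.mpr hJ, Finset.sum_empty]
  · intro J _ j hJ
    exact EEh_eq J m j hJ

/-- subsets avoiding the minimum -/
lemma Y_eq (m t : ℕ) : ∑ B ∈ (Ico 1 (m + t + 1)).powersetCard m,
      (W (range (m + t + 1) \ B) (B.sup id) : ℤ) =
    ∑ j ∈ range (t + 1), E vz m j * E wz (m + j) (t - j) := by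
  rw [← double_sum (Ico 1 (m + t + 1)) m t (by rw [Nat.card_Ico]; omega)]
  apply Finset.sum_congr rfl
  intro B hB
  rw [Finset.mem_powersetCard] at hB
  have e : range (m + t + 1) \ B = insert 0 (Ico 1 (m + t + 1) \ B) := by
    rw [range_succ_insert]
    ext x
    simp only [Finset.mem_sdiff, Finset.mem_insert]
    constructor
    · rintro ⟨rfl | h, h2⟩
      · exact Or.inl rfl
      · exact Or.inr ⟨h, h2⟩
    · rintro (rfl | ⟨h1, h2⟩)
      · refine ⟨Or.inl rfl, fun h => ?_⟩
        have := hB.1 h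
        rw [Finset.mem_Ico] at this
        omega
      · exact ⟨Or.inr h1, h2⟩
  rw [e, D1 _ 0 _ (by
    intro x hx
    have := (Finset.mem_sdiff.mp hx).1
    rw [Finset.mem_Ico] at this
    omega)]
  push_cast
  rfl

lemma w00 : w 0 0 = 1 := by
  unfold w W Cnt
  have : FS (range (0 + 0)) (fun l => Av l ∧ Ch 0 l) = {[]} := by
    ext l
    rw [mem_FS, Finset.mem_singleton]
    constructor
    · rintro ⟨⟨_, h⟩, _⟩
      rcases l with _ | ⟨x, l⟩
      · rfl
      · have : x ∈ (x :: l).toFinset := by simp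
        rw [h] at this
        simp at this
    · rintro rfl
      exact ⟨⟨List.nodup_nil, by simp⟩, trivial, trivial⟩
  rw [this, Finset.card_singleton]

theorem sys_wv : Sys wz vz where
  s0 := by
    show ((w 0 0 : ℕ) : ℤ) = 1
    rw [w00]; rfl
  s0' := by
    intro h
    show ((v 0 h : ℕ) : ℤ) = (w 0 h : ℕ)
    congr 1
    unfold v w Wh W
    apply Cnt_congr
    intro l _
    have : Hd 0 l := by
      rcases l with _ | ⟨x, l⟩
      · trivial
      · exact Nat.zero_le x
    tauto
  s1 := by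
    intro m t
    rw [← EE_eq (range (m + 1 + t + 1)) (m + 1) (t + 1) (by rw [Finset.card_range]; omega)]
    have hr : range (m + 1 + t + 1) = insert 0 (Ico 1 (m + 1 + t + 1)) := range_succ_insert _
    have h0 : (0 : ℕ) ∉ Ico 1 (m + 1 + t + 1) := by simp
    have e1 : (range (m + 1 + t + 1)).powersetCard (m + 1) =
        (insert 0 (Ico 1 (m + 1 + t + 1))).powersetCard (m + 1) := by rw [hr]
    rw [e1, sum_powersetCard_insert _ 0 m h0, Y_eq (m + 1) t]
    congr 1
    rw [← EE_eq (Ico 1 (m + 1 + t + 1)) m (t + 1) (by rw [Nat.card_Ico]; omega)]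
    apply Finset.sum_congr rfl
    intro B hB
    rw [Finset.mem_powersetCard] at hB
    rw [Finset.sup_insert]
    have e2 : range (m + 1 + t + 1) \ insert 0 B = Ico 1 (m + 1 + t + 1) \ B := by
      rw [hr]
      ext x
      simp only [Finset.mem_sdiff, Finset.mem_insert]
      constructor
      · rintro ⟨rfl | h, h2⟩
        · exact absurd (Or.inl rfl) h2
        · exact ⟨h, fun h3 => h2 (Or.inr h3)⟩
      · rintro ⟨h1, h2⟩
        refine ⟨Or.inr h1, ?_⟩
        rintro (rfl | h3)
        · exact h0 h1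
        · exact h2 h3
    rw [e2]
    congr 2

  s1' := by
    intro t
    rw [← EE_eq (range (0 + t + 1)) 0 (t + 1) (by rw [Finset.card_range]; omega)]
    have := Y_eq 0 t
    rw [Finset.powersetCard_zero, Finset.sum_singleton] at this
    rw [Finset.powersetCard_zero, Finset.sum_singleton, this]
    apply Finset.sum_congr rfl
    intro j _
    rw [zero_add]
  s2 := by
    intro s h
    have hS : ∀ x ∈ range (s + 1), x < s + 1 := fun x hx => Finset.mem_range.mp hx
    have hB : ∀ x ∈ Ico (s + 1) (s + 1 + h), s + 1 ≤ x := fun x hx => (Finset.mem_Ico.mp hx).1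
    have h1 := D3 (range (s + 1)) (Ico (s + 1) (s + 1 + h)) (s + 1) hS ⟨0, by simp⟩ hB
    have e1 : range (s + 1) ∪ Ico (s + 1) (s + 1 + h) = range (s + 1 + h) := by
      ext x; simp only [Finset.mem_union, Finset.mem_range, Finset.mem_Ico]; omega
    rw [e1] at h1
    have h2 : (w (s + 1) h : ℤ) = ∑ J ∈ (Ico (s + 1) (s + 1 + h)).powerset,
        (W (Ico (s + 1) (s + 1 + h) \ J) (J.sup id) : ℤ) * (N1 (range (s + 1) ∪ J) (s + 1) : ℤ) := by
      show ((W (range (s + 1 + h)) (s + 1) : ℕ) : ℤ) = _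
      rw [h1]; push_cast; rfl
    show (w (s + 1) h : ℤ) = _
    rw [h2, sum_group (Ico (s + 1) (s + 1 + h)) 0 h (by rw [Nat.card_Ico]; omega)
      (fun J => (N1 (range (s + 1) ∪ J) (s + 1) : ℤ)) (fun j => (n1 (s + 1) j : ℤ))]
    · apply Finset.sum_congr rfl
      intro j _
      rw [zero_add]
      congr 1
      show (n1 (s + 1) j : ℤ) = (w (s + 1) j : ℤ) - (v (s + 1) j : ℤ)
      rw [w_split]; push_cast; ring
    · intro J _ hJ; omega
    · intro J hJ j hj
      congr 1
      apply N1_eq
      · have : (range (s + 1) ∪ J).filter (· < s + 1) = range (s + 1) := by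
          ext x
          simp only [Finset.mem_filter, Finset.mem_union, Finset.mem_range]
          constructor
          · intro h; exact h.2
          · intro h; exact ⟨Or.inl h, h⟩
        rw [this, Finset.card_range]
      · rw [Finset.card_union_of_disjoint, Finset.card_range, hj, zero_add]
        rw [Finset.disjoint_left]
        intro x hx hx2
        have := hB x (hJ hx2)
        rw [Finset.mem_range] at hx
        omega

theorem p_rec (k N : ℕ) : (p (k + 1) (N + 1) : ℤ) =
    ∑ m ∈ range (N + 1), E wz m (N - m) * (p k m : ℤ) := by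
  have h1 := D2 (Ico 1 (N + 1)) 0 k (by intro x hx; rw [Finset.mem_Ico] at hx; omega)
  rw [← range_succ_insert] at h1
  have h2 : (p (k + 1) (N + 1) : ℤ) = ∑ J ∈ (Ico 1 (N + 1)).powerset,
      (W (Ico 1 (N + 1) \ J) (J.sup id) : ℤ) * (PP k J : ℤ) := by
    show ((PP (k + 1) (range (N + 1)) : ℕ) : ℤ) = _
    rw [h1]; push_cast; rfl
  rw [h2, sum_group (Ico 1 (N + 1)) 0 N (by rw [Nat.card_Ico]; omega)
    (fun J => (PP k J : ℤ)) (fun j => (p k j : ℤ))]
  · apply Finset.sum_congr rfl
    intro j _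
    rw [zero_add, mul_comm]
  · intro J _ hJ; omega
  · intro J _ j hj
    congr 1
    exact PP_eq k J j (by omega)

lemma rm_pos : ∀ l : List ℕ, l ≠ [] → 0 < rm l := by
  intro l
  induction l with
  | nil => intro h; exact absurd rfl h
  | cons x l ih =>
    intro _
    rcases l with _ | ⟨y, l⟩
    · simp [rm]
    · have := ih (by simp)
      show 0 < rm (y :: l) + _
      omega

lemma p0 (N : ℕ) : p 0 N = if N = 0 then 1 else 0 := by
  unfold p PP Cnt
  by_cases h : N = 0
  · rw [if_pos h, h]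
    have : FS (range 0) (fun l => Av l ∧ rm l = 0) = {[]} := by
      ext l
      rw [mem_FS, Finset.mem_singleton]
      constructor
      · rintro ⟨⟨_, h⟩, _⟩
        rcases l with _ | ⟨x, l⟩
        · rfl
        · have : x ∈ (x :: l).toFinset := by simp
          rw [h] at this
          simp at this
      · rintro rfl
        exact ⟨⟨List.nodup_nil, by simp⟩, trivial, rfl⟩
    rw [this, Finset.card_singleton]
  · rw [if_neg h, Finset.card_eq_zero]
    rw [Finset.eq_empty_iff_forall_notMem]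
    intro l hl
    rw [mem_FS] at hl
    by_cases hl0 : l = []
    · rw [hl0] at hl
      have h3 := hl.1.2
      have : 0 ∈ range N := by rw [Finset.mem_range]; omega
      rw [← h3] at this
      simp at this
    · have := rm_pos l hl0
      omega

lemma p1 (k : ℕ) : p (k + 1) 0 = 0 := by
  unfold p PP Cnt
  rw [Finset.card_eq_zero, Finset.eq_empty_iff_forall_notMem]
  intro l hl
  rw [mem_FS] at hl
  rcases l with _ | ⟨x, l⟩
  · have := hl.2.2
    simp [rm] at this
  · have : x ∈ (x :: l).toFinset := by simp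
    rw [hl.1.2] at this
    simp at this

/-- the recurrence on the permutation side -/
theorem p_main (k N : ℕ) : p (k + 1) (N + 1) = p k N + (k + 1) * ∑ j ∈ Icc (k + 1) N, p j N := by
  have h := main_rec wz vz (fun k N => (p k N : ℤ)) sys_wv
    (by intro N; rw [p0]; split <;> simp) (by intro k; rw [p1]; rfl) p_rec k N
  exact_mod_cast h

end Pool.Agent.H207R3.PCat
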