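import Mathlib
import Pool.Agent.H207R3.PCatSum
import Pool.Agent.H207R3.PCatInv

set_option autoImplicit false

namespace Pool.Agent.H207R3.PCat

open Finset
open scoped Classical

theorem p_eq_ic : ∀ n k, p k n = ic k n := by
  intro n
  induction n with
  | zero =>
    intro k
    rcases k with _ | k
    · rw [p0, ic0]
    · rw [p1, ic1]
  | succ n ih =>
    intro k
    rcases k with _ | k
    · rw [p0, ic0]
    · rw [p_main, ic_rec, ih]
      congr 2
      exact Finset.sum_congr rfl (fun j _ => ih j)

/-! ### index forms -/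

lemma pairwise_getD (r : ℕ → ℕ → Prop) : ∀ l : List ℕ,
    (l.Pairwise r ↔ ∀ j k, j < k → k < l.length → r (l.getD j 0) (l.getD k 0)) := by
  intro l
  rw [List.pairwise_iff_getElem]
  constructor
  · intro h j k hjk hk
    have := h j k (by omega) hk hjk
    rwa [List.getD_eq_getElem _ _ (by omega), List.getD_eq_getElem _ _ hk]
  · intro h i j hi hj hij
    have := h i j hij hj
    rwa [List.getD_eq_getElem _ _ hi, List.getD_eq_getElem _ _ hj] at this

lemma Av_getD : ∀ L : List ℕ, (Av L ↔ ∀ i j k, i + 1 < j → j < k → k < L.length →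
    L.getD j 0 < L.getD i 0 → L.getD i 0 < L.getD (i + 1) 0 → L.getD k 0 ≤ L.getD (i + 1) 0) := by
  intro L
  induction L with
  | nil =>
    constructor
    · intro _ i j k _ _ hk; simp at hk
    · intro _; trivial
  | cons x L ih =>
    rcases L with _ | ⟨y, L⟩
    · constructor
      · intro _ i j k h1 h2 hk
        simp at hk
        omega
      · intro _; trivial
    · show ((x < y → L.Pairwise (fun z w => z < x → w ≤ y)) ∧ Av (y :: L)) ↔ _
      rw [ih, pairwise_getD]
      constructor
      · rintro ⟨h1, h2⟩ i j k hij hjk hk h3 h4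
        obtain ⟨j', rfl⟩ : ∃ j', j = j' + 1 := ⟨j - 1, by omega⟩
        obtain ⟨k', rfl⟩ : ∃ k', k = k' + 1 := ⟨k - 1, by omega⟩
        rcases i with _ | i
        · obtain ⟨j'', rfl⟩ : ∃ j'', j' = j'' + 1 := ⟨j' - 1, by omega⟩
          obtain ⟨k'', rfl⟩ : ∃ k'', k' = k'' + 1 := ⟨k' - 1, by omega⟩
          simp only [List.getD_cons_zero, List.getD_cons_succ, List.length_cons] at h3 h4 hk ⊢
          exact h1 h4 j'' k'' (by omega) (by omega) h3
        · simp only [List.getD_cons_succ, List.length_cons] at h3 h4 hk ⊢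
          exact h2 i j' k' (by omega) (by omega) (by simp only [List.length_cons]; omega) h3
            (by simpa only [List.getD_cons_succ] using h4)
      · intro h
        constructor
        · intro hxy j k hjk hk hj
          have := h 0 (j + 2) (k + 2) (by omega) (by omega) (by simp only [List.length_cons]; omega)
          simp only [List.getD_cons_zero, List.getD_cons_succ] at this
          exact this hj hxy
        · intro i j k hij hjk hk h3 h4
          have := h (i + 1) (j + 1) (k + 1) (by omega) (by omega)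
            (by simp only [List.length_cons] at hk ⊢; omega)
          simp only [List.getD_cons_succ] at this h3 h4 ⊢
          exact this h3 h4

lemma rm_getD : ∀ L : List ℕ, rm L = ∑ i ∈ range L.length,
    if ∀ j, i < j → j < L.length → L.getD i 0 < L.getD j 0 then 1 else 0 := by
  intro L
  induction L with
  | nil => rfl
  | cons x L ih =>
    rw [List.length_cons, Finset.sum_range_succ']
    show rm L + _ = _
    rw [ih]
    congr 1
    · apply Finset.sum_congr rfl
      intro i _
      have : (∀ j, i < j → j < L.length → L.getD i 0 < L.getD j 0) ↔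
          (∀ j, i + 1 < j → j < L.length + 1 → (x :: L).getD (i + 1) 0 < (x :: L).getD j 0) := by
        constructor
        · intro h j hj1 hj2
          obtain ⟨j', rfl⟩ : ∃ j', j = j' + 1 := ⟨j - 1, by omega⟩
          rw [List.getD_cons_succ, List.getD_cons_succ]
          exact h j' (by omega) (by omega)
        · intro h j hj1 hj2
          have := h (j + 1) (by omega) (by omega)
          rwa [List.getD_cons_succ, List.getD_cons_succ] at this
      simp only [this]
    · have : (∀ y ∈ L, x < y) ↔
          (∀ j, 0 < j → j < L.length + 1 → (x :: L).getD 0 0 < (x :: L).getD j 0) := by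
        constructor
        · intro h j hj1 hj2
          obtain ⟨j', rfl⟩ : ∃ j', j = j' + 1 := ⟨j - 1, by omega⟩
          rw [List.getD_cons_zero, List.getD_cons_succ, List.getD_eq_getElem _ _ (by omega)]
          exact h _ (List.getElem_mem _)
        · intro h y hy
          obtain ⟨j, hj, rfl⟩ := List.mem_iff_getElem.mp hy
          have := h (j + 1) (by omega) (by omega)
          rwa [List.getD_cons_zero, List.getD_cons_succ, List.getD_eq_getElem _ _ hj] at this
      simp only [this]

lemma A110_getD : ∀ L : List ℕ, (A110 L ↔ ∀ i j k, i < j → j < k → k < L.length →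
    L.getD i 0 = L.getD j 0 → L.getD j 0 ≤ L.getD k 0) := by
  intro L
  induction L with
  | nil =>
    constructor
    · intro _ i j k _ _ hk; simp at hk
    · intro _; trivial
  | cons x L ih =>
    show (L.Pairwise (fun y z => y = x → x ≤ z) ∧ A110 L) ↔ _
    rw [ih, pairwise_getD]
    constructor
    · rintro ⟨h1, h2⟩ i j k hij hjk hk h3
      obtain ⟨j', rfl⟩ : ∃ j', j = j' + 1 := ⟨j - 1, by omega⟩
      obtain ⟨k', rfl⟩ : ∃ k', k = k' + 1 := ⟨k - 1, by omega⟩
      rw [List.length_cons] at hk
      rcases i with _ | i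
      · rw [List.getD_cons_zero, List.getD_cons_succ] at h3
        rw [List.getD_cons_succ, List.getD_cons_succ]
        have := h1 j' k' (by omega) (by omega) h3.symm
        omega
      · rw [List.getD_cons_succ, List.getD_cons_succ] at h3 ⊢
        exact h2 i j' k' (by omega) (by omega) (by omega) h3
    · intro h
      constructor
      · intro j k hjk hk hj
        have := h 0 (j + 1) (k + 1) (by omega) (by omega) (by rw [List.length_cons]; omega)
        rw [List.getD_cons_zero, List.getD_cons_succ, List.getD_cons_succ] at this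
        have := this hj.symm
        omega
      · intro i j k hij hjk hk h3
        have := h (i + 1) (j + 1) (k + 1) (by omega) (by omega) (by rw [List.length_cons]; omega)
        rw [List.getD_cons_succ, List.getD_cons_succ, List.getD_cons_succ] at this
        exact this h3

lemma V_getD : ∀ (L : List ℕ) (c : ℕ), (V c L ↔ ∀ i, i < L.length → L.getD i 0 ≤ c + i) := by
  intro L
  induction L with
  | nil =>
    intro c
    constructor
    · intro _ i hi; simp at hi
    · intro _; trivial
  | cons x L ih =>
    intro c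
    show (x ≤ c ∧ V (c + 1) L) ↔ _
    rw [ih]
    constructor
    · rintro ⟨h1, h2⟩ i hi
      rw [List.length_cons] at hi
      rcases i with _ | i
      · rw [List.getD_cons_zero]; omega
      · rw [List.getD_cons_succ]
        have := h2 i (by omega)
        omega
    · intro h
      constructor
      · have := h 0 (by rw [List.length_cons]; omega)
        rwa [List.getD_cons_zero] at this
      · intro i hi
        have := h (i + 1) (by rw [List.length_cons]; omega)
        rw [List.getD_cons_succ] at this
        omega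

lemma count_getD : ∀ L : List ℕ, L.count 0 = ∑ i ∈ range L.length,
    if L.getD i 0 = 0 then 1 else 0 := by
  intro L
  induction L with
  | nil => rfl
  | cons x L ih =>
    rw [List.length_cons, Finset.sum_range_succ', List.count_cons, ih, List.getD_cons_zero]
    congr 1
    by_cases h : x = 0
    · simp [h]
    · simp [h]

lemma getD_ofFn (n : ℕ) (g : Fin n → ℕ) (i : Fin n) : (List.ofFn g).getD i.val 0 = g i := by
  rw [List.getD_eq_getElem _ _ (by rw [List.length_ofFn]; exact i.isLt), List.getElem_ofFn]

lemma card_fin_sum (n : ℕ) (q : ℕ → Prop) :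
    Nat.card {i : Fin n // q i.val} = ∑ i ∈ range n, if q i then 1 else 0 := by
  rw [Nat.card_eq_fintype_card, Fintype.card_subtype, Finset.card_filter,
    Fin.sum_univ_eq_sum_range (fun i => if q i then 1 else 0) n]

/-- the list of a permutation -/
noncomputable def lp (n : ℕ) (π : Equiv.Perm (Fin n)) : List ℕ := List.ofFn (fun i => (π i).val)

lemma lp_getD (n : ℕ) (π : Equiv.Perm (Fin n)) (i : Fin n) : (lp n π).getD i.val 0 = (π i).val :=
  getD_ofFn n _ i

lemma lp_len (n : ℕ) (π : Equiv.Perm (Fin n)) : (lp n π).length = n := List.length_ofFn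

lemma lp_Av (n : ℕ) (π : Equiv.Perm (Fin n)) : Av (lp n π) ↔
    ¬ ∃ i i' j l : Fin n, i'.val = i.val + 1 ∧ i' < j ∧ j < l ∧
            π j < π i ∧ π i < π i' ∧ π i' < π l := by
  rw [Av_getD, lp_len]
  constructor
  · rintro h ⟨i, i', j, l, h1, h2, h3, h4, h5, h6⟩
    have := h i.val j.val l.val (by rw [← h1]; exact h2) h3 l.isLt
    rw [← h1, lp_getD, lp_getD, lp_getD, lp_getD] at this
    have := this h4 h5
    have h6' : (π i').val < (π l).val := h6
    omega
  · intro h i j k hij hjk hk h4 h5
    by_contra hc
    apply h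
    refine ⟨⟨i, by omega⟩, ⟨i + 1, by omega⟩, ⟨j, by omega⟩, ⟨k, hk⟩, rfl, hij, hjk, ?_, ?_, ?_⟩
    · have e1 := lp_getD n π ⟨i, by omega⟩
      have e2 := lp_getD n π ⟨j, by omega⟩
      simp only at e1 e2
      rw [e1, e2] at h4
      exact h4
    · have e1 := lp_getD n π ⟨i, by omega⟩
      have e2 := lp_getD n π ⟨i + 1, by omega⟩
      simp only at e1 e2
      rw [e1, e2] at h5
      exact h5
    · have e1 := lp_getD n π ⟨k, hk⟩
      have e2 := lp_getD n π ⟨i + 1, by omega⟩
      simp only at e1 e2
      rw [e1, e2, not_le] at hc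
      exact hc

lemma lp_rm (n : ℕ) (π : Equiv.Perm (Fin n)) : rm (lp n π) =
    Nat.card {i : Fin n // ∀ j : Fin n, i < j → π i < π j} := by
  rw [rm_getD, lp_len, ← card_fin_sum n
    (fun i => ∀ j, i < j → j < n → (lp n π).getD i 0 < (lp n π).getD j 0)]
  apply Nat.card_congr
  apply Equiv.subtypeEquivRight
  intro i
  constructor
  · intro h j hij
    have := h j.val hij j.isLt
    rw [lp_getD, lp_getD] at this
    exact this
  · intro h j hij hj
    have h1 := h ⟨j, hj⟩ hij
    have e2 := lp_getD n π ⟨j, hj⟩
    simp only at e2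
    rw [lp_getD, e2]
    exact h1

lemma lp_mem (n : ℕ) (π : Equiv.Perm (Fin n)) : (lp n π).Nodup ∧ (lp n π).toFinset = range n := by
  constructor
  · unfold lp
    rw [List.nodup_ofFn]
    intro i j h
    exact π.injective (Fin.ext h)
  · ext x
    rw [List.mem_toFinset, Finset.mem_range]
    unfold lp
    rw [List.mem_ofFn]
    constructor
    · rintro ⟨i, rfl⟩; exact (π i).isLt
    · intro hx
      refine ⟨π.symm ⟨x, hx⟩, ?_⟩
      simp

lemma lp_inj (n : ℕ) : Function.Injective (lp n) := by
  intro π π' h
  unfold lp at h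
  have := List.ofFn_injective h
  apply Equiv.ext
  intro i
  exact Fin.ext (congrFun this i)

lemma lp_surj (n : ℕ) (l : List ℕ) (h1 : l.Nodup) (h2 : l.toFinset = range n) :
    ∃ π, lp n π = l := by
  have hlen : l.length = n := by
    rw [← List.toFinset_card_of_nodup h1, h2, Finset.card_range]
  have hlt : ∀ i : Fin n, l.getD i.val 0 < n := by
    intro i
    rw [List.getD_eq_getElem _ _ (by rw [hlen]; exact i.isLt), ← Finset.mem_range, ← h2,
      List.mem_toFinset]
    exact List.getElem_mem _
  let f : Fin n → Fin n := fun i => ⟨l.getD i.val 0, hlt i⟩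
  have hf : Function.Injective f := by
    intro i j hij
    have := congrArg Fin.val hij
    simp only [f] at this
    rw [List.getD_eq_getElem _ _ (by rw [hlen]; exact i.isLt),
      List.getD_eq_getElem _ _ (by rw [hlen]; exact j.isLt)] at this
    have := (List.Nodup.getElem_inj_iff h1).mp this
    exact Fin.ext this
  refine ⟨Equiv.ofBijective f (Finite.injective_iff_bijective.mp hf), ?_⟩
  apply List.ext_getElem
  · rw [lp_len, hlen]
  · intro i hi hi'
    have hin : i < n := by rw [← hlen]; exact hi'
    rw [← List.getD_eq_getElem _ 0 hi, ← List.getD_eq_getElem _ 0 hi']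
    exact lp_getD n _ ⟨i, hin⟩

theorem perm_count (n k : ℕ) :
    Nat.card {π : Equiv.Perm (Fin n) //
        (¬ ∃ i i' j l : Fin n, i'.val = i.val + 1 ∧ i' < j ∧ j < l ∧
            π j < π i ∧ π i < π i' ∧ π i' < π l) ∧
        Nat.card {i : Fin n // ∀ j : Fin n, i < j → π i < π j} = k} = p k n := by
  have : p k n = Nat.card {l // l ∈ FS (range n) (fun l => Av l ∧ rm l = k)} := by
    rw [Nat.card_eq_fintype_card, Fintype.card_coe]
    rfl
  rw [this]
  refine Nat.card_eq_of_bijective (fun x => ⟨lp n x.1, ?_⟩) ⟨?_, ?_⟩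
  · rw [mem_FS, lp_Av, lp_rm]
    exact ⟨lp_mem n x.1, x.2⟩
  · intro x y h
    apply Subtype.ext
    exact lp_inj n (congrArg Subtype.val h)
  · rintro ⟨l, hl⟩
    have hl' := hl
    rw [mem_FS] at hl'
    obtain ⟨π, hπ⟩ := lp_surj n l hl'.1.1 hl'.1.2
    refine ⟨⟨π, ?_⟩, ?_⟩
    · rw [← lp_Av, ← lp_rm, hπ]
      exact hl'.2
    · exact Subtype.ext hπ

noncomputable def le (n : ℕ) (e : Fin n → Fin n) : List ℕ := List.ofFn (fun i => (e i).val)

lemma le_getD (n : ℕ) (e : Fin n → Fin n) (i : Fin n) : (le n e).getD i.val 0 = (e i).val :=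
  getD_ofFn n _ i

lemma le_len (n : ℕ) (e : Fin n → Fin n) : (le n e).length = n := List.length_ofFn

lemma le_V (n : ℕ) (e : Fin n → Fin n) : V 0 (le n e) ↔ ∀ i : Fin n, (e i).val ≤ i.val := by
  rw [V_getD, le_len]
  constructor
  · intro h i
    have := h i.val i.isLt
    rw [le_getD] at this
    omega
  · intro h i hi
    have := le_getD n e ⟨i, hi⟩
    simp only at this
    rw [this]
    have := h ⟨i, hi⟩
    simp only at this
    omega

lemma le_A (n : ℕ) (e : Fin n → Fin n) : A110 (le n e) ↔
    ¬ ∃ i j l : Fin n, i < j ∧ j < l ∧ e i = e j ∧ e l < e j := by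
  rw [A110_getD, le_len]
  constructor
  · rintro h ⟨i, j, l, h1, h2, h3, h4⟩
    have := h i.val j.val l.val h1 h2 l.isLt
    rw [le_getD, le_getD, le_getD] at this
    have := this (congrArg Fin.val h3)
    have h4' : (e l).val < (e j).val := h4
    omega
  · intro h i j k hij hjk hk h3
    by_contra hc
    apply h
    have e1 := le_getD n e ⟨i, by omega⟩
    have e2 := le_getD n e ⟨j, by omega⟩
    have e3 := le_getD n e ⟨k, hk⟩
    simp only at e1 e2 e3
    refine ⟨⟨i, by omega⟩, ⟨j, by omega⟩, ⟨k, hk⟩, hij, hjk, ?_, ?_⟩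
    · rw [e1, e2] at h3
      exact Fin.ext h3
    · rw [e2, e3, not_le] at hc
      exact hc

lemma le_count (n : ℕ) (e : Fin n → Fin n) : (le n e).count 0 =
    Nat.card {i : Fin n // (e i).val = 0} := by
  rw [count_getD, le_len]
  trans Nat.card {i : Fin n // (le n e).getD i.val 0 = 0}
  · rw [card_fin_sum n (fun i => (le n e).getD i 0 = 0)]
    apply Finset.sum_congr rfl
    intro i _
    split_ifs <;> rfl
  apply Nat.card_congr
  apply Equiv.subtypeEquivRight
  intro i
  rw [le_getD]

theorem inv_count (n k : ℕ) :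
    Nat.card {e : Fin n → Fin n //
        (∀ i : Fin n, (e i).val ≤ i.val) ∧
        (¬ ∃ i j l : Fin n, i < j ∧ j < l ∧ e i = e j ∧ e l < e j) ∧
        Nat.card {i : Fin n // (e i).val = 0} = k} = ic k n := by
  have : ic k n = Nat.card {l // l ∈ (G n).filter (fun l => l.count 0 = k)} := by
    rw [Nat.card_eq_fintype_card, Fintype.card_coe]
    rfl
  rw [this]
  refine Nat.card_eq_of_bijective (fun x => ⟨le n x.1, ?_⟩) ⟨?_, ?_⟩
  · rw [Finset.mem_filter, mem_G, le_V, le_A, le_count]
    exact ⟨⟨le_len n x.1, x.2.1, x.2.2.1⟩, x.2.2.2⟩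
  · intro x y h
    apply Subtype.ext
    have h' : le n x.1 = le n y.1 := congrArg Subtype.val h
    unfold le at h'
    have := List.ofFn_injective h'
    funext i
    exact Fin.ext (congrFun this i)
  · rintro ⟨l, hl⟩
    have hl' := hl
    rw [Finset.mem_filter, mem_G] at hl'
    obtain ⟨⟨h1, h2, h3⟩, h4⟩ := hl'
    have hV := (V_getD l 0).mp h2
    have hlt : ∀ i : Fin n, l.getD i.val 0 < n := by
      intro i
      have := hV i.val (by rw [h1]; exact i.isLt)
      have := i.isLt
      omega
    let e : Fin n → Fin n := fun i => ⟨l.getD i.val 0, hlt i⟩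
    have he : le n e = l := by
      apply List.ext_getElem
      · rw [le_len, h1]
      · intro i hi hi'
        rw [← List.getD_eq_getElem _ 0 hi, ← List.getD_eq_getElem _ 0 hi']
        exact le_getD n e ⟨i, by rw [← h1]; exact hi'⟩
    refine ⟨⟨e, ?_⟩, ?_⟩
    · rw [← le_V, ← le_A, ← le_count, he]
      exact ⟨h2, h3, h4⟩
    · exact Subtype.ext he

end Pool.Agent.H207R3.PCat
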